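import Pool.Agent.ETAL.GP
import Pool.Agent.REG10.ER

/-!
# Counting for the join argument (elements of maximal rank), helper24

`y` an element with `|V_y|` minimal, `M_z = V_z + V_(z+y)`.
-/

set_option autoImplicit false
set_option linter.unusedSectionVars false
set_option linter.unusedSimpArgs false

namespace Pool.Agent.ETGP

open Pool.Agent.Helper58.PLine (QData)
open Pool.Agent.ETCP
open Pool.Agent.ETPR
open Pool.Agent.REG10 (InQ SRg)

section lin
variable {M N : Type} [AddCommGroup M] [Module (ZMod 2) M] [AddCommGroup N] [Module (ZMod 2) N]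

theorem card_ker_range [Finite M] (f : M →ₗ[ZMod 2] N) :
    Nat.card M = Nat.card (LinearMap.ker f) * Nat.card (LinearMap.range f) := by
  rw [Submodule.card_eq_card_quotient_mul_card (LinearMap.ker f),
    Nat.card_congr f.quotKerEquivRange.toEquiv]

theorem smul_cases {p : M → Prop} (r : ZMod 2) (x : M) (h0 : p 0) (h1 : p x) : p (r • x) := by
  rcases Pool.Agent.Helper58.PLine.zm r with rfl | rfl
  · rwa [zero_smul]
  · rwa [one_smul]

end lin

variable {V Q : Type} [AddCommGroup V] [Module (ZMod 2) V] {S : QData V Q}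

variable (S) in
/-- `M_z = V_z + V_(z+y)` -/
def MZ (y z : V) : Submodule (ZMod 2) V := S.ann z ⊔ S.ann (z + y)

theorem mem_MZ {y z g : V} : g ∈ MZ S y z ↔ InQ S y z g := by
  unfold MZ
  rw [add_comm z y, add_comm y z]
  have := S.rel_iff (t := y) (x := z) (s := g)
  exact this.symm

theorem mem_MZ_comm {y z g : V} : g ∈ MZ S y z ↔ z ∈ MZ S y g := by
  rw [mem_MZ, mem_MZ]
  exact ⟨InQ.symm, InQ.symm⟩

variable (S) in
/-- pairs `(g, e)` with `s g = z e` -/
def Pr (s z : V) (N E : Submodule (ZMod 2) V) : Submodule (ZMod 2) (V × V) where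
  carrier := {p | p.1 ∈ N ∧ p.2 ∈ E ∧ S.q s p.1 = S.q z p.2}
  add_mem' := by
    rintro ⟨g, e⟩ ⟨g', e'⟩ ⟨h1, h2, h3⟩ ⟨h1', h2', h3'⟩
    exact ⟨N.add_mem h1 h1', E.add_mem h2 h2', ETC.add_common h3 h3'⟩
  zero_mem' := ⟨N.zero_mem, E.zero_mem, by
    show S.q s 0 = S.q z 0
    rw [S.q_zero, S.q_zero]⟩
  smul_mem' := by
    rintro r ⟨g, e⟩ h
    refine smul_cases (p := fun x : V × V => x.1 ∈ N ∧ x.2 ∈ E ∧ S.q s x.1 = S.q z x.2) r (g, e) ?_ h
    exact ⟨N.zero_mem, E.zero_mem, by
      show S.q s 0 = S.q z 0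
      rw [S.q_zero, S.q_zero]⟩

/-- the estimate: `s N` is contained in `z E` -/
theorem count [Finite V] {s z : V} {N E : Submodule (ZMod 2) V}
    (h : ∀ g ∈ N, ∃ e ∈ E, S.q s g = S.q z e) :
    Nat.card N * Nat.card (E ⊓ S.ann z : Submodule (ZMod 2) V) ≤
      Nat.card (S.ann s) * Nat.card E := by
  set F := Pr S s z N E with hF
  let f : F →ₗ[ZMod 2] V := (LinearMap.fst (ZMod 2) V V).comp F.subtype
  let f' : F →ₗ[ZMod 2] V := (LinearMap.snd (ZMod 2) V V).comp F.subtype
  have hr : N ≤ LinearMap.range f := by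
    intro g hg
    obtain ⟨e, he, h1⟩ := h g hg
    exact ⟨⟨(g, e), hg, he, h1⟩, rfl⟩
  have hr' : LinearMap.range f' ≤ E := by
    rintro _ ⟨⟨⟨g, e⟩, h1, h2, h3⟩, rfl⟩
    exact h2
  have hk : Nat.card (E ⊓ S.ann z : Submodule (ZMod 2) V) ≤ Nat.card (LinearMap.ker f) := by
    refine Nat.card_le_card_of_injective
      (fun e => ⟨⟨(0, (e : V)), N.zero_mem, e.2.1, ?_⟩, rfl⟩) ?_
    · show S.q s 0 = S.q z e
      rw [S.q_zero]
      exact (S.mem_ann.1 e.2.2).symm
    · intro e e' hee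
      have := congrArg (fun x : LinearMap.ker f => (((x : F) : V × V)).2) hee
      exact Subtype.ext this
  have hk' : Nat.card (LinearMap.ker f') ≤ Nat.card (S.ann s) := by
    refine Nat.card_le_card_of_injective
      (fun p => ⟨(((p : F) : V × V)).1, ?_⟩) ?_
    · have h3 := (p : F).2.2.2
      have h4 : (((p : F) : V × V)).2 = 0 := p.2
      rw [h4, S.q_zero] at h3
      exact h3
    · intro p p' hpp
      have h1 : (((p : F) : V × V)).1 = (((p' : F) : V × V)).1 := congrArg Subtype.val hpp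
      have h2 : (((p : F) : V × V)).2 = 0 := p.2
      have h3 : (((p' : F) : V × V)).2 = 0 := p'.2
      apply Subtype.ext
      apply Subtype.ext
      exact Prod.ext h1 (h2.trans h3.symm)
  have c1 := card_ker_range f
  have c2 := card_ker_range f'
  have c3 : Nat.card N ≤ Nat.card (LinearMap.range f) := Nat.card_mono (Set.toFinite _) hr
  have c4 : Nat.card (LinearMap.range f') ≤ Nat.card E := Nat.card_mono (Set.toFinite _) hr'
  calc _ = Nat.card (E ⊓ S.ann z : Submodule (ZMod 2) V) * Nat.card N := mul_comm _ _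
    _ ≤ Nat.card (LinearMap.ker f) * Nat.card (LinearMap.range f) := Nat.mul_le_mul hk c3
    _ = Nat.card (LinearMap.ker f') * Nat.card (LinearMap.range f') := by rw [← c1, ← c2]
    _ ≤ _ := Nat.mul_le_mul hk' c4

theorem card_MZ [Finite V] (y z : V) :
    Nat.card (MZ S y z) * Nat.card (S.ann y ⊓ S.ann z : Submodule (ZMod 2) V) =
      Nat.card (S.ann z) * Nat.card (S.ann (z + y)) := by
  have h := card_sup_inf (S.ann z) (S.ann (z + y))
  rw [h]
  congr 1
  have : (S.ann y ⊓ S.ann z : Submodule (ZMod 2) V) = S.ann z ⊓ S.ann (z + y) := by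
    ext v
    simp only [Submodule.mem_inf]
    constructor
    · rintro ⟨h1, h2⟩
      refine ⟨h2, ?_⟩
      exact C.add' (S := S) h2 h1
    · rintro ⟨h1, h2⟩
      refine ⟨?_, h1⟩
      exact (C.add' (S := S) h2 h1).of_eq (by rw [add_right_comm, ZModModule.add_self, zero_add]) rfl
  rw [this]

/-- the main step: `|V_y|` minimal, `(z+d) M_z` contained in `I_z`, and `zw` not in `Q_y` for some
`w` in `V_y` give `2 |V_z| ≤ |V_(z+d)|` -/
theorem step [Finite V] {y z s w : V} (hy : Nat.card (S.ann y) ≤ Nat.card (S.ann (z + y)))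
    (hw : w ∈ S.ann y) (hzw : ¬ InQ S y z w)
    (h : ∀ g ∈ MZ S y z, ∃ e ∈ S.ann y ⊓ MZ S y z, S.q s g = S.q z e) :
    2 * Nat.card (S.ann z) ≤ Nat.card (S.ann s) := by
  have h1 := count (S := S) h
  have e1 : (S.ann y ⊓ MZ S y z ⊓ S.ann z : Submodule (ZMod 2) V) = S.ann y ⊓ S.ann z := by
    ext v
    simp only [Submodule.mem_inf]
    constructor
    · rintro ⟨⟨h1, -⟩, h3⟩; exact ⟨h1, h3⟩
    · rintro ⟨h1, h3⟩
      exact ⟨⟨h1, Submodule.mem_sup_left h3⟩, h3⟩
  rw [e1, card_MZ] at h1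
  have h2 : 2 * Nat.card (S.ann y ⊓ MZ S y z : Submodule (ZMod 2) V) ≤ Nat.card (S.ann y) := by
    have hle : (S.ann y ⊓ MZ S y z : Submodule (ZMod 2) V) ≤ S.ann y := inf_le_left
    have hlt : (S.ann y ⊓ MZ S y z : Submodule (ZMod 2) V) < S.ann y := by
      refine lt_of_le_of_ne hle fun e => hzw ?_
      have : w ∈ (S.ann y ⊓ MZ S y z : Submodule (ZMod 2) V) := by rw [e]; exact hw
      exact mem_MZ.1 this.2
    set K := (S.ann y ⊓ MZ S y z : Submodule (ZMod 2) V) with hK
    have hd : Nat.card K ∣ Nat.card (S.ann y) :=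
      AddSubgroup.card_dvd_of_le (H := K.toAddSubgroup) (K := (S.ann y).toAddSubgroup) hle
    obtain ⟨k, hk⟩ := hd
    have hpos : 0 < Nat.card K := Nat.card_pos
    have hk1 : k ≠ 0 := by
      rintro rfl
      rw [mul_zero] at hk
      exact absurd hk (Nat.card_pos (α := S.ann y)).ne'
    have hk2 : k ≠ 1 := by
      rintro rfl
      rw [mul_one] at hk
      have h3 : (K : Set V) = S.ann y :=
        Set.eq_of_subset_of_ncard_le hle (by
          rw [← Nat.card_coe_set_eq, ← Nat.card_coe_set_eq]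
          exact hk.le) (Set.toFinite _)
      exact hlt.ne (SetLike.coe_injective h3)
    have : 2 ≤ k := by omega
    rw [hk, mul_comm]
    exact Nat.mul_le_mul_left _ this
  have hpos : 0 < Nat.card (S.ann y) := Nat.card_pos
  -- `|V_z| |D| ≤ |V_z| |V_(z+y)| ≤ |V_s| |D ∩ M_z|`
  have h3 : Nat.card (S.ann z) * Nat.card (S.ann y) ≤
      Nat.card (S.ann s) * Nat.card (S.ann y ⊓ MZ S y z : Submodule (ZMod 2) V) :=
    (Nat.mul_le_mul_left _ hy).trans h1
  have h4 : 2 * Nat.card (S.ann z) * Nat.card (S.ann y) ≤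
      Nat.card (S.ann s) * Nat.card (S.ann y) := by
    calc _ = 2 * (Nat.card (S.ann z) * Nat.card (S.ann y)) := by ring
      _ ≤ 2 * (Nat.card (S.ann s) *
          Nat.card (S.ann y ⊓ MZ S y z : Submodule (ZMod 2) V)) := Nat.mul_le_mul_left _ h3
      _ = Nat.card (S.ann s) *
          (2 * Nat.card (S.ann y ⊓ MZ S y z : Submodule (ZMod 2) V)) := by ring
      _ ≤ _ := Nat.mul_le_mul_left _ h2
  exact Nat.le_of_mul_le_mul_right h4 hpos

end Pool.Agent.ETGP
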