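import Pool.Agent.ETGP.Count
import Pool.Agent.REG10.SAll

/-!
# The end of the argument: join law => regular elements => elementary type (`-1 = 1`), helper24
-/

set_option autoImplicit false
set_option linter.unusedSectionVars false
set_option linter.unusedSimpArgs false

namespace Pool.Agent.ETGP

open QS
open Pool.Agent.Helper58.PLine (QData)
open Pool.Agent.ETCP
open Pool.Agent.ETPR
open Pool.Agent.ETAL
open Pool.Agent.REG10 (InQ SRg RegE)

variable {V Q : Type} [AddCommGroup V] [Module (ZMod 2) V] {S : QData V Q}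

/-! ### GP inside a structure -/

variable (S) in
/-- `x g` is in `z E` -/
def ZE (z : V) (E : Submodule (ZMod 2) V) (x g : V) : Prop := ∃ e ∈ E, S.q x g = S.q z e

namespace ZE
variable {z : V} {E : Submodule (ZMod 2) V}

theorem add {x g g' : V} (h : ZE S z E x g) (h' : ZE S z E x g') : ZE S z E x (g + g') := by
  obtain ⟨e, h1, h3⟩ := h
  obtain ⟨e', h1', h3'⟩ := h'
  exact ⟨e + e', add_mem h1 h1', ETC.add_common h3 h3'⟩

theorem symm {x g : V} (h : ZE S z E x g) : ZE S z E g x := by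
  obtain ⟨e, h1, h3⟩ := h
  exact ⟨e, h1, by rw [S.symm, h3]⟩

theorem add_left {x x' g : V} (h : ZE S z E x g) (h' : ZE S z E x' g) :
    ZE S z E (x + x') g := (h.symm.add h'.symm).symm

theorem zero (x : V) : ZE S z E x 0 := ⟨0, zero_mem _, by rw [S.q_zero, S.q_zero]⟩

theorem zero_left (g : V) : ZE S z E 0 g := (ZE.zero g).symm

end ZE

/-- **GP for `X = <z> + T`, `G` and the subspace `z E`.**  `P t m` is any subspace which contains
all `x` in `X` such that `m` is a sum of elements of `A_x` and `A_(x+t)`. -/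
theorem join_gen [Finite V] {z : V} {T G E : Submodule (ZMod 2) V} (hz : z ∉ T)
    (P : V → V → Submodule (ZMod 2) V)
    (hP : ∀ t ∈ T, ∀ m ∈ G, ∀ x, (x ∈ T ∨ z + x ∈ T) → ∀ a ∈ G, ZE S z E x a →
      ZE S z E (x + t) (m + a) → x ∈ P t m)
    (ha : ∀ t ∈ T, ∀ m ∈ G, ∀ x ∈ T, x ∈ P t m → ∃ a ∈ G, ZE S z E x a ∧ ZE S z E (x + t) (m + a))
    (hc : ∀ g ∈ G, ∃ d ∈ T, ZE S z E (z + d) g) : ∃ d ∈ T, ∀ g ∈ G, ZE S z E (z + d) g := by
  obtain ⟨φ, h2, h1⟩ := Pool.Agent.Helper58.PLine.exists_functional hz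
  set X : Submodule (ZMod 2) V := T ⊔ Submodule.span (ZMod 2) {z} with hX
  have hzX : z ∈ X := Submodule.mem_sup_right (Submodule.mem_span_singleton_self z)
  have hmem : ∀ x ∈ X, x ∈ T ∨ z + x ∈ T := by
    intro x hx
    obtain ⟨t, ht, y, hy, rfl⟩ := Submodule.mem_sup.1 hx
    obtain ⟨r, rfl⟩ := Submodule.mem_span_singleton.1 hy
    rcases Pool.Agent.Helper58.PLine.zm r with rfl | rfl
    · left; rwa [zero_smul, add_zero]
    · right
      rwa [one_smul, add_comm t z, ← add_assoc, ZModModule.add_self, zero_add]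
  have hφ : ∀ x ∈ X, φ x = 0 → x ∈ T := by
    intro x hx h0
    rcases hmem x hx with h | h
    · exact h
    · exfalso
      have h3 := h1 _ h
      rw [map_add, h0, h2, add_zero] at h3
      exact one_ne_zero h3
  have hφ1 : ∀ x ∈ X, φ x = 1 → z + x ∈ T := by
    intro x hx h0
    rcases hmem x hx with h | h
    · exfalso
      have h3 := h1 _ h
      rw [h0] at h3
      exact one_ne_zero h3
    · exact h
  have key := gp_set (X := X) (G := G) (Z := fun x g => ZE S z E (x : V) (g : V))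
    ⟨fun x x' g h h' => h.add_left h', fun x g g' h h' => h.add h',
      fun g => ZE.zero_left _, fun x => ZE.zero _⟩ (al := φ.comp X.subtype)
    (fun t m => (P (t : V) (m : V)).comap X.subtype)
    (by
      intro t x m a h0 h3 h4
      exact hP t (hφ t t.2 h0) m m.2 x (hmem x x.2) a a.2 h3 h4)
    (by
      intro t x m h0 h0' hx
      obtain ⟨a, h3, h4, h5⟩ := ha t (hφ t t.2 h0) m m.2 x (hφ x x.2 h0') hx
      exact ⟨⟨a, h3⟩, h4, h5⟩)
    (by
      intro g
      obtain ⟨d, hd, h3⟩ := hc g g.2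
      refine ⟨⟨z + d, X.add_mem hzX (Submodule.mem_sup_left hd)⟩, ?_, h3⟩
      show φ (z + d) = 1
      rw [map_add, h2, h1 d hd, add_zero])
  obtain ⟨x, h3, h4⟩ := key
  refine ⟨z + x, hφ1 x x.2 h3, fun g hg => ?_⟩
  rw [← add_assoc, ZModModule.add_self, zero_add]
  exact h4 ⟨g, hg⟩

/-! ### The join law at an element of maximal rank -/

variable (S) in
/-- `(z+d) M_z` is contained in `I_z` -/
def JI (y z d : V) : Prop := ∀ g ∈ MZ S y z, ZE S z (S.ann y ⊓ MZ S y z) (z + d) g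

/-- no element of maximal rank is not regular, if the join law holds in a subspace `T` of `V_y`
with `T w` contained in `Q_y` -/
theorem inq_of_join [Finite V] {y z w : V} (hy : ∀ x, Nat.card (S.ann y) ≤ Nat.card (S.ann x))
    (hw : w ∈ S.ann y) {T : Submodule (ZMod 2) V} (hTw : ∀ t ∈ T, InQ S y t w)
    (h : ∀ t ∈ T, ∃ d ∈ T, JI S y (z + t) d) : InQ S y z w := by
  by_contra hzw
  classical
  obtain ⟨t, ht⟩ := Finite.exists_max (fun t : T => Nat.card (S.ann (z + t)))
  obtain ⟨d, hd, hJ⟩ := h t t.2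
  have h1 : ¬ InQ S y (z + t) w := fun h' =>
    hzw ((h'.add_left (hTw t t.2)).congr (by
      rw [add_assoc, ZModModule.add_self, add_zero]))
  have h2 := step (S := S) (y := y) (z := z + t) (s := z + t + d) (w := w) (hy _) hw h1 hJ
  have h3 := ht ⟨t + d, T.add_mem t.2 hd⟩
  rw [add_assoc] at h2
  have h4 : 0 < Nat.card (S.ann (z + (t : V))) := Nat.card_pos
  have h5 : Nat.card (S.ann (z + (t + d))) ≤ Nat.card (S.ann (z + (t : V))) := h3
  omega

/-- maximal rank elements exist -/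
theorem exists_max_rank [Finite V] (S : QData V Q) :
    ∃ y, ∀ x, Nat.card (S.ann y) ≤ Nat.card (S.ann x) := by
  obtain ⟨y, hy⟩ := Finite.exists_min (fun x : V => Nat.card (S.ann x))
  exact ⟨y, hy⟩

/-- **reduction of the conjecture (`-1 = 1`)**: it is enough to prove that in every finite
structure some element is regular -/
theorem etc_of_reg
    (h : ∀ (V Q : Type) [AddCommGroup V] [Module (ZMod 2) V] [Finite V] (S : QData V Q),
      S.e = 0 → ∃ x, SRg S x) :
    ∀ S : QStruct, Finite S.G → S.neg = 1 → ElemType S := by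
  rw [REG10.etc_iff REG10.srgx]
  intro S hf hneg
  have hfin : Finite (Additive S.G) := (inferInstance : Finite S.G)
  have he : (ETC.toData S).e = 0 := by
    show Additive.ofMul S.neg = 0
    rw [hneg]; rfl
  obtain ⟨x, hx⟩ := h (Additive S.G) S.Q (ETC.toData S) he
  refine ⟨Additive.toMul x, fun w v hw => ?_⟩
  obtain ⟨z, hz⟩ := hx (Additive.ofMul w) (Additive.ofMul v) hw
  exact ⟨Additive.toMul z, hz.symm⟩

/-- **from the join law to the conjecture** -/
theorem etc_of_join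
    (h : ∀ (V Q : Type) [AddCommGroup V] [Module (ZMod 2) V] [Finite V] (S : QData V Q),
      S.e = 0 → ∀ y, (∀ x, Nat.card (S.ann y) ≤ Nat.card (S.ann x)) →
      ∀ w ∈ S.ann y, ∀ z, ¬ InQ S y z w → ∃ T : Submodule (ZMod 2) V,
        (∀ t ∈ T, InQ S y t w) ∧ ∀ t ∈ T, ∃ d ∈ T, JI S y (z + t) d) :
    ∀ S : QStruct, Finite S.G → S.neg = 1 → ElemType S := by
  refine etc_of_reg fun V Q _ _ _ S he => ?_
  obtain ⟨y, hy⟩ := exists_max_rank S
  refine ⟨y, fun w z hw => ?_⟩
  by_contra hzw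
  have hzw' : ¬ InQ S y z w := fun h' => hzw h'.symm
  obtain ⟨T, h2, h3⟩ := h V Q S he y hy w hw z hzw'
  exact hzw' (inq_of_join hy hw h2 h3)

/-- **from the two halves of GP (`LZ_I` and `(a_I)`) to the conjecture** -/
theorem etc_of_gp
    (h : ∀ (V Q : Type) [AddCommGroup V] [Module (ZMod 2) V] [Finite V] (S : QData V Q),
      S.e = 0 → ∀ y, (∀ x, Nat.card (S.ann y) ≤ Nat.card (S.ann x)) →
      ∀ w ∈ S.ann y, ∀ z, ¬ InQ S y z w → ∃ T : Submodule (ZMod 2) V,
        (∀ t ∈ T, InQ S y t w) ∧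
        ∀ z', ¬ InQ S y z' w →
          (∀ g ∈ MZ S y z', ∃ d ∈ T, ZE S z' (S.ann y ⊓ MZ S y z') (z' + d) g) ∧
          ∃ P : V → V → Submodule (ZMod 2) V,
            (∀ t ∈ T, ∀ m ∈ MZ S y z', ∀ x, (x ∈ T ∨ z' + x ∈ T) → ∀ a ∈ MZ S y z',
              ZE S z' (S.ann y ⊓ MZ S y z') x a →
              ZE S z' (S.ann y ⊓ MZ S y z') (x + t) (m + a) → x ∈ P t m) ∧
            (∀ t ∈ T, ∀ m ∈ MZ S y z', ∀ x ∈ T, x ∈ P t m → ∃ a ∈ MZ S y z',
              ZE S z' (S.ann y ⊓ MZ S y z') x a ∧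
              ZE S z' (S.ann y ⊓ MZ S y z') (x + t) (m + a))) :
    ∀ S : QStruct, Finite S.G → S.neg = 1 → ElemType S := by
  refine etc_of_join fun V Q _ _ _ S he y hy w hw z hzw => ?_
  obtain ⟨T, h2, h3⟩ := h V Q S he y hy w hw z hzw
  refine ⟨T, h2, fun t ht => ?_⟩
  have h4 : ¬ InQ S y (z + t) w := fun h' =>
    hzw ((h'.add_left (h2 t ht)).congr (by
      rw [add_assoc, ZModModule.add_self, add_zero]))
  obtain ⟨hb, P, hP, ha⟩ := h3 (z + t) h4
  exact join_gen (S := S) (fun hzT => h4 (h2 _ hzT)) P hP ha hb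

end Pool.Agent.ETGP
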