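import Pool.Agent.ETGP.Lat

/-!
# LZ-strong (helper27): `xz ∈ Q_y` gives commuting elements of `x + V_y` and `z + V_y`, helper24
-/

set_option autoImplicit false
set_option linter.unusedSectionVars false
set_option linter.unusedSimpArgs false
set_option linter.unnecessarySeqFocus false

namespace Pool.Agent.ETGP

open Pool.Agent.Helper58.PLine (QData)
open Pool.Agent.ETCP
open Pool.Agent.ETPR
open Pool.Agent.ETAL
open Pool.Agent.REG10 (InQ SRg RegE)

variable {V Q : Type} [AddCommGroup V] [Module (ZMod 2) V] {S : QData V Q}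

/-- **LZ-strong** -/
theorem lz_strong (he : S.e = 0) {x y z : V} (h : InQ S y x z) :
    ∃ a c, C S y (x + a) ∧ C S y (z + c) ∧ C S a c := by
  obtain ⟨g, hg⟩ := h
  obtain ⟨s, hs⟩ : ∃ s, s = x + z := ⟨_, rfl⟩
  have hsz : S.q s z = S.q x z := by
    subst hs
    exact q_eq' ((C.self he z).of_eq (by
      exact (eo (by abel_nf <;> simp only [ch2, ch3, ch4, ch5, ch6, add_zero, zero_add]))) rfl)
  have hsx : S.q z s = S.q z x := by
    subst hs
    exact q_eq ((C.self he z).of_eq rfl (by
      exact (eo (by abel_nf <;> simp only [ch2, ch3, ch4, ch5, ch6, add_zero, zero_add]))))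
  -- (1)
  obtain ⟨q, h1, h2, h3⟩ := link (hsz.trans hg)
  have f1 : S.q s q = S.q x z := (q_eq h1).symm.trans hsz
  have f2 : S.q y q = S.q x z := (q_eq h2).symm.trans hg.symm
  -- (2)
  have f3 : S.q (y + q) q = S.q x z := by
    rw [← f2]
    exact q_eq' ((C.self he q).of_eq (by
      exact (eo (by abel_nf <;> simp only [ch2, ch3, ch4, ch5, ch6, add_zero, zero_add]))) rfl)
  have f4 : S.q z x = S.q (y + q) q := by rw [f3, S.symm]
  obtain ⟨p, k1, k2, k3⟩ := link f4
  have f5 : S.q z p = S.q x z := by rw [← q_eq k1, S.symm]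
  have f6 : S.q (y + q) p = S.q x z := (q_eq k2).symm.trans f3
  -- (3)
  have g1 : S.q (y + z + q) y = S.q y (z + q) := by
    rw [S.symm]
    exact q_eq ((C.self he y).of_eq rfl (by
      exact (eo (by abel_nf <;> simp only [ch2, ch3, ch4, ch5, ch6, add_zero, zero_add]))))
  have g2 : S.q (y + z + q) s = S.q y s := by
    rw [S.symm, S.symm y s]
    exact q_eq (h1.of_eq rfl (by
      exact (eo (by abel_nf <;> simp only [ch2, ch3, ch4, ch5, ch6, add_zero, zero_add]))))
  have g3 := ETC.add_common g1 g2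
  have g4 : S.q (y + z + q) (y + s + p) = S.q (y + z + q) (y + s) :=
    q_eq (k3.of_eq (by
      exact (eo (by abel_nf <;> simp only [ch2, ch3, ch4, ch5, ch6, add_zero, zero_add]))) (by
      exact (eo (by abel_nf <;> simp only [ch2, ch3, ch4, ch5, ch6, add_zero, zero_add]))))
  have g5 : S.q (y + s + p) (y + z + q) = S.q y (x + q) := by
    rw [S.symm, g4, g3, hs]
    congr 1
    exact (eo (by abel_nf <;> simp only [ch2, ch3, ch4, ch5, ch6, add_zero, zero_add]))
  obtain ⟨b, l1, l2, l3⟩ := link g5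
  have l4 : C S (s + p) b := l3.of_eq (by
    exact (eo (by abel_nf <;> simp only [ch2, ch3, ch4, ch5, ch6, add_zero, zero_add]))) rfl
  have l5 : C S y (x + (q + b)) := l2.of_eq rfl (by rw [add_assoc])
  -- (4)
  have m1 : S.q (y + q) (s + p) = S.q s y := by
    have e1 : S.q (y + q) s = S.q s (y + q) := S.symm _ _
    have e2 : S.q (y + q) p = S.q s q := by rw [f6, f1]
    have e3 := ETC.add_common e1 e2
    rw [e3]
    congr 1
    exact (eo (by abel_nf <;> simp only [ch2, ch3, ch4, ch5, ch6, add_zero, zero_add]))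
  have m2 : S.q (y + (q + b)) (s + p) = S.q y s := by
    have e1 : S.q (y + (q + b)) (s + p) = S.q (y + q) (s + p) := q_eq' (l4.symm.of_eq (by
      exact (eo (by abel_nf <;> simp only [ch2, ch3, ch4, ch5, ch6, add_zero, zero_add]))) rfl)
    rw [e1, m1, S.symm]
  have m3 : S.q (y + (q + b)) (q + b) = S.q y x := by
    have e1 : S.q (y + (q + b)) (q + b) = S.q y (q + b) :=
      q_eq' ((C.self he (q + b)).of_eq (by
        exact (eo (by abel_nf <;> simp only [ch2, ch3, ch4, ch5, ch6, add_zero, zero_add]))) rfl)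
    rw [e1]
    exact (q_eq l5).symm
  have m4 := ETC.add_common m2 m3
  have m5 : S.q (y + (q + b)) (s + p + (q + b)) = S.q y z := by
    rw [m4, hs]
    congr 1
    exact (eo (by abel_nf <;> simp only [ch2, ch3, ch4, ch5, ch6, add_zero, zero_add]))
  obtain ⟨c, n1, n2, n3⟩ := link m5
  exact ⟨q + b, c, l5, n2, n3.of_eq (by
    exact (eo (by abel_nf <;> simp only [ch2, ch3, ch4, ch5, ch6, add_zero, zero_add]))) rfl⟩

end Pool.Agent.ETGP
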