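import Pool.Agent.ETGP.NC

/-!
# The lattice theorem (helper84): TR + SUM + D3 give a regular element, helper24
-/

set_option autoImplicit false
set_option linter.unusedSectionVars false
set_option linter.unusedSimpArgs false
set_option linter.unnecessarySeqFocus false

namespace Pool.Agent.ETGP

open QS
open Pool.Agent.Helper58.PLine (QData)
open Pool.Agent.ETCP
open Pool.Agent.ETPR
open Pool.Agent.ETAL
open Pool.Agent.REG10 (InQ SRg RegE)

section lattice

variable {V : Type} [AddCommGroup V] [Module (ZMod 2) V]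

/-- ideals for a family `G` of subspaces -/
def Idl (G : V → Submodule (ZMod 2) V) (I : Submodule (ZMod 2) V) : Prop :=
  ∀ x ∈ I, G x ≤ I

variable {G : V → Submodule (ZMod 2) V}

theorem idl_G (tr : ∀ y z, y ∈ G z → G y ≤ G z) (x : V) : Idl G (G x) :=
  fun y hy => tr y x hy

theorem idl_sup (sum : ∀ x y, G (x + y) ≤ G x ⊔ G y) {I J : Submodule (ZMod 2) V}
    (hI : Idl G I) (hJ : Idl G J) : Idl G (I ⊔ J) := by
  intro x hx
  obtain ⟨a, ha, b, hb, rfl⟩ := Submodule.mem_sup.1 hx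
  exact (sum a b).trans (sup_le_sup (hI a ha) (hJ b hb))

/-- `K` is a maximal proper ideal -/
structure MaxI (G : V → Submodule (ZMod 2) V) (K : Submodule (ZMod 2) V) : Prop where
  idl : Idl G K
  ne : K ≠ ⊤
  max : ∀ I, Idl G I → K < I → I = ⊤

theorem prime (h1 : ∀ x, x ∈ G x) (tr : ∀ y z, y ∈ G z → G y ≤ G z)
    (sum : ∀ x y, G (x + y) ≤ G x ⊔ G y) (d3 : ∀ x y, x ∈ (G x ⊓ G y) ⊔ G (x + y))
    {K : Submodule (ZMod 2) V} (hK : MaxI G K) {a b : V} (ha : a ∉ K) (hb : b ∉ K) :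
    ∃ c, c ∈ G a ∧ c ∈ G b ∧ c ∉ K := by
  have base : ∀ a b : V, a ∉ K → a + b ∈ K → ∃ c, c ∈ G a ∧ c ∈ G b ∧ c ∉ K := by
    intro a b ha hab
    by_contra hn
    push Not at hn
    have hle : G a ⊓ G b ≤ K := fun c hc => hn c hc.1 hc.2
    exact ha (sup_le hle (hK.idl _ hab) (d3 a b))
  have hlt : K < G a ⊔ K := lt_of_le_of_ne le_sup_right fun h =>
    ha (h ▸ (Submodule.mem_sup_left (h1 a) : a ∈ G a ⊔ K))
  have htop := hK.max _ (idl_sup sum (idl_G tr a) hK.idl) hlt
  have hbt : b ∈ G a ⊔ K := by rw [htop]; exact Submodule.mem_top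
  obtain ⟨a', ha', k, hk, e⟩ := Submodule.mem_sup.1 hbt
  have ha'K : a' ∉ K := fun h => hb (e ▸ K.add_mem h hk)
  have hab : a' + b ∈ K := by
    rw [← e, ← add_assoc, ZModModule.add_self, zero_add]; exact hk
  obtain ⟨c, c1, c2, c3⟩ := base a' b ha'K hab
  exact ⟨c, tr a' a ha' c1, c2, c3⟩

/-- finitely many ideals not contained in `K` have a common element outside `K` -/
theorem common (h1 : ∀ x, x ∈ G x) (tr : ∀ y z, y ∈ G z → G y ≤ G z)
    (sum : ∀ x y, G (x + y) ≤ G x ⊔ G y) (d3 : ∀ x y, x ∈ (G x ⊓ G y) ⊔ G (x + y))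
    {K : Submodule (ZMod 2) V} (hK : MaxI G K) (T : Finset (Submodule (ZMod 2) V))
    (hT : ∀ I ∈ T, Idl G I ∧ ¬ I ≤ K) : ∃ c, c ∉ K ∧ ∀ I ∈ T, c ∈ I := by
  classical
  induction T using Finset.induction_on with
  | empty =>
    obtain ⟨c, -, hc⟩ := SetLike.exists_of_lt (lt_top_iff_ne_top.2 hK.ne)
    exact ⟨c, hc, fun I hI => absurd hI (Finset.notMem_empty I)⟩
  | insert J T hJ ih =>
    obtain ⟨c, c1, c2⟩ := ih fun I hI => hT I (Finset.mem_insert_of_mem hI)
    obtain ⟨h2, h3⟩ := hT J (Finset.mem_insert_self J T)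
    obtain ⟨a, ha, haK⟩ := SetLike.not_le_iff_exists.1 h3
    obtain ⟨c', d1, d2, d3'⟩ := prime h1 tr sum d3 hK c1 haK
    refine ⟨c', d3', fun I hI => ?_⟩
    rcases Finset.mem_insert.1 hI with rfl | hI
    · exact h2 a ha d2
    · exact (hT I (Finset.mem_insert_of_mem hI)).1 c (c2 I hI) d1

/-- **the lattice theorem** -/
theorem lattice [Finite V] (h1 : ∀ x, x ∈ G x) (tr : ∀ y z, y ∈ G z → G y ≤ G z)
    (sum : ∀ x y, G (x + y) ≤ G x ⊔ G y) (d3 : ∀ x y, x ∈ (G x ⊓ G y) ⊔ G (x + y)) :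
    ∃ u, G u = ⊤ := by
  classical
  have hfin : Finite (Submodule (ZMod 2) V) :=
    Finite.of_injective (fun I : Submodule (ZMod 2) V => (I : Set V)) SetLike.coe_injective
  have key : ∀ T : Finset (Submodule (ZMod 2) V), (∀ K ∈ T, MaxI G K) →
      ∃ u, ∀ K ∈ T, u ∉ K := by
    intro T
    induction T using Finset.induction_on with
    | empty => exact fun _ => ⟨0, fun K hK => absurd hK (Finset.notMem_empty K)⟩
    | insert K0 T hK0 ih =>
      intro hT
      obtain ⟨u, hu⟩ := ih fun K hK => hT K (Finset.mem_insert_of_mem hK)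
      by_cases h0 : u ∈ K0
      · have hm0 := hT K0 (Finset.mem_insert_self K0 T)
        obtain ⟨c, c1, c2⟩ := common h1 tr sum d3 hm0 T fun K hK => by
          have hm := hT K (Finset.mem_insert_of_mem hK)
          refine ⟨hm.idl, fun hle => ?_⟩
          rcases hle.lt_or_eq with h | h
          · exact hm0.ne (hm.max _ hm0.idl h)
          · exact hK0 (h ▸ hK)
        refine ⟨u + c, fun K hK h => ?_⟩
        rcases Finset.mem_insert.1 hK with rfl | hK
        · have := K.add_mem h h0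
          rw [add_right_comm, ZModModule.add_self, zero_add] at this
          exact c1 this
        · have := K.add_mem h (c2 K hK)
          rw [add_assoc, ZModModule.add_self, add_zero] at this
          exact hu K hK this
      · refine ⟨u, fun K hK => ?_⟩
        rcases Finset.mem_insert.1 hK with rfl | hK
        · exact h0
        · exact hu K hK
  have hft : Fintype (Submodule (ZMod 2) V) := Fintype.ofFinite _
  obtain ⟨u, hu⟩ := key (Finset.univ.filter fun K => MaxI G K) fun K hK =>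
    (Finset.mem_filter.1 hK).2
  refine ⟨u, ?_⟩
  by_contra hne
  -- a maximal proper ideal above `G u`
  have hs : {I : Submodule (ZMod 2) V | Idl G I ∧ I ≠ ⊤ ∧ G u ≤ I}.Finite := Set.toFinite _
  obtain ⟨K, hK⟩ := hs.exists_maximal ⟨G u, idl_G tr u, hne, le_rfl⟩
  have hmax : MaxI G K := by
    refine ⟨hK.prop.1, hK.prop.2.1, fun I hI hlt => ?_⟩
    by_contra hI'
    exact absurd (hK.le_of_ge ⟨hI, hI', hK.prop.2.2.trans hlt.le⟩ hlt.le) (not_le_of_gt hlt)
  exact hu K (Finset.mem_filter.2 ⟨Finset.mem_univ _, hmax⟩) (hK.prop.2.2 (h1 u))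

end lattice

section laws

variable {V Q : Type} [AddCommGroup V] [Module (ZMod 2) V]

/-- `G_x = {v : v V_x ⊆ Q_x}` -/
def GX (S : QData V Q) (x : V) : Submodule (ZMod 2) V where
  carrier := {v | ∀ w, C S x w → InQ S x v w}
  add_mem' := fun ha hb w hw => (ha w hw).add_left (hb w hw)
  zero_mem' := fun w _ => REG10.inq_zero_left w
  smul_mem' := fun c _ ha w hw => (ha w hw).smul_left c

theorem mem_GX {S : QData V Q} {x v : V} : v ∈ GX S x ↔ ∀ w, C S x w → InQ S x v w := Iff.rfl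

theorem self_mem_GX (S : QData V Q) (x : V) : x ∈ GX S x := fun w _ => REG10.inq_x w

theorem srg_of_GX {S : QData V Q} {u : V} (h : GX S u = ⊤) : SRg S u := by
  intro w v hw
  have : v ∈ GX S u := by rw [h]; exact Submodule.mem_top
  exact (this w hw).symm

/-- **the conjecture (`-1 = 1`) from a family `G_x ≤ {v : v V_x ⊆ Q_x}` with the three laws** -/
theorem etc_of_lattice
    (h : ∀ (V Q : Type) [AddCommGroup V] [Module (ZMod 2) V] [Finite V] (S : QData V Q),
      S.e = 0 → ∃ G : V → Submodule (ZMod 2) V, (∀ x, x ∈ G x) ∧ (∀ x, G x ≤ GX S x) ∧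
        (∀ y z, y ∈ G z → G y ≤ G z) ∧ (∀ x y, G (x + y) ≤ G x ⊔ G y) ∧
        ∀ x y, x ∈ (G x ⊓ G y) ⊔ G (x + y)) :
    ∀ S : QStruct, Finite S.G → S.neg = 1 → ElemType S := by
  refine etc_of_reg fun V Q _ _ _ S he => ?_
  obtain ⟨G, h1, h2, h3, h4, h5⟩ := h V Q S he
  obtain ⟨u, hu⟩ := lattice h1 h3 h4 h5
  exact ⟨u, srg_of_GX (top_le_iff.1 (hu ▸ h2 u))⟩

/-- the three laws for `G_x = {v : v V_x ⊆ Q_x}` -/
theorem etc_of_laws
    (h : ∀ (V Q : Type) [AddCommGroup V] [Module (ZMod 2) V] [Finite V] (S : QData V Q),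
      S.e = 0 → (∀ y z, y ∈ GX S z → GX S y ≤ GX S z) ∧
        (∀ x y, GX S (x + y) ≤ GX S x ⊔ GX S y) ∧
        ∀ x y, x ∈ (GX S x ⊓ GX S y) ⊔ GX S (x + y)) :
    ∀ S : QStruct, Finite S.G → S.neg = 1 → ElemType S :=
  etc_of_lattice fun V Q _ _ _ S he =>
    ⟨GX S, self_mem_GX S, fun _ => le_rfl, h V Q S he⟩

end laws

end Pool.Agent.ETGP
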