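import Pool.Agent.ETGP.Lat
import Pool.Agent.ETPR.PD

/-!
# The lattice theorem of helper84 in the form of helper52: TR + D3 suffice, and the extremal
# law (M), helper24
-/

set_option autoImplicit false
set_option linter.unusedSectionVars false
set_option linter.unusedSimpArgs false
set_option linter.unnecessarySeqFocus false

namespace Pool.Agent.ETGP

open QS
open Pool.Agent.Helper58.PLine (QData)
open Pool.Agent.ETCP
open Pool.Agent.ETPR
open Pool.Agent.ETAL
open Pool.Agent.REG10 (InQ SRg RegE)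

section lattice

variable {V : Type} [AddCommGroup V] [Module (ZMod 2) V] {G : V → Submodule (ZMod 2) V}

theorem exists_maxG [Finite V] (P : V → Prop) (h : ∃ x, P x) :
    ∃ y, P y ∧ ∀ z, P z → G y ≤ G z → G z ≤ G y := by
  have hs : {x : V | P x}.Finite := Set.toFinite _
  obtain ⟨y, hy, hm⟩ := Set.exists_max_image {x : V | P x} (fun x => Nat.card (G x)) hs h
  refine ⟨y, hy, fun z hz hle => ?_⟩
  have h1 := hm z hz
  have h2 : (G y : Set V) ⊆ G z := hle
  have h3 : (G z : Set V).Finite := Set.toFinite _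
  have h4 : (G y : Set V) = G z := Set.eq_of_subset_of_ncard_le h2 h1 h3
  exact fun v hv => by
    have : v ∈ (G y : Set V) := h4 ▸ hv
    exact this

theorem exists_minG [Finite V] (P : V → Prop) (h : ∃ x, P x) :
    ∃ y, P y ∧ ∀ z, P z → G z ≤ G y → G y ≤ G z := by
  have hs : {x : V | P x}.Finite := Set.toFinite _
  obtain ⟨y, hy, hm⟩ := Set.exists_min_image {x : V | P x} (fun x => Nat.card (G x)) hs h
  refine ⟨y, hy, fun z hz hle => ?_⟩
  have h1 := hm z hz
  have h2 : (G z : Set V) ⊆ G y := hle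
  have h3 : (G y : Set V).Finite := Set.toFinite _
  have h4 : (G z : Set V) = G y := Set.eq_of_subset_of_ncard_le h2 h1 h3
  exact fun v hv => by
    have : v ∈ (G z : Set V) := h4 ▸ hv
    exact this

/-- **the lattice theorem, form of helper52**: transitivity and D3 suffice -/
theorem lattice2 [Finite V] (h1 : ∀ x, x ∈ G x) (tr : ∀ y z, y ∈ G z → G y ≤ G z)
    (d3 : ∀ x y, x ∈ (G x ⊓ G y) ⊔ G (x + y)) : ∃ u, G u = ⊤ := by
  by_contra hn
  push Not at hn
  obtain ⟨y, -, hy⟩ := exists_maxG (G := G) (fun _ => True) ⟨0, trivial⟩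
  obtain ⟨b0, -, hb0⟩ := SetLike.exists_of_lt (lt_top_iff_ne_top.2 (hn y))
  obtain ⟨b, hb, hm⟩ := exists_minG (G := G) (fun b => b ∉ G y) ⟨b0, hb0⟩
  obtain ⟨c, hc, b', hb', e⟩ := Submodule.mem_sup.1 (d3 b y)
  have e' : b' = b + c := by rw [← e, add_comm c b', add_assoc, ZModModule.add_self, add_zero]
  have h2 : b' ∉ G y := by
    intro h
    apply hb
    rw [← e]
    exact (G y).add_mem hc.2 h
  have h3 : b' ∈ G b := by
    rw [e']
    exact (G b).add_mem (h1 b) hc.1
  have h4 : G b ≤ G b' := hm b' h2 (tr b' b h3)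
  have h5 : b ∈ G (b + y) := tr b' (b + y) hb' (h4 (h1 b))
  have h6 : y ∈ G (b + y) := by
    have := (G (b + y)).add_mem h5 (h1 (b + y))
    rwa [← add_assoc, ZModModule.add_self, zero_add] at this
  have h7 : b + y ∈ G y := hy (b + y) trivial (tr y (b + y) h6) (h1 (b + y))
  apply hb
  have := (G y).add_mem h7 (h1 y)
  rwa [add_assoc, ZModModule.add_self, add_zero] at this

end lattice

section laws

variable {V Q : Type} [AddCommGroup V] [Module (ZMod 2) V]

/-- **the conjecture (`-1 = 1`) from TR and D3 for `G_x = {v : v V_x ⊆ Q_x}`** -/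
theorem etc_of_tr_d3
    (h : ∀ (V Q : Type) [AddCommGroup V] [Module (ZMod 2) V] [Finite V] (S : QData V Q),
      S.e = 0 → (∀ y z, y ∈ GX S z → GX S y ≤ GX S z) ∧
        ∀ x y, x ∈ (GX S x ⊓ GX S y) ⊔ GX S (x + y)) :
    ∀ S : QStruct, Finite S.G → S.neg = 1 → ElemType S := by
  refine etc_of_reg fun V Q _ _ _ S he => ?_
  obtain ⟨h2, h3⟩ := h V Q S he
  obtain ⟨u, hu⟩ := lattice2 (self_mem_GX S) h2 h3
  exact ⟨u, srg_of_GX hu⟩

/-- the same for a family of subspaces `G_x ≤ {v : v V_x ⊆ Q_x}` -/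
theorem etc_of_lattice2
    (h : ∀ (V Q : Type) [AddCommGroup V] [Module (ZMod 2) V] [Finite V] (S : QData V Q),
      S.e = 0 → ∃ G : V → Submodule (ZMod 2) V, (∀ x, x ∈ G x) ∧ (∀ x, G x ≤ GX S x) ∧
        (∀ y z, y ∈ G z → G y ≤ G z) ∧ ∀ x y, x ∈ (G x ⊓ G y) ⊔ G (x + y)) :
    ∀ S : QStruct, Finite S.G → S.neg = 1 → ElemType S := by
  refine etc_of_reg fun V Q _ _ _ S he => ?_
  obtain ⟨G, h1, h2, h3, h5⟩ := h V Q S he
  obtain ⟨u, hu⟩ := lattice2 h1 h3 h5
  exact ⟨u, srg_of_GX (top_le_iff.1 (hu ▸ h2 u))⟩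

variable {S : QData V Q}

/-- `y ∈ G_z` is `V_z ≤ V_y + V_{y+z}` -/
theorem GX_iff {y z : V} : y ∈ GX S z ↔ S.ann z ≤ S.ann y ⊔ S.ann (y + z) := by
  constructor
  · intro h v hv
    obtain ⟨s, h1, h2⟩ := (h v hv).link_x
    -- `q y s = q y v = q z s`
    have e1 : C S y (v + s) := q_eq_iff.1 h1.symm
    have e2 : C S (y + z) s := q_eq'_iff.1 (h1.trans h2.symm)
    refine Submodule.mem_sup.2 ⟨v + s, e1, s, e2, ?_⟩
    rw [add_assoc, ZModModule.add_self, add_zero]
  · intro h v hv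
    obtain ⟨a, ha, s, hs, e⟩ := Submodule.mem_sup.1 (h hv)
    have e1 : S.q y v = S.q y s := q_eq (C.of_eq ha rfl (by
      rw [← e, add_assoc, ZModModule.add_self, add_zero]))
    have e2 : S.q y s = S.q z s := q_eq' hs
    exact ⟨s, e1.trans e2⟩

theorem card_le_of_GX [Finite V] {y z : V} (h : y ∈ GX S z) :
    Nat.card (S.ann z) ≤ Nat.card (S.ann y) ∧
      (Nat.card (S.ann y) ≤ Nat.card (S.ann z) → z ∈ GX S y) := by
  have h0 := GX_iff.1 h
  have i1 : S.ann y ⊓ S.ann (y + z) = S.ann y ⊓ S.ann z := by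
    apply le_antisymm
    · rintro v ⟨h1, h2⟩
      refine ⟨h1, ?_⟩
      have := C.add' (S := S) h1 h2
      exact C.of_eq this (by rw [← add_assoc, ZModModule.add_self, zero_add]) rfl
    · rintro v ⟨h1, h2⟩
      exact ⟨h1, C.add' h1 h2⟩
  have i2 : S.ann z ⊓ S.ann (y + z) = S.ann y ⊓ S.ann z := by
    apply le_antisymm
    · rintro v ⟨h1, h2⟩
      refine ⟨?_, h1⟩
      have := C.add' (S := S) h2 h1
      exact C.of_eq this (by rw [add_assoc, ZModModule.add_self, add_zero]) rfl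
    · rintro v ⟨h1, h2⟩
      exact ⟨h2, C.add' h1 h2⟩
  have c1 := card_sup_inf (S.ann y) (S.ann (y + z))
  have c2 := card_sup_inf (S.ann z) (S.ann (y + z))
  rw [i1] at c1
  rw [i2] at c2
  have hle : S.ann z ⊔ S.ann (y + z) ≤ S.ann y ⊔ S.ann (y + z) := sup_le h0 le_sup_right
  have hp : 0 < Nat.card (S.ann (y + z)) := Nat.card_pos
  have hJ : 0 < Nat.card (S.ann y ⊓ S.ann z : Submodule (ZMod 2) V) := Nat.card_pos
  have hc : Nat.card (S.ann z ⊔ S.ann (y + z) : Submodule (ZMod 2) V) ≤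
      Nat.card (S.ann y ⊔ S.ann (y + z) : Submodule (ZMod 2) V) :=
    Nat.card_mono (Set.toFinite _) hle
  constructor
  · have h1 : Nat.card (S.ann z) * Nat.card (S.ann (y + z)) ≤
        Nat.card (S.ann y) * Nat.card (S.ann (y + z)) := by
      rw [c1, c2]
      exact Nat.mul_le_mul_right _ hc
    exact Nat.le_of_mul_le_mul_right h1 hp
  · intro hyz
    have h1 : Nat.card (S.ann y) * Nat.card (S.ann (y + z)) ≤
        Nat.card (S.ann z) * Nat.card (S.ann (y + z)) := Nat.mul_le_mul_right _ hyz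
    rw [c1, c2] at h1
    have h2 := Nat.le_of_mul_le_mul_right h1 hJ
    have h3 : (S.ann z ⊔ S.ann (y + z) : Submodule (ZMod 2) V) = S.ann y ⊔ S.ann (y + z) := by
      apply SetLike.coe_injective
      exact Set.eq_of_subset_of_ncard_le hle h2 (Set.toFinite _)
    rw [GX_iff, add_comm z y, h3]
    exact le_sup_left

/-- **law (M) of helper52 at the elements of maximal rank makes them regular**: if `b` is of
minimal rank outside `G_y` then `Q_b ∩ Q_y ⊆ Q_{b+y}` -/
theorem reg_of_M [Finite V] {y : V} (hy : ∀ x, Nat.card (S.ann y) ≤ Nat.card (S.ann x))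
    (hM : ∀ b, b ∉ GX S y → (∀ x, x ∉ GX S y → Nat.card (S.ann x) ≤ Nat.card (S.ann b)) →
      b ∈ GX S (b + y)) : SRg S y := by
  apply srg_of_GX
  by_contra hn
  obtain ⟨b0, -, hb0⟩ := SetLike.exists_of_lt (lt_top_iff_ne_top.2 hn)
  have hs : {x : V | x ∉ GX S y}.Finite := Set.toFinite _
  obtain ⟨b, hb, hm⟩ := Set.exists_max_image {x : V | x ∉ GX S y}
    (fun x => Nat.card (S.ann x)) hs ⟨b0, hb0⟩
  have h5 := hM b hb hm
  have h6 : y ∈ GX S (b + y) := by
    have := (GX S (b + y)).add_mem h5 (self_mem_GX S (b + y))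
    rwa [← add_assoc, ZModModule.add_self, zero_add] at this
  have h7 := (card_le_of_GX h6).2 (hy _)
  apply hb
  have := (GX S y).add_mem h7 (self_mem_GX S y)
  rwa [add_assoc, ZModModule.add_self, add_zero] at this

/-- **the conjecture (`-1 = 1`) from law (M)** -/
theorem etc_of_M
    (h : ∀ (V Q : Type) [AddCommGroup V] [Module (ZMod 2) V] [Finite V] (S : QData V Q),
      S.e = 0 → ∃ y, (∀ x, Nat.card (S.ann y) ≤ Nat.card (S.ann x)) ∧
        ∀ b, b ∉ GX S y → (∀ x, x ∉ GX S y → Nat.card (S.ann x) ≤ Nat.card (S.ann b)) →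
          b ∈ GX S (b + y)) :
    ∀ S : QStruct, Finite S.G → S.neg = 1 → ElemType S := by
  refine etc_of_reg fun V Q _ _ _ S he => ?_
  obtain ⟨y, h1, h2⟩ := h V Q S he
  exact ⟨y, reg_of_M h1 h2⟩

end laws

end Pool.Agent.ETGP
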