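import Pool.Agent.ETGP.Spade

/-!
# LAW NC (helper84): noncrossing elements => maximal rank elements are regular, helper24
-/

set_option autoImplicit false
set_option linter.unusedSectionVars false
set_option linter.unusedSimpArgs false
set_option linter.unnecessarySeqFocus false

namespace Pool.Agent.ETGP

open QS
open Pool.Agent.Helper58.PLine (QData)
open Pool.Agent.ETCP
open Pool.Agent.ETPR
open Pool.Agent.ETAL
open Pool.Agent.REG10 (InQ SRg RegE)

variable {V Q : Type} [AddCommGroup V] [Module (ZMod 2) V] {S : QData V Q}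

/-- a proper subspace has at most half of the elements -/
theorem half [Finite V] {K D : Submodule (ZMod 2) V} (hle : K ≤ D) {w : V} (hw : w ∈ D)
    (hwK : w ∉ K) : 2 * Nat.card K ≤ Nat.card D := by
  have hd : Nat.card K ∣ Nat.card D :=
    AddSubgroup.card_dvd_of_le (H := K.toAddSubgroup) (K := D.toAddSubgroup) hle
  obtain ⟨k, hk⟩ := hd
  have hpos : 0 < Nat.card K := Nat.card_pos
  have hk1 : k ≠ 0 := by
    rintro rfl
    rw [mul_zero] at hk
    exact absurd hk (Nat.card_pos (α := D)).ne'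
  have hk2 : k ≠ 1 := by
    rintro rfl
    rw [mul_one] at hk
    have := eq_of_card_le hle hk.le
    exact hwK (this ▸ hw)
  have : 2 ≤ k := by omega
  rw [hk, mul_comm]
  exact Nat.mul_le_mul_left _ this

/-- `V_(z+y) ∩ V_z = V_y ∩ V_z` -/
theorem inf_eq (y z : V) : (S.ann (z + y) ⊓ S.ann z : Submodule (ZMod 2) V) =
    S.ann y ⊓ S.ann z := by
  ext v
  simp only [Submodule.mem_inf]
  constructor
  · rintro ⟨h1, h2⟩
    refine ⟨?_, h2⟩
    exact (C.add' (S := S) h1 h2).of_eq (by rw [add_right_comm, ZModModule.add_self, zero_add]) rfl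
  · rintro ⟨h1, h2⟩
    exact ⟨C.add' (S := S) h2 h1, h2⟩

variable (S) in
/-- `z` is noncrossing (with respect to `y`): `Q_z ∩ Q_y ≤ Q_(z+y)` -/
def NonCr (y z : V) : Prop := ∀ u v, S.q z u = S.q y v → ∃ t, S.q z u = S.q (z + y) t

/-- noncrossing elements: `|V_(z+y)| ≤ |V_y ∩ M_z|` -/
theorem nonCr_le [Finite V] {y z : V} (h : NonCr S y z) :
    Nat.card (S.ann (z + y)) ≤ Nat.card (S.ann y ⊓ MZ S y z : Submodule (ZMod 2) V) := by
  have h0 : ∀ g ∈ S.ann (z + y), ∃ e ∈ (S.ann y ⊓ MZ S y z : Submodule (ZMod 2) V),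
      S.q z g = S.q z e := by
    intro g hg
    have h1 : S.q z g = S.q y g := q_eq'_iff.2 hg
    obtain ⟨t, h2⟩ := h g g h1
    obtain ⟨e, h3, h4⟩ := S.link _ _ _ _ h2
    have h5 : C S y e := by
      have : S.q z e = S.q (z + y) e := by rw [← h3, ← h4, h2]
      exact (q_eq'_iff.1 this).of_eq (by rw [← add_assoc, ZModModule.add_self, zero_add]) rfl
    exact ⟨e, ⟨h5, mem_MZ.2 ⟨g, by rw [← h3, h1]⟩⟩, h3⟩
  have h1 := count_eq (S := S) h0
  have e1 : (S.ann y ⊓ MZ S y z ⊓ S.ann z : Submodule (ZMod 2) V) = S.ann y ⊓ S.ann z := by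
    ext v
    simp only [Submodule.mem_inf]
    constructor
    · rintro ⟨⟨h1, -⟩, h3⟩; exact ⟨h1, h3⟩
    · rintro ⟨h1, h3⟩
      exact ⟨⟨h1, Submodule.mem_sup_left h3⟩, h3⟩
  rw [e1, inf_eq, mul_comm] at h1
  have h2 := Nat.le_of_mul_le_mul_left h1 Nat.card_pos
  exact h2.trans (Nat.card_mono (Set.toFinite _) fun e he => he.1)

/-- one noncrossing `z` with `z w` not in `Q_y`, `w ∈ V_y`: `2 |V_(z+y)| ≤ |V_y|` -/
theorem nonCr_half [Finite V] {y z w : V} (h : NonCr S y z) (hw : w ∈ S.ann y)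
    (hzw : ¬ InQ S y z w) : 2 * Nat.card (S.ann (z + y)) ≤ Nat.card (S.ann y) := by
  refine (Nat.mul_le_mul_left 2 (nonCr_le h)).trans (half inf_le_left hw ?_)
  rintro ⟨-, h1⟩
  exact hzw (mem_MZ.1 h1)

/-- **LAW NC implies the conjecture** -/
theorem etc_of_nc
    (h : ∀ (V Q : Type) [AddCommGroup V] [Module (ZMod 2) V] [Finite V] (S : QData V Q),
      S.e = 0 → ∀ y, (∀ x, Nat.card (S.ann y) ≤ Nat.card (S.ann x)) →
      ∀ w ∈ S.ann y, ∀ z, ¬ InQ S y z w → ∃ z', S.q w z' = S.q w z ∧ NonCr S y z') :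
    ∀ S : QStruct, Finite S.G → S.neg = 1 → ElemType S := by
  refine etc_of_reg fun V Q _ _ _ S he => ?_
  obtain ⟨y, hy⟩ := exists_max_rank S
  refine ⟨y, fun w z hw => ?_⟩
  by_contra hzw
  have hzw' : ¬ InQ S y z w := fun h' => hzw h'.symm
  obtain ⟨z', h1, h2⟩ := h V Q S he y hy w hw z hzw'
  have h3 : ¬ InQ S y z' w := fun h' => hzw' (h'.congr (by rw [S.symm z' w, h1, S.symm]))
  have h4 := nonCr_half h2 hw h3
  have h5 := hy (z' + y)
  have h6 : 0 < Nat.card (S.ann (z' + y)) := Nat.card_pos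
  omega

end Pool.Agent.ETGP
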