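import Pool.Agent.ETGP.Spade

/-!
# An element `y` with `|V_y| ≤ 4` gives a regular element (helper73, helper52), typed by helper82
-/

set_option autoImplicit false
set_option linter.unusedSectionVars false
set_option linter.unusedSimpArgs false
set_option linter.unnecessarySeqFocus false

namespace Pool.Agent.ETGP

open QS
open Pool.Agent.Helper58.PLine (QData)
open Pool.Agent.ETCP
open Pool.Agent.ETPR
open Pool.Agent.ETAL
open Pool.Agent.REG10 (InQ SRg RegE)

variable {V Q : Type} [AddCommGroup V] [Module (ZMod 2) V] {S : QData V Q}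

theorem cancel4 {x a b : V} (h : C S x (a + b)) (h' : C S x a) : C S x b :=
  (h.add h').of_eq rfl (by
    exact (eo (by abel_nf <;> simp only [ch2, ch3, ch4, ch5, ch6, add_zero, zero_add])))

variable (S) in
/-- `V_y = {0, y, w, w'}` -/
structure Four (y w w' : V) : Prop where
  he : S.e = 0
  sum : w + w' = y
  cw : C S y w
  four : ∀ v, C S y v → v = 0 ∨ v = y ∨ v = w ∨ v = w'

namespace Four

variable {y w w' : V}

theorem swap (F : Four S y w w') : Four S y w' w where
  he := F.he
  sum := by rw [add_comm]; exact F.sum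
  cw := ((C.self F.he y).add F.cw).of_eq rfl (by
    rw [← F.sum]
    exact (eo (by abel_nf <;> simp only [ch2, ch3, ch4, ch5, ch6, add_zero, zero_add])))
  four := fun v hv => by
    rcases F.four v hv with h | h | h | h
    · exact Or.inl h
    · exact Or.inr (Or.inl h)
    · exact Or.inr (Or.inr (Or.inr h))
    · exact Or.inr (Or.inr (Or.inl h))

theorem cy' (F : Four S y w w') : C S y w' := F.swap.cw

theorem cww (F : Four S y w w') : C S w w' :=
  ((C.self F.he w).add F.cw.symm).of_eq rfl (by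
    rw [← F.sum]
    exact (eo (by abel_nf <;> simp only [ch2, ch3, ch4, ch5, ch6, add_zero, zero_add])))

/-- everything in `V_y` commutes with `w` -/
theorem comm (F : Four S y w w') {u : V} (hu : C S y u) : C S w u := by
  rcases F.four u hu with rfl | rfl | rfl | rfl
  · exact C.zero w
  · exact F.cw.symm
  · exact C.self F.he _
  · exact F.cww

/-- `Q_w ∩ Q_w' = 0` -/
theorem disj (F : Four S y w w') {s t : V} (h : S.q w s = S.q w' t) : C S w s ∧ C S w' t := by
  obtain ⟨r, h1, h2, h3⟩ := link h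
  have h4 : C S y r := h3.of_eq F.sum rfl
  exact ⟨cancel4 (h1.of_eq rfl (add_comm _ _)) (F.comm h4),
    cancel4 (h2.of_eq rfl (add_comm _ _)) (F.swap.comm h4)⟩

/-- `a ∉ V_w + V_w'` -/
def Out (S : QData V Q) (w w' a : V) : Prop := ∀ s t, C S w s → C S w' t → a ≠ s + t

theorem Out.swap {w w' a : V} (h : Out S w w' a) : Out S w' w a :=
  fun s t hs ht e => h t s ht hs (by rw [e, add_comm])

theorem Out.not {w w' a : V} (h : Out S w w' a) : ¬ C S w a := fun h1 =>
  h a 0 h1 (C.zero _) (by rw [add_zero])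

theorem Out.not2 {w w' a s : V} (h : Out S w w' a) (h1 : C S w (s + a)) (h2 : C S w' s) : False :=
  h (s + a) s h1 h2
    (eo (by abel_nf <;> simp only [ch2, ch3, ch4, ch5, ch6, add_zero, zero_add]))

/-- `w a ∉ Q_y` -/
theorem notQ (F : Four S y w w') {a v : V} (h : Out S w w' a) (e : S.q y v = S.q w a) : False := by
  obtain ⟨t, h1, h2, h3⟩ := link e
  have h4 : C S w' t := h3.of_eq (by
    rw [← F.sum]
    exact (eo (by abel_nf <;> simp only [ch2, ch3, ch4, ch5, ch6, add_zero, zero_add]))) rfl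
  exact h.not2 (s := t) (h2.of_eq rfl (add_comm _ _)) h4

/-- `V_a ∩ V_y = 0` -/
theorem zero (F : Four S y w w') {a u : V} (h : Out S w w' a) (hu : C S y u) (ha : C S a u) :
    u = 0 := by
  rcases F.four u hu with rfl | rfl | rfl | rfl
  · rfl
  · exact absurd (F.comm ha.symm) h.not
  · exact absurd ha.symm h.not
  · exact absurd ha.symm h.swap.not

/-- `V_(a+y) ∩ V_y = 0` -/
theorem zero' (F : Four S y w w') {a u : V} (h : Out S w w' a) (hu : C S y u)
    (ha : C S (a + y) u) : u = 0 :=
  F.zero h hu ((ha.add' hu).of_eq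
    (eo (by abel_nf <;> simp only [ch2, ch3, ch4, ch5, ch6, add_zero, zero_add])) rfl)

/-- the main case -/
theorem caseW (F : Four S y w w') {a z z' s : V} (hz : C S a z)
    (hz' : C S (a + y) z') (hs : C S y s) (h : C S (a + w) (z + z' + s)) :
    (C S w z ∨ C S w (z + a)) ∧ (C S w' z' ∨ C S w' (z' + (a + y))) := by
  have key : ∀ Z Z' : V, C S a Z → C S (a + y) Z' → C S (a + w) (Z + Z') → C S w Z ∧ C S w' Z' := by
    intro Z Z' hZ hZ' hc
    apply F.disj
    have e1 : S.q (a + w) Z = S.q w Z := by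
      apply q_eq'
      exact hZ.of_eq (eo (by abel_nf <;> simp only [ch2, ch3, ch4, ch5, ch6, add_zero, zero_add])) rfl
    have e2 : S.q (a + w) Z' = S.q w' Z' := by
      apply q_eq'
      exact hZ'.of_eq (by
        rw [← F.sum]
        exact (eo (by abel_nf <;> simp only [ch2, ch3, ch4, ch5, ch6, add_zero, zero_add]))) rfl
    rw [← e1, ← e2]
    exact q_eq hc
  have ha : C S a (z + a) := hz.add (C.self F.he a)
  have hb : C S (a + y) (z' + (a + y)) := hz'.add (C.self F.he _)
  have hcc : C S (a + w) (a + w) := C.self F.he _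
  rcases F.four s hs with rfl | rfl | rfl | rfl
  · obtain ⟨h1, h2⟩ := key z z' hz hz' (h.of_eq rfl (add_zero _))
    exact ⟨Or.inl h1, Or.inl h2⟩
  · obtain ⟨h1, h2⟩ := key _ _ ha hb (h.of_eq rfl
      (eo (by abel_nf <;> simp only [ch2, ch3, ch4, ch5, ch6, add_zero, zero_add])))
    exact ⟨Or.inr h1, Or.inr h2⟩
  · obtain ⟨h1, h2⟩ := key _ z' ha hz' ((h.add hcc).of_eq rfl
      (eo (by abel_nf <;> simp only [ch2, ch3, ch4, ch5, ch6, add_zero, zero_add])))
    exact ⟨Or.inr h1, Or.inl h2⟩
  · obtain ⟨h1, h2⟩ := key z _ hz hb ((h.add hcc).of_eq rfl (by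
      rw [← F.sum]
      exact (eo (by abel_nf <;> simp only [ch2, ch3, ch4, ch5, ch6, add_zero, zero_add]))))
    exact ⟨Or.inl h1, Or.inr h2⟩

/-- `V_a × V_(a+y)` is covered -/
theorem cover (F : Four S y w w') {a z z' : V} (h : Out S w w' a) (hz : C S a z)
    (hz' : C S (a + y) z') : (z = 0 ∨ z = a) ∨ (z' = 0 ∨ z' = a + y) ∨
      ((C S w z ∨ C S w (z + a)) ∧ (C S w' z' ∨ C S w' (z' + (a + y)))) ∨
      ((C S w' z ∨ C S w' (z + a)) ∧ (C S w z' ∨ C S w (z' + (a + y)))) := by
  have hg : z + z' ∈ MZ S y a := Submodule.add_mem_sup (show z ∈ S.ann a from hz)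
    (show z' ∈ S.ann (a + y) from hz')
  obtain ⟨r, hr, s, hs, e⟩ := lz F.he hg
  have hr : C S y r := hr
  have hs : C S y s := hs
  rcases F.four r hr with rfl | rfl | rfl | rfl
  · -- `r = 0`: `y z' = a s`
    right; left
    have e1 : S.q a (z + z') = S.q a z' := by
      apply q_eq
      exact hz.of_eq rfl (eo (by abel_nf <;> simp only [ch2, ch3, ch4, ch5, ch6, add_zero, zero_add]))
    have e2 : S.q a z' = S.q y z' := q_eq' hz'
    rw [add_zero, e1, e2] at e
    rcases F.four s hs with rfl | rfl | rfl | rfl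
    · left
      have h1 : C S y z' := by
        unfold C
        rw [e, S.q_zero]
      exact F.zero' h h1 hz'
    · right
      have h1 : C S s (z' + a) := q_eq_iff.1 (e.trans (S.symm _ _))
      have h2 : C S s (z' + a + s) := h1.add (C.self F.he s)
      have h3 : C S (a + s) (z' + a + s) := by
        have := hz'.add (C.self F.he (a + s))
        exact this.of_eq rfl (add_assoc _ _ _).symm
      have h4 := F.zero' h h2 h3
      have h5 : z' + (a + s) = 0 := by rw [← add_assoc]; exact h4
      exact eo h5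
    · exact absurd (e.trans (S.symm _ _)) fun e' => F.notQ h e'
    · exact absurd (e.trans (S.symm _ _)) fun e' => F.swap.notQ h.swap e'
  · -- `r = y`: `y z = a s`
    left
    have e1 : S.q (a + r) (z + z') = S.q (a + r) z := by
      apply q_eq
      exact hz'.of_eq rfl (eo (by abel_nf <;> simp only [ch2, ch3, ch4, ch5, ch6, add_zero, zero_add]))
    have e2 : S.q (a + r) z = S.q r z := by
      apply q_eq'
      exact hz.of_eq (eo (by abel_nf <;> simp only [ch2, ch3, ch4, ch5, ch6, add_zero, zero_add])) rfl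
    rw [e1, e2] at e
    rcases F.four s hs with rfl | hsr | rfl | rfl
    · left
      have h1 : C S r z := by
        unfold C
        rw [e, S.q_zero]
      exact F.zero h h1 hz
    · right
      subst hsr
      have h1 : C S s (z + a) := q_eq_iff.1 (e.trans (S.symm _ _))
      have h4 := F.zero h h1 (hz.add (C.self F.he a))
      exact eo h4
    · exact absurd (e.trans (S.symm _ _)) fun e' => F.notQ h e'
    · exact absurd (e.trans (S.symm _ _)) fun e' => F.swap.notQ h.swap e'
  · -- `r = w`
    right; right; left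
    have e1 : S.q a s = S.q (a + r) s := by
      apply q_eq'
      exact (F.comm hs).of_eq (eo (by abel_nf <;> simp only [ch2, ch3, ch4, ch5, ch6, add_zero, zero_add])) rfl
    rw [e1] at e
    exact F.caseW hz hz' hs (q_eq_iff.1 e)
  · right; right; right
    have e1 : S.q a s = S.q (a + r) s := by
      apply q_eq'
      exact (F.swap.comm hs).of_eq (eo (by abel_nf <;> simp only [ch2, ch3, ch4, ch5, ch6, add_zero, zero_add])) rfl
    rw [e1] at e
    exact F.swap.caseW hz hz' hs (q_eq_iff.1 e)

/-- the two halves of `V_a` meet in `{0, a}` -/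
theorem halves (F : Four S y w w') {a z : V} (h : Out S w w' a) (hz : C S a z) (h0 : z ≠ 0)
    (h1 : z ≠ a) (p1 : C S w z ∨ C S w (z + a)) (p2 : C S w' z ∨ C S w' (z + a)) : False := by
  have hza : C S a (z + a) := hz.add (C.self F.he a)
  rcases p1 with p1 | p1 <;> rcases p2 with p2 | p2
  · exact h0 (F.zero h ((p1.add' p2).of_eq F.sum rfl) hz)
  · exact h.swap.not2 p2 p1
  · exact h.not2 p1 p2
  · exact h1 (eo (F.zero h ((p1.add' p2).of_eq F.sum rfl) hza))

theorem out_y (F : Four S y w w') {a : V} (h : Out S w w' a) : Out S w w' (a + y) :=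
  fun s t hs ht e => h (s + y) t (hs.add F.cw.symm) ht (by
    have h1 : a = (a + y) + y :=
      eo (by abel_nf <;> simp only [ch2, ch3, ch4, ch5, ch6, add_zero, zero_add])
    rw [h1, e]
    exact eo (by abel_nf <;> simp only [ch2, ch3, ch4, ch5, ch6, add_zero, zero_add]))

/-- one of the two patterns holds for the pair `a, a + y` -/
theorem pattern (F : Four S y w w') (hr : ∀ x : V, x ≠ 0 → ∃ v, C S x v ∧ v ≠ 0 ∧ v ≠ x) {a : V}
    (h : Out S w w' a) :
    ((∀ z, C S a z → C S w z ∨ C S w (z + a)) ∧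
      (∀ z, C S (a + y) z → C S w' z ∨ C S w' (z + (a + y)))) ∨
    ((∀ z, C S a z → C S w' z ∨ C S w' (z + a)) ∧
      (∀ z, C S (a + y) z → C S w z ∨ C S w (z + (a + y)))) := by
  have a0 : a ≠ 0 := fun e => h 0 0 (C.zero _) (C.zero _) (by rw [e, add_zero])
  have hb := F.out_y h
  have b0 : a + y ≠ 0 := fun e => hb 0 0 (C.zero _) (C.zero _) (by rw [e, add_zero])
  obtain ⟨z, hz, z0, za⟩ := hr a a0
  obtain ⟨z', hz', z0', zb'⟩ := hr (a + y) b0
  -- trivial elements
  have tr : ∀ (u c x : V), x = 0 ∨ x = c → C S u x ∨ C S u (x + c) := by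
    rintro u c x (rfl | rfl)
    · exact Or.inl (C.zero u)
    · exact Or.inr ((C.zero u).of_eq rfl (ZModModule.add_self _).symm)
  have main : ∀ (v v' : V), Four S y v v' → Out S v v' a →
      (C S v z ∨ C S v (z + a)) → (C S v' z' ∨ C S v' (z' + (a + y))) →
      ((∀ z, C S a z → C S v z ∨ C S v (z + a)) ∧
        (∀ z, C S (a + y) z → C S v' z ∨ C S v' (z + (a + y)))) := by
    intro v v' G g p1 p2
    constructor
    · intro x hx
      rcases G.cover g hx hz' with h1 | h1 | ⟨h1, -⟩ | ⟨-, h2⟩
      · exact tr _ _ _ h1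
      · rcases h1 with h1 | h1
        · exact absurd h1 z0'
        · exact absurd h1 zb'
      · exact h1
      · exact absurd (G.halves (G.out_y g) hz' z0' zb' h2 p2) not_false
    · intro x hx
      rcases G.cover g hz hx with h1 | h1 | ⟨-, h2⟩ | ⟨h1, -⟩
      · rcases h1 with h1 | h1
        · exact absurd h1 z0
        · exact absurd h1 za
      · exact tr _ _ _ h1
      · exact h2
      · exact absurd (G.halves g hz z0 za p1 h1) not_false
  rcases F.cover h hz hz' with h1 | h1 | ⟨h1, h2⟩ | ⟨h1, h2⟩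
  · rcases h1 with h1 | h1
    · exact absurd h1 z0
    · exact absurd h1 za
  · rcases h1 with h1 | h1
    · exact absurd h1 z0'
    · exact absurd h1 zb'
  · exact Or.inl (main w w' F h h1 h2)
  · exact Or.inr (main w' w F.swap h.swap h1 h2)

/-- contradiction from the first pattern -/
theorem fin (F : Four S y w w') (hr : ∀ x : V, x ≠ 0 → ∃ v, C S x v ∧ v ≠ 0 ∧ v ≠ x) {a : V}
    (h : Out S w w' a) (p1 : ∀ z, C S a z → C S w z ∨ C S w (z + a))
    (p2 : ∀ z, C S (a + y) z → C S w' z ∨ C S w' (z + (a + y))) : False := by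
  have a0 : a ≠ 0 := fun e => h 0 0 (C.zero _) (C.zero _) (by rw [e, add_zero])
  have hb := F.out_y h
  have b0 : a + y ≠ 0 := fun e => hb 0 0 (C.zero _) (C.zero _) (by rw [e, add_zero])
  obtain ⟨Z, hZ, hZ0, hwZ⟩ : ∃ Z, C S a Z ∧ Z ≠ 0 ∧ C S w Z := by
    obtain ⟨z, hz, z0, za⟩ := hr a a0
    rcases p1 z hz with h1 | h1
    · exact ⟨z, hz, z0, h1⟩
    · exact ⟨z + a, hz.add (C.self F.he a), fun e => za (eo e), h1⟩
  obtain ⟨Z', hZ', hZ0', hwZ'⟩ : ∃ Z, C S (a + y) Z ∧ Z ≠ 0 ∧ C S w' Z := by
    obtain ⟨z, hz, z0, za⟩ := hr (a + y) b0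
    rcases p2 z hz with h1 | h1
    · exact ⟨z, hz, z0, h1⟩
    · exact ⟨z + (a + y), hz.add (C.self F.he _), fun e => za (eo e), h1⟩
  have hc : Out S w w' (a + w) := fun s t hs ht e => h (s + w) t (hs.add (C.self F.he w)) ht (by
    have h1 : a = (a + w) + w :=
      eo (by abel_nf <;> simp only [ch2, ch3, ch4, ch5, ch6, add_zero, zero_add])
    rw [h1, e]
    exact eo (by abel_nf <;> simp only [ch2, ch3, ch4, ch5, ch6, add_zero, zero_add]))
  have cZ : C S (a + w) Z := hZ.add' hwZ
  have cZ' : C S (a + w) Z' := (hZ'.add' hwZ').of_eq (by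
    rw [← F.sum]
    exact (eo (by abel_nf <;> simp only [ch2, ch3, ch4, ch5, ch6, add_zero, zero_add]))) rfl
  rcases F.pattern hr hc with ⟨q1, -⟩ | ⟨q1, -⟩
  · rcases q1 Z' cZ' with h1 | h1
    · exact hZ0' (F.zero' h ((h1.add' hwZ').of_eq F.sum rfl) hZ')
    · exact hc.not2 h1 hwZ'
  · rcases q1 Z cZ with h1 | h1
    · exact hZ0 (F.zero h ((hwZ.add' h1).of_eq F.sum rfl) hZ)
    · exact hc.swap.not2 h1 hwZ

/-- **`|V_y| = 4` and no rigid element: `y` is regular** -/
theorem reg (F : Four S y w w') (hr : ∀ x : V, x ≠ 0 → ∃ v, C S x v ∧ v ≠ 0 ∧ v ≠ x) :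
    SRg S y := by
  have all : ∀ a, ∃ s t, C S w s ∧ C S w' t ∧ a = s + t := by
    intro a
    by_contra hn
    have h : Out S w w' a := fun s t hs ht e => hn ⟨s, t, hs, ht, e⟩
    rcases F.pattern hr h with ⟨p1, p2⟩ | ⟨p1, p2⟩
    · exact F.fin hr h p1 p2
    · exact F.swap.fin hr h.swap p1 p2
  intro u a hu
  obtain ⟨s, t, hs, ht, rfl⟩ := all a
  rcases F.four u hu with rfl | rfl | rfl | rfl
  · exact ⟨0, by rw [S.q_zero]; exact C.zero' _⟩
  · exact ⟨s + t, rfl⟩
  · refine ⟨t, ?_⟩
    have e1 : S.q u (s + t) = S.q u t := by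
      apply q_eq
      exact hs.of_eq rfl (eo (by abel_nf <;> simp only [ch2, ch3, ch4, ch5, ch6, add_zero, zero_add]))
    rw [e1]
    apply q_eq'
    exact ht.of_eq (by
      rw [← F.sum]
      exact (eo (by abel_nf <;> simp only [ch2, ch3, ch4, ch5, ch6, add_zero, zero_add]))) rfl
  · refine ⟨s, ?_⟩
    have e1 : S.q u (s + t) = S.q u s := by
      apply q_eq
      exact ht.of_eq rfl (eo (by abel_nf <;> simp only [ch2, ch3, ch4, ch5, ch6, add_zero, zero_add]))
    rw [e1]
    apply q_eq'
    exact hs.of_eq (by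
      rw [← F.sum]
      exact (eo (by abel_nf <;> simp only [ch2, ch3, ch4, ch5, ch6, add_zero, zero_add]))) rfl

end Four

/-- a rigid element is regular -/
theorem rigid_reg {x : V} (h : ∀ v, C S x v → v = 0 ∨ v = x) : SRg S x := by
  intro u a hu
  rcases h u hu with rfl | rfl
  · exact ⟨0, by rw [S.q_zero]; exact C.zero' _⟩
  · exact ⟨a, rfl⟩

/-- **some `V_y`, `y ≠ 0`, has at most four elements: there is a regular element** -/
theorem reg_of_card4 [Finite V] (he : S.e = 0) {y : V} (hy : y ≠ 0)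
    (h4 : Nat.card (S.ann y) ≤ 4) : ∃ x, SRg S x := by
  classical
  by_cases hr : ∀ x : V, x ≠ 0 → ∃ v, C S x v ∧ v ≠ 0 ∧ v ≠ x
  · refine ⟨y, ?_⟩
    obtain ⟨w, hw, w0, wy⟩ := hr y hy
    have F : Four S y w (y + w) := by
      refine ⟨he, eo (by abel_nf <;> simp only [ch2, ch3, ch4, ch5, ch6, add_zero, zero_add]), hw,
        fun v hv => ?_⟩
      by_contra hn
      push Not at hn
      obtain ⟨n1, n2, n3, n4⟩ := hn
      -- five different elements
      let T : Finset V := {0, y, w, y + w, v}
      have hT : (T : Set V) ⊆ (S.ann y : Set V) := by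
        intro x hx
        have hx' : x = 0 ∨ x = y ∨ x = w ∨ x = y + w ∨ x = v := by
          simpa [T] using hx
        rcases hx' with rfl | rfl | rfl | rfl | rfl
        · exact C.zero y
        · exact C.self he _
        · exact hw
        · exact (C.self he y).add hw
        · exact hv
      have hyw : y + w ≠ 0 := fun e => wy (eo e).symm
      have hyw1 : y + w ≠ y := fun e => w0 (by simpa using e)
      have hyw2 : y + w ≠ w := fun e => hy (by simpa using e)
      have hc : T.card = 5 := by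
        simp only [T]
        rw [Finset.card_insert_of_notMem, Finset.card_insert_of_notMem,
          Finset.card_insert_of_notMem, Finset.card_insert_of_notMem, Finset.card_singleton]
        · simpa using fun e => n4 e.symm
        · simp only [Finset.mem_insert, Finset.mem_singleton, not_or]
          exact ⟨fun e => hyw2 e.symm, fun e => n3 e.symm⟩
        · simp only [Finset.mem_insert, Finset.mem_singleton, not_or]
          exact ⟨fun e => wy e.symm, fun e => hyw1 e.symm, fun e => n2 e.symm⟩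
        · simp only [Finset.mem_insert, Finset.mem_singleton, not_or]
          exact ⟨fun e => hy e.symm, fun e => w0 e.symm, fun e => hyw e.symm, fun e => n1 e.symm⟩
      have h5 : (T : Set V).ncard ≤ (S.ann y : Set V).ncard := Set.ncard_le_ncard hT (Set.toFinite _)
      rw [Set.ncard_coe_finset, hc] at h5
      have h6 : (S.ann y : Set V).ncard = Nat.card (S.ann y) := rfl
      omega
    exact F.reg hr
  · push Not at hr
    obtain ⟨x, -, hx⟩ := hr
    exact ⟨x, rigid_reg fun v hv => by
      by_cases h0 : v = 0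
      · exact Or.inl h0
      · exact Or.inr (hx v hv h0)⟩

end Pool.Agent.ETGP
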