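import Pool.Agent.ETGP.Rank3f
import Pool.Agent.ETGP.Small

/-!
# Structures of order at most 64 (helper82): from `rank ≤ 3` (helper24) and `|V_y| ≤ 4` (helper73)
-/

set_option autoImplicit false
set_option linter.unusedSectionVars false

namespace Pool.Agent.ETGP

open QS
open Pool.Agent.Helper58.PLine (QData)
open Pool.Agent.ETCP
open Pool.Agent.ETPR
open Pool.Agent.ETAL
open Pool.Agent.REG10 (InQ SRg RegE)

section
variable {V Q : Type} [AddCommGroup V] [Module (ZMod 2) V] {S : QData V Q}

theorem card_ann_pow [Finite V] (x : V) : ∃ k, Nat.card (S.ann x) = 2 ^ k := by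
  rw [Module.natCard_eq_pow_finrank (K := ZMod 2)]
  exact ⟨_, by rw [Nat.card_zmod]⟩

/-- no regular element: every `V_x`, `x ≠ 0`, has at least eight elements -/
theorem eight_le [Finite V] (he : S.e = 0) (hn : ¬ ∃ x, SRg S x) {x : V} (hx : x ≠ 0) :
    8 ≤ Nat.card (S.ann x) := by
  obtain ⟨k, hk⟩ := card_ann_pow (S := S) x
  by_contra hc
  have h1 : k < 3 := by
    by_contra h2
    have h3 : 2 ^ 3 ≤ 2 ^ k := Nat.pow_le_pow_right (by norm_num) (by omega)
    omega
  have h4 : Nat.card (S.ann x) ≤ 4 := by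
    rw [hk]
    calc 2 ^ k ≤ 2 ^ 2 := Nat.pow_le_pow_right (by norm_num) (by omega)
      _ = 4 := by norm_num
  exact hn (reg_of_card4 he hx h4)

/-- if there is no regular element, then `|V| ≤ 2 ^ (m + 3)` makes all ranks at most `m` -/
theorem rank_le [Finite V] (he : S.e = 0) (hn : ¬ ∃ x, SRg S x) {N : ℕ} (hN : 1 ≤ N)
    (h : Nat.card V ≤ N * 8) (x : V) : Nat.card V ≤ N * Nat.card (S.ann x) := by
  by_cases hx : x = 0
  · have h1 : Nat.card (S.ann x) = Nat.card V := by
      have h2 : S.ann x = ⊤ := by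
        rw [eq_top_iff]
        intro v _
        rw [hx]
        exact C.zero' v
      rw [h2]
      exact Nat.card_congr (Equiv.Set.univ V)
    rw [h1]
    exact Nat.le_mul_of_pos_left _ hN
  · exact h.trans (Nat.mul_le_mul_left _ (eight_le he hn hx))

end

/-- a regular element of the data gives a regular element of the structure -/
theorem regE_of_data (S : QStruct) (h : ∃ y, SRg (ETC.toData S) y) : ∃ x, RegE S x := by
  obtain ⟨y, hy⟩ := h
  refine ⟨Additive.toMul y, fun w v hw => ?_⟩
  obtain ⟨z, hz⟩ := hy (Additive.ofMul w) (Additive.ofMul v) hw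
  exact ⟨Additive.toMul z, hz.symm⟩

/-- some `q (x, ·)`, `x ≠ 1`, vanishes at most four times: there is a regular element -/
theorem regE_of_card4 (S : QStruct) [Finite S.G] (hneg : S.neg = 1) {x : S.G} (hx : x ≠ 1)
    (h4 : Nat.card {v // S.q x v = S.zero} ≤ 4) : ∃ x, RegE S x := by
  have hfin : Finite (Additive S.G) := (inferInstance : Finite S.G)
  have he : (ETC.toData S).e = 0 := by
    show Additive.ofMul S.neg = 0
    rw [hneg]; rfl
  exact regE_of_data S (reg_of_card4 (S := ETC.toData S) he (y := Additive.ofMul x)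
    (fun e => hx (by simpa using e)) h4)

/-- order at most `64`: there is a regular element -/
theorem regE_of_64 (S : QStruct) [Finite S.G] (hneg : S.neg = 1) (h : Nat.card S.G ≤ 64) :
    ∃ x, RegE S x := by
  have hfin : Finite (Additive S.G) := (inferInstance : Finite S.G)
  have he : (ETC.toData S).e = 0 := by
    show Additive.ofMul S.neg = 0
    rw [hneg]; rfl
  apply regE_of_data
  by_contra hn
  obtain ⟨y, hy⟩ := exists_max_rank (ETC.toData S)
  exact hn ⟨y, reg_of_rank3 (S := ETC.toData S) he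
    (rank_le he hn (N := 8) (by norm_num) (h.trans (by norm_num))) hy⟩

/-- the shell: a bound on the order is inherited by linked subgroups -/
theorem elem_of_order {N : ℕ} (H : ∀ (S : QStruct) (_ : Finite S.G), S.neg = 1 →
    Nat.card S.G ≤ N → ∃ x, RegE S x) (S : QStruct) (hf : Finite S.G) (hneg : S.neg = 1)
    (h : Nat.card S.G ≤ N) : ElemType S := by
  refine REG10.elem_of_hreg REG10.srgx _ S hf rfl hneg fun U hU => ?_
  let T := ESL.PRODRECX.sub S hneg U hU
  have hT := REG10.emb_sub S hneg U hU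
  have hfT : Finite T.G := by
    show Finite U
    infer_instance
  have hc : Nat.card T.G ≤ N := by
    refine le_trans ?_ h
    show Nat.card U ≤ Nat.card S.G
    exact Nat.card_le_card_of_injective _ U.subtype_injective
  obtain ⟨x, hx⟩ := H T hfT rfl hc
  refine ⟨x.1, x.2, fun w hw hxw v hv => ?_⟩
  obtain ⟨z, hz⟩ := hx ⟨w, hw⟩ ⟨v, hv⟩ ((hT.zero x ⟨w, hw⟩).2 hxw)
  exact ⟨z.1, z.2, (hT.q _ _ _ _).1 hz⟩

/-- **a finite structure with `-1 = 1` and `|G| ≤ 64` is of elementary type** -/
theorem elem_of_64 (S : QStruct) (hf : Finite S.G) (hneg : S.neg = 1) (h : Nat.card S.G ≤ 64) :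
    ElemType S :=
  elem_of_order (fun T hT hn hc => by
    have := hT
    exact regE_of_64 T hn hc) S hf hneg h

end Pool.Agent.ETGP
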