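import Pool.Agent.ETGP.NC

/-!
# Structures with at most four values `q (x, ·)` for every `x` are of elementary type, helper24
-/

set_option autoImplicit false
set_option linter.unusedSectionVars false
set_option linter.unusedSimpArgs false
set_option linter.unnecessarySeqFocus false

namespace Pool.Agent.ETGP

open QS
open Pool.Agent.Helper58.PLine (QData)
open Pool.Agent.ETCP
open Pool.Agent.ETPR
open Pool.Agent.ETAL
open Pool.Agent.REG10 (InQ SRg RegE)

variable {V Q : Type} [AddCommGroup V] [Module (ZMod 2) V] {S : QData V Q}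

/-- all ranks at most two: an element of maximal rank is regular -/
theorem reg_of_rank2 [Finite V] (he : S.e = 0)
    (h4 : ∀ x, Nat.card V ≤ 4 * Nat.card (S.ann x)) {y : V}
    (hy : ∀ x, Nat.card (S.ann y) ≤ Nat.card (S.ann x)) : SRg S y := by
  intro w z hw
  by_contra hzw0
  have hw' : w ∈ S.ann y := hw
  -- all elements `z'` with `w z' = w z` commute with `y`
  have key : ∀ z', S.q w z' = S.q w z → C S y z' := by
    intro z' hz'
    have hzw : ¬ InQ S y z' w := fun h => hzw0 (h.symm.congr hz')
    have hwM : w ∉ MZ S y z' := fun h => hzw (mem_MZ.1 h)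
    have e1 : 2 * Nat.card (S.ann y ⊓ MZ S y z' : Submodule (ZMod 2) V) ≤ Nat.card (S.ann y) :=
      half inf_le_left hw' fun h => hwM h.2
    have e2 : 2 * Nat.card (MZ S y z') ≤ Nat.card (⊤ : Submodule (ZMod 2) V) :=
      half le_top (w := w) Submodule.mem_top hwM
    have e3 : Nat.card (⊤ : Submodule (ZMod 2) V) = Nat.card V :=
      Nat.card_congr Submodule.topEquiv.toEquiv
    have e4 := card_MZ (S := S) y z'
    have e5 := hy (z' + y)
    have e6 := h4 z'
    rw [e3] at e2
    set a := Nat.card (S.ann z') with ha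
    set b := Nat.card (S.ann (z' + y)) with hb
    set m := Nat.card (MZ S y z') with hm
    set d := Nat.card (S.ann y) with hd
    set k := Nat.card (S.ann y ⊓ S.ann z' : Submodule (ZMod 2) V) with hk
    set t := Nat.card (S.ann y ⊓ MZ S y z' : Submodule (ZMod 2) V) with ht
    have pa : 0 < a := Nat.card_pos
    have hma : m ≤ 2 * a := by omega
    -- `a d ≤ a b = m k ≤ 2 a k`
    have h5 : a * d ≤ a * (2 * k) := by
      calc a * d ≤ a * b := Nat.mul_le_mul_left _ e5
        _ = m * k := e4.symm
        _ ≤ 2 * a * k := Nat.mul_le_mul_right _ hma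
        _ = a * (2 * k) := by ring
    have h6 : d ≤ 2 * k := Nat.le_of_mul_le_mul_left h5 pa
    have h7 : t ≤ k := by omega
    have hle : (S.ann y ⊓ S.ann z' : Submodule (ZMod 2) V) ≤ S.ann y ⊓ MZ S y z' :=
      fun v hv => ⟨hv.1, Submodule.mem_sup_left hv.2⟩
    have heq := eq_of_card_le hle h7
    have hyM : y ∈ (S.ann y ⊓ MZ S y z' : Submodule (ZMod 2) V) :=
      ⟨C.self he y, mem_MZ.2 ⟨z', S.symm z' y⟩⟩
    rw [← heq] at hyM
    exact C.symm (S := S) hyM.2
  have hyz : C S y z := key z rfl
  have hle : S.ann w ≤ S.ann y := by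
    intro h hh
    have h1 : C S y (z + h) := key (z + h) (q_eq (C.of_eq (S := S) hh rfl (by
      rw [add_right_comm, ZModModule.add_self, zero_add])))
    have h2 := h1.add hyz
    exact h2.of_eq rfl (by rw [add_right_comm, ZModModule.add_self, zero_add])
  have heq := eq_of_card_le hle (hy w)
  have hwz : C S w z := by
    have : z ∈ S.ann w := by rw [heq]; exact hyz
    exact this
  exact hzw0 ⟨0, by rw [S.q_zero]; exact hwz⟩

theorem card_range [Finite V] (x : V) :
    Nat.card V ≤ Nat.card (Set.range (S.q x)) * Nat.card (S.ann x) := by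
  have h1 := Submodule.card_eq_card_quotient_mul_card (S.ann x)
  have hf : Finite (Set.range (S.q x)) := Set.finite_range _
  have h2 : Nat.card (V ⧸ S.ann x) ≤ Nat.card (Set.range (S.q x)) := by
    let f : V ⧸ S.ann x → Set.range (S.q x) := fun c => ⟨S.q x (Quotient.out c), ⟨_, rfl⟩⟩
    apply Nat.card_le_card_of_injective f
    intro c c' h
    have h3 : S.q x (Quotient.out c) = S.q x (Quotient.out c') := congrArg Subtype.val h
    rw [← REG10.ta_eq_iff] at h3
    have e : ∀ c : V ⧸ S.ann x, REG10.ta S x (Quotient.out c) = c := fun c =>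
      Quotient.out_eq c
    rwa [e, e] at h3
  rw [h1, mul_comm]
  exact Nat.mul_le_mul_right _ h2

/-- a finite structure (`-1 = 1`) with at most four values `q (x, ·)` for every `x` has a regular
element -/
theorem regE_of_rank2 (S : QStruct) [Finite S.G] (hneg : S.neg = 1)
    (h4 : ∀ x, Nat.card (Set.range (S.q x)) ≤ 4) : ∃ x, RegE S x := by
  have hfin : Finite (Additive S.G) := (inferInstance : Finite S.G)
  have he : (ETC.toData S).e = 0 := by
    show Additive.ofMul S.neg = 0
    rw [hneg]; rfl
  obtain ⟨y, hy⟩ := exists_max_rank (ETC.toData S)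
  have hx := reg_of_rank2 (S := ETC.toData S) he (fun x => (card_range x).trans
    (Nat.mul_le_mul_right _ (h4 (Additive.toMul x)))) hy
  refine ⟨Additive.toMul y, fun w v hw => ?_⟩
  obtain ⟨z, hz⟩ := hx (Additive.ofMul w) (Additive.ofMul v) hw
  exact ⟨Additive.toMul z, hz.symm⟩

/-- **rank at most two** -/
theorem elem_of_rank2 (S : QStruct) (hf : Finite S.G) (hneg : S.neg = 1)
    (h4 : ∀ x, Nat.card (Set.range (S.q x)) ≤ 4) : ElemType S := by
  refine REG10.elem_of_hreg REG10.srgx _ S hf rfl hneg fun U hU => ?_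
  let T := ESL.PRODRECX.sub S hneg U hU
  have hT := REG10.emb_sub S hneg U hU
  have hfT : Finite T.G := by
    show Finite U
    infer_instance
  obtain ⟨x, hx⟩ := regE_of_rank2 T rfl (fun x => by
    refine le_trans ?_ (h4 (U.subtype x))
    have hf2 : Finite (Set.range (S.q (U.subtype x))) := Set.finite_range _
    have hcc : ∀ c : Set.range (T.q x), ∃ v : T.G, T.q x v = c := fun c => c.2
    choose g hg using hcc
    apply Nat.card_le_card_of_injective
      (fun c : Set.range (T.q x) => (⟨S.q (U.subtype x) (U.subtype (g c)), ⟨_, rfl⟩⟩ :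
        Set.range (S.q (U.subtype x))))
    intro c c' h
    have h3 : S.q (U.subtype x) (U.subtype (g c)) = S.q (U.subtype x) (U.subtype (g c')) :=
      congrArg Subtype.val h
    have h5 := (hT.q _ _ _ _).2 h3
    rw [hg, hg] at h5
    exact Subtype.ext h5)
  refine ⟨x.1, x.2, fun w hw hxw v hv => ?_⟩
  obtain ⟨z, hz⟩ := hx ⟨w, hw⟩ ⟨v, hv⟩ ((hT.zero x ⟨w, hw⟩).2 hxw)
  exact ⟨z.1, z.2, (hT.q _ _ _ _).1 hz⟩

end Pool.Agent.ETGP
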