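import Pool.Agent.ETGP.Rank2

/-!
# Structures with at most eight values `q (x, ·)` for every `x`: the plane, helper24
-/

set_option autoImplicit false
set_option linter.unusedSectionVars false
set_option linter.unusedSimpArgs false
set_option linter.unusedVariables false
set_option linter.unnecessarySeqFocus false

namespace Pool.Agent.ETGP

open QS
open Pool.Agent.Helper58.PLine (QData)
open Pool.Agent.ETCP
open Pool.Agent.ETPR
open Pool.Agent.ETAL
open Pool.Agent.REG10 (InQ SRg RegE vl ta BX vl_eq vl_x vl_symm vl_add vl_add_left vl_smul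
  vl_smul_left vl_congr vl_of_zero inq_x inq_of_zero ta_eq_iff ta_eq_zero vl_inj vl_zero
  vl_zero_left inq_zero inq_zero_left)

variable {V Q : Type} [AddCommGroup V] [Module (ZMod 2) V] {S : QData V Q}

variable (S) in
/-- the configuration: `y + z = s`, `V_y = K + <y, hy>`, `V_z = K + <z, hz>`, `V_s = K + <s, hs>`,
`K = V_y ∩ V_z`, and the index of every `V_w` is at most eight -/
structure R3 (y z s hy hz hs : V) : Prop where
  he : S.e = 0
  sum : y + z = s
  cy : C S y hy
  cz : C S z hz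
  cs : C S s hs
  ey : ¬ InQ S y z hy
  ez : ¬ InQ S z s hz
  es : ¬ InQ S s y hs
  yz : ¬ C S y z
  dy : ∀ u, C S y u → ∃ (c d : ZMod 2) (k : V), C S y k ∧ C S z k ∧ u = c • y + d • hy + k
  dz : ∀ u, C S z u → ∃ (c d : ZMod 2) (k : V), C S y k ∧ C S z k ∧ u = c • z + d • hz + k
  ds : ∀ u, C S s u → ∃ (c d : ZMod 2) (k : V), C S y k ∧ C S z k ∧ u = c • s + d • hs + k
  rk : ∀ (w : V) (g : Fin 4 → V), ∃ c : Fin 4 → ZMod 2, c ≠ 0 ∧ C S w (∑ i, c i • g i)

/-- congruence for the second slot -/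
theorem qr {x a b : V} (h : C S x (a + b)) : S.q x a = S.q x b := q_eq h

/-- congruence for the first slot -/
theorem ql {x a b : V} (h : C S (a + b) x) : S.q a x = S.q b x := q_eq' h

theorem C.smul {x a : V} (c : ZMod 2) (h : C S x a) : C S x (c • a) :=
  smul_cases (p := fun v => C S x v) c a (C.zero x) h

theorem C.smul' {x a : V} (c : ZMod 2) (h : C S a x) : C S (c • a) x :=
  (C.smul c h.symm).symm

/-- two values add up to an element of the subspace -/
theorem C.cancel {x a b : V} (h : C S x (a + b)) (h' : C S x a) : C S x b :=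
  (h.add h').of_eq rfl (by
    exact (eo (by abel_nf <;> simp only [ch2, ch3, ch4, ch5, ch6, add_zero, zero_add])))

namespace R3

variable {y z s hy hz hs : V} (R : R3 S y z s hy hz hs)
include R

theorem sum2 : z + s = y := by
  rw [← R.sum]
  exact (eo (by abel_nf <;> simp only [ch2, ch3, ch4, ch5, ch6, add_zero, zero_add]))

theorem sum3 : s + y = z := by
  rw [← R.sum]
  exact (eo (by abel_nf <;> simp only [ch2, ch3, ch4, ch5, ch6, add_zero, zero_add]))

theorem yy : C S y y := C.self R.he y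
theorem zz : C S z z := C.self R.he z
theorem ss : C S s s := C.self R.he s

theorem ks {k : V} (h1 : C S y k) (h2 : C S z k) : C S s k := by
  rw [← R.sum]; exact C.add' (S := S) h1 h2

theorem zs : ¬ C S z s := fun h =>
  R.yz (((R.zz.add h).of_eq rfl R.sum2).symm)

theorem rot : R3 S z s y hz hs hy where
  he := R.he
  sum := R.sum2
  cy := R.cz
  cz := R.cs
  cs := R.cy
  ey := R.ez
  ez := R.es
  es := R.ey
  yz := R.zs
  dy := fun u hu => by
    obtain ⟨c, d, k, h1, h2, h3⟩ := R.dz u hu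
    exact ⟨c, d, k, h2, R.ks h1 h2, h3⟩
  dz := fun u hu => by
    obtain ⟨c, d, k, h1, h2, h3⟩ := R.ds u hu
    exact ⟨c, d, k, h2, R.ks h1 h2, h3⟩
  ds := fun u hu => by
    obtain ⟨c, d, k, h1, h2, h3⟩ := R.dy u hu
    exact ⟨c, d, k, h2, R.ks h1 h2, h3⟩
  rk := R.rk

/-- `q(y, z) = q(s, y)` -/
theorem qyz : S.q y z = S.q s y := by
  rw [S.symm s y]
  exact qr (R.yy.of_eq rfl R.sum2.symm)

/-- `q(z, hy) = q(s, hy)` -/
theorem qzhy : S.q z hy = S.q s hy :=
  ql (R.cy.of_eq R.sum2.symm rfl)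

/-- `q(y, hz) = q(s, hz)` -/
theorem qyhz : S.q y hz = S.q s hz :=
  ql (R.cz.of_eq (by rw [add_comm]; exact R.sum3.symm) rfl)

/-- `q(y, hs) = q(z, hs)` -/
theorem qyhs : S.q y hs = S.q z hs :=
  ql (R.cs.of_eq (by rw [← R.sum]) rfl)

/-- independence of the values `t, e, b` in `Q_s` -/
theorem ind {α β γ : ZMod 2} (h : C S s (α • y + β • hy + γ • hz)) : α = 0 ∧ β = 0 ∧ γ = 0 := by
  have i1 : InQ S z s y := ⟨y, by rw [← R.qyz, S.symm]⟩
  have i2 : InQ S z s hy := ⟨hy, R.qzhy.symm⟩
  have i3 : InQ S y s hz := ⟨hz, R.qyhz.symm⟩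
  have g0 : γ = 0 := by
    rcases Pool.Agent.Helper58.PLine.zm γ with h0 | h0
    · exact h0
    · exfalso
      rw [h0, one_smul] at h
      have h1 : InQ S z s (α • y + β • hy) := (i1.smul α).add (i2.smul β)
      exact R.ez ((inq_of_zero h).of_add h1)
  subst g0
  have b0 : β = 0 := by
    rcases Pool.Agent.Helper58.PLine.zm β with h0 | h0
    · exact h0
    · exfalso
      rw [h0, one_smul, zero_smul, add_zero] at h
      have h1 : InQ S y s (α • y) := InQ.smul α ⟨s, S.symm s y⟩
      have h2 : InQ S y s hy := (inq_of_zero h).of_add h1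
      exact R.ey (h2.congr R.qzhy.symm)
  subst b0
  refine ⟨?_, rfl, rfl⟩
  rcases Pool.Agent.Helper58.PLine.zm α with h0 | h0
  · exact h0
  · exfalso
    rw [h0, one_smul, zero_smul, zero_smul, add_zero, add_zero] at h
    apply R.yz
    show S.q y z = S.z
    rw [R.qyz]; exact h

/-- independence, in `V / V_s` -/
theorem indt {α β γ : ZMod 2} (h : α • ta S s y + β • ta S s hy + γ • ta S s hz = 0) :
    α = 0 ∧ β = 0 ∧ γ = 0 := by
  apply R.ind
  rw [← map_smul, ← map_smul, ← map_smul, ← map_add, ← map_add] at h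
  exact ta_eq_zero.1 h

/-- comparison of coordinates in `V / V_s` -/
theorem indt' {α β γ α' β' γ' : ZMod 2}
    (h : α • ta S s y + β • ta S s hy + γ • ta S s hz =
      α' • ta S s y + β' • ta S s hy + γ' • ta S s hz) : α = α' ∧ β = β' ∧ γ = γ' := by
  have h1 : (α + α') • ta S s y + (β + β') • ta S s hy + (γ + γ') • ta S s hz = 0 := by
    have : (α + α') • ta S s y + (β + β') • ta S s hy + (γ + γ') • ta S s hz =
      (α • ta S s y + β • ta S s hy + γ • ta S s hz) +
      (α' • ta S s y + β' • ta S s hy + γ' • ta S s hz) := by module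
    rw [this, h, ZModModule.add_self]
  obtain ⟨h2, h3, h4⟩ := R.indt h1
  exact ⟨CharTwo.add_eq_zero.1 h2, CharTwo.add_eq_zero.1 h3, CharTwo.add_eq_zero.1 h4⟩

/-- values of `w = hy + hz + a y + b z` on `y` -/
theorem wy (a b : ZMod 2) : InQ S s (hy + hz + a • y + b • z) y ∧
    vl S s (hy + hz + a • y + b • z) y = ta S s hz + b • ta S s y := by
  have h1 : S.q hy y = S.z := R.cy.symm
  have h2 : S.q hz y = S.q s hz := (S.symm hz y).trans R.qyhz
  have h3 : S.q y y = S.z := R.yy
  have h4 : S.q z y = S.q s y := (S.symm z y).trans R.qyz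
  have i1 : InQ S s hy y := inq_of_zero h1
  have i2 : InQ S s hz y := ⟨_, h2⟩
  have i3 : InQ S s (a • y) y := (inq_of_zero h3).smul_left a
  have i4' : InQ S s z y := ⟨_, h4⟩
  have i4 : InQ S s (b • z) y := i4'.smul_left b
  refine ⟨((i1.add_left i2).add_left i3).add_left i4, ?_⟩
  rw [vl_add_left ((i1.add_left i2).add_left i3) i4, vl_add_left (i1.add_left i2) i3,
    vl_add_left i1 i2, vl_smul_left, vl_smul_left, vl_of_zero h1, vl_eq h2, vl_of_zero h3,
    vl_eq h4]
  module

/-- values of `w = hy + hz + a y + b z` on `z` -/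
theorem wz (a b : ZMod 2) : InQ S s (hy + hz + a • y + b • z) z ∧
    vl S s (hy + hz + a • y + b • z) z = ta S s hy + a • ta S s y := by
  have h1 : S.q hy z = S.q s hy := (S.symm hy z).trans R.qzhy
  have h2 : S.q hz z = S.z := R.cz.symm
  have h3 : S.q y z = S.q s y := R.qyz
  have h4 : S.q z z = S.z := R.zz
  have i1 : InQ S s hy z := ⟨_, h1⟩
  have i2 : InQ S s hz z := inq_of_zero h2
  have i3 : InQ S s (a • y) z := InQ.smul_left a ⟨_, h3⟩
  have i4 : InQ S s (b • z) z := (inq_of_zero h4).smul_left b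
  refine ⟨((i1.add_left i2).add_left i3).add_left i4, ?_⟩
  rw [vl_add_left ((i1.add_left i2).add_left i3) i4, vl_add_left (i1.add_left i2) i3,
    vl_add_left i1 i2, vl_smul_left, vl_smul_left, vl_eq h1, vl_of_zero h2, vl_eq h3,
    vl_of_zero h4]
  module

/-- values on `U` -/
theorem wu (a b α β : ZMod 2) : InQ S s (hy + hz + a • y + b • z) (α • y + β • z) ∧
    vl S s (hy + hz + a • y + b • z) (α • y + β • z) =
      (α * b + β * a) • ta S s y + β • ta S s hy + α • ta S s hz := by
  obtain ⟨h1, h2⟩ := R.wy a b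
  obtain ⟨h3, h4⟩ := R.wz a b
  refine ⟨(h1.smul α).add (h3.smul β), ?_⟩
  rw [vl_add (h1.smul α) (h3.smul β), vl_smul, vl_smul, h2, h4]
  module

/-- `V_w ∩ U = 0` -/
theorem wu0 {a b α β : ZMod 2} (h : C S (hy + hz + a • y + b • z) (α • y + β • z)) :
    α = 0 ∧ β = 0 := by
  obtain ⟨h1, h2⟩ := R.wu a b α β
  rw [vl_of_zero h] at h2
  obtain ⟨-, h3, h4⟩ := R.indt h2.symm
  exact ⟨h4, h3⟩

/-- the dichotomy: if `Q_w` is not contained in `Q_s` then `Q_w ∩ Q_s = w U` -/
theorem dich {a b : ZMod 2} {m k : V} (hm : ¬ InQ S s (hy + hz + a • y + b • z) m)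
    (hk : InQ S s (hy + hz + a • y + b • z) k) : ∃ α β : ZMod 2,
    vl S s (hy + hz + a • y + b • z) k =
      (α * b + β * a) • ta S s y + β • ta S s hy + α • ta S s hz := by
  obtain ⟨c, hc, h⟩ := R.rk (hy + hz + a • y + b • z) ![y, z, k, m]
  rw [Fin.sum_univ_four] at h
  simp only [Matrix.cons_val_zero, Matrix.cons_val_one, Matrix.cons_val] at h
  have c3 : c 3 = 0 := by
    rcases Pool.Agent.Helper58.PLine.zm (c 3) with h0 | h0
    · exact h0
    · exfalso
      rw [h0, one_smul] at h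
      exact hm ((inq_of_zero h).of_add ((R.wu a b (c 0) (c 1)).1.add (hk.smul (c 2))))
  rw [c3, zero_smul, add_zero] at h
  have c2 : c 2 = 1 := by
    rcases Pool.Agent.Helper58.PLine.zm (c 2) with h0 | h0
    · exfalso
      rw [h0, zero_smul, add_zero] at h
      obtain ⟨c0, c1⟩ := R.wu0 h
      apply hc
      funext i
      fin_cases i
      · exact c0
      · exact c1
      · exact h0
      · exact c3
    · exact h0
  rw [c2, one_smul] at h
  refine ⟨c 0, c 1, ?_⟩
  obtain ⟨h1, h2⟩ := R.wu a b (c 0) (c 1)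
  rw [← h2]
  have h3 := vl_add h1 hk
  rw [vl_of_zero h] at h3
  exact (eo h3.symm).symm

/-- if `q(w, k)` is not in `Q_s` then `V = V_w + U + <k>` -/
theorem dich' {a b : ZMod 2} {k : V} (hk : ¬ InQ S s (hy + hz + a • y + b • z) k) (g : V) :
    ∃ α β γ : ZMod 2, C S (hy + hz + a • y + b • z) (α • y + β • z + γ • k + g) := by
  obtain ⟨c, hc, h⟩ := R.rk (hy + hz + a • y + b • z) ![y, z, k, g]
  rw [Fin.sum_univ_four] at h
  simp only [Matrix.cons_val_zero, Matrix.cons_val_one, Matrix.cons_val] at h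
  have c3 : c 3 = 1 := by
    rcases Pool.Agent.Helper58.PLine.zm (c 3) with h0 | h0
    · exfalso
      rw [h0, zero_smul, add_zero] at h
      have c2 : c 2 = 0 := by
        rcases Pool.Agent.Helper58.PLine.zm (c 2) with h2 | h2
        · exact h2
        · exfalso
          rw [h2, one_smul] at h
          exact hk ((inq_of_zero h).of_add (R.wu a b (c 0) (c 1)).1)
      rw [c2, zero_smul, add_zero] at h
      obtain ⟨c0, c1⟩ := R.wu0 h
      apply hc
      funext i
      fin_cases i
      · exact c0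
      · exact c1
      · exact c2
      · exact h0
    · exact h0
  rw [c3, one_smul] at h
  exact ⟨c 0, c 1, c 2, h⟩

end R3

end Pool.Agent.ETGP
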