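import Pool.Agent.ETGP.Rank3

/-!
# Structures with at most eight values `q (x, ·)` for every `x`: step one, helper24
-/

set_option autoImplicit false
set_option linter.unusedSectionVars false
set_option linter.unusedSimpArgs false
set_option linter.unusedVariables false
set_option linter.unnecessarySeqFocus false

namespace Pool.Agent.ETGP

open QS
open Pool.Agent.Helper58.PLine (QData)
open Pool.Agent.ETCP
open Pool.Agent.ETPR
open Pool.Agent.ETAL
open Pool.Agent.REG10 (InQ SRg RegE vl ta BX vl_eq vl_x vl_symm vl_add vl_add_left vl_smul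
  vl_smul_left vl_congr vl_of_zero inq_x inq_of_zero ta_eq_iff ta_eq_zero vl_inj vl_zero
  vl_zero_left inq_zero inq_zero_left)

variable {V Q : Type} [AddCommGroup V] [Module (ZMod 2) V] {S : QData V Q}

variable (S) in
/-- `q(w, h)` is one of `e, e + t, b, b + t`, where `t = q(s, y)`, `e = q(s, hy)`, `b = q(s, hz)` -/
def Od (s y hy hz w h : V) : Prop :=
  ∃ (g : V) (c : ZMod 2), (g = hy ∨ g = hz) ∧ S.q w h = S.q s (g + c • y)

namespace R3

variable {y z s hy hz hs : V} (R : R3 S y z s hy hz hs)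
include R

theorem od_of_vl {w h : V} {τ κ : ZMod 2} (hi : InQ S s w h)
    (hv : vl S s w h = τ • ta S s y + (1 + κ) • ta S s hy + κ • ta S s hz) :
    Od S s y hy hz w h := by
  have key : ∀ g : V, vl S s w h = ta S s g → S.q w h = S.q s g := by
    intro g hg
    rw [← vl_x (S := S) (x := s) g] at hg
    exact (vl_inj hi (inq_x g)).1 hg
  rcases Pool.Agent.Helper58.PLine.zm κ with h0 | h0
  · refine ⟨hy, τ, Or.inl rfl, key _ ?_⟩
    rw [hv, h0, map_add, map_smul]
    module
  · refine ⟨hz, τ, Or.inr rfl, key _ ?_⟩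
    rw [hv, h0, map_add, map_smul, show (1 : ZMod 2) + 1 = 0 from rfl]
    module

/-- `q(w, k)` for two elements `w` of the coset -/
theorem wcong {a b a' b' : ZMod 2} {k : V} (h : C S ((a + a') • y + (b + b') • z) k) :
    S.q (hy + hz + a • y + b • z) k = S.q (hy + hz + a' • y + b' • z) k :=
  ql (h.of_eq (by match_scalars <;> (try ring_nf) <;> (try reduce_mod_char)) rfl)

theorem wk {a b a' b' : ZMod 2} {k : V} (h1 : C S y k) (h2 : C S z k) :
    S.q (hy + hz + a • y + b • z) k = S.q (hy + hz + a' • y + b' • z) k :=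
  R.wcong (C.add' (S := S) (C.smul' _ h1) (C.smul' _ h2))

theorem wh {a b : ZMod 2} {h : V} (h1 : C S s h) :
    S.q (hy + hz + a • y + b • z) h = S.q (hy + hz + (a + 1) • y + (b + 1) • z) h :=
  R.wcong (h1.of_eq (by
    rw [← R.sum]
    match_scalars <;> (try ring_nf) <;> (try reduce_mod_char)) rfl)

theorem tz : ta S s z = ta S s y := by
  rw [ta_eq_iff]
  exact qr (R.ss.of_eq rfl (by rw [← R.sum, add_comm]))

theorem ws (a b : ZMod 2) : InQ S s (hy + hz + a • y + b • z) s ∧
    vl S s (hy + hz + a • y + b • z) s = (a + b) • ta S s y + ta S s hy + ta S s hz := by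
  have h1 : InQ S s (hy + hz + a • y + b • z) s := (inq_x _).symm
  refine ⟨h1, ?_⟩
  rw [vl_symm h1, vl_x, map_add, map_add, map_add, map_smul, map_smul, R.tz]
  module

/-- not both -/
theorem nb {a b : ZMod 2} (h1 : InQ S s (hy + hz + a • y + b • z) hs)
    (h2 : InQ S s (hy + hz + (a + 1) • y + b • z) hs) : False := by
  have h3 := h1.add_left h2
  apply R.es
  have e : hy + hz + a • y + b • z + (hy + hz + (a + 1) • y + b • z) = y := by
    match_scalars <;> (try ring_nf) <;> (try reduce_mod_char)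
  rwa [e] at h3

theorem phi0 {a b : ZMod 2} {h : V} (hh : C S s h)
    (hn : ¬ InQ S s (hy + hz + a • y + b • z) hs)
    (hi : InQ S s (hy + hz + a • y + b • z) h) :
    ∃ τ β : ZMod 2, vl S s (hy + hz + a • y + b • z) h =
      τ • ta S s y + β • ta S s hy + β • ta S s hz := by
  obtain ⟨α, β, h1⟩ := R.dich hn hi
  have hn' : ¬ InQ S s (hy + hz + (a + 1) • y + (b + 1) • z) hs :=
    fun h => hn (h.congr (R.wh R.cs).symm)
  have hi' : InQ S s (hy + hz + (a + 1) • y + (b + 1) • z) h := hi.congr (R.wh hh)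
  obtain ⟨α', β', h2⟩ := R.dich hn' hi'
  rw [← vl_congr hi (R.wh hh), h1] at h2
  obtain ⟨e1, e2, e3⟩ := R.indt' h2
  subst e2 e3
  have e4 : α = β := by
    revert e1
    clear * -
    revert a b α β
    decide
  subst e4
  exact ⟨_, α, h1⟩

theorem phik {a b : ZMod 2} {k : V} (h1 : C S y k) (h2 : C S z k)
    (hi : InQ S s (hy + hz + a • y + b • z) k) :
    ∃ τ β : ZMod 2, vl S s (hy + hz + a • y + b • z) k =
      τ • ta S s y + β • ta S s hy + β • ta S s hz := by
  by_cases hn : InQ S s (hy + hz + a • y + b • z) hs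
  · have hn' : ¬ InQ S s (hy + hz + (a + 1) • y + b • z) hs := fun h => R.nb hn h
    have e := R.wk (a := a) (b := b) (a' := a + 1) (b' := b) h1 h2
    obtain ⟨τ, β, h3⟩ := R.phi0 (R.ks h1 h2) hn' (hi.congr e)
    exact ⟨τ, β, by rw [vl_congr hi e, h3]⟩
  · exact R.phi0 (R.ks h1 h2) hn hi

/-- from `z + κ s + h` to `h` -/
theorem oddv {a b κ θ : ZMod 2} {h : V}
    (hi : InQ S s (hy + hz + a • y + b • z) (z + κ • s + h))
    (hv : vl S s (hy + hz + a • y + b • z) (z + κ • s + h) = θ • ta S s y) :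
    InQ S s (hy + hz + a • y + b • z) h ∧ ∃ τ : ZMod 2,
      vl S s (hy + hz + a • y + b • z) h =
        τ • ta S s y + (1 + κ) • ta S s hy + κ • ta S s hz := by
  obtain ⟨h1, h2⟩ := R.wz a b
  obtain ⟨h3, h4⟩ := R.ws a b
  have h5 := h1.add (h3.smul κ)
  have h6 := hi.of_add h5
  refine ⟨h6, θ + a + κ * (a + b), ?_⟩
  rw [vl_add h5 h6, vl_add h1 (h3.smul κ), vl_smul, h2, h4] at hv
  have h7 := congrArg (fun v => v + (ta S s hy + a • ta S s y +
    κ • ((a + b) • ta S s y + ta S s hy + ta S s hz))) hv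
  rw [add_comm, Pool.Agent.Helper58.PLine.add_add_self] at h7
  rw [h7]
  module

/-- the conclusion from `h = hs + k` -/
theorem fin1 {a b κ τ : ZMod 2} {k : V} (h1 : C S y k) (h2 : C S z k)
    (hi : InQ S s (hy + hz + a • y + b • z) (hs + k))
    (hv : vl S s (hy + hz + a • y + b • z) (hs + k) =
        τ • ta S s y + (1 + κ) • ta S s hy + κ • ta S s hz) :
    Od S s y hy hz (hy + hz + a • y + b • z) hs := by
  have hk := R.ks h1 h2
  have i1 : InQ S s (hy + hz + a • y + b • z) hs := by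
    by_contra hn
    obtain ⟨τ', β, h3⟩ := R.phi0 (R.cs.add hk) hn hi
    rw [hv] at h3
    obtain ⟨-, e2, e3⟩ := R.indt' h3
    rw [← e3] at e2
    revert e2
    clear * -
    revert κ
    decide
  have i2 := hi.of_add i1
  obtain ⟨τ', β, h3⟩ := R.phik h1 h2 i2
  rw [vl_add i1 i2, h3] at hv
  refine R.od_of_vl (τ := τ + τ') (κ := κ + β) i1 ?_
  have h7 := congrArg (fun v => v + (τ' • ta S s y + β • ta S s hy + β • ta S s hz)) hv
  rw [Pool.Agent.Helper58.PLine.add_self_add] at h7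
  rw [h7]
  module

/-- the first link -/
theorem L1 : ∃ u, C S s u ∧ C S (hy + hz) (hy + z + u) ∧ C S (hy + hz + s) (hy + u) := by
  have h1 : S.q (hy + hz) hy = S.q hy (hy + hz) := S.symm _ _
  have h2 : S.q (hy + hz) z = S.q hy s := by
    rw [S.symm hy s, ← R.qzhy, S.symm z hy]
    exact ql (R.cz.symm.of_eq (by
      exact (eo (by abel_nf <;> simp only [ch2, ch3, ch4, ch5, ch6, add_zero, zero_add]))) rfl)
  have h3 := ETC.add_common h1 h2
  rw [S.symm hy (hy + hz + s)] at h3
  obtain ⟨u, p1, p2, p3⟩ := link h3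
  exact ⟨u, p3.of_eq (by
    exact (eo (by abel_nf <;> simp only [ch2, ch3, ch4, ch5, ch6, add_zero, zero_add]))) rfl,
    p1, p2⟩

/-- the second link -/
theorem L2 : ∃ u, C S s u ∧ C S (hy + hz + y) (hy + u) ∧ C S (hy + hz + z) (hz + u) := by
  have h1 : S.q (hy + hz + y) hy = S.q (hy + hz) hy := ql (R.cy.of_eq (by
    exact (eo (by abel_nf <;> simp only [ch2, ch3, ch4, ch5, ch6, add_zero, zero_add]))) rfl)
  have h2 : S.q (hy + hz + z) hz = S.q (hy + hz) hz := ql (R.cz.of_eq (by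
    exact (eo (by abel_nf <;> simp only [ch2, ch3, ch4, ch5, ch6, add_zero, zero_add]))) rfl)
  have h3 : S.q (hy + hz) hy = S.q (hy + hz) hz := qr (C.self R.he _)
  obtain ⟨u, p1, p2, p3⟩ := link (h1.trans (h3.trans h2.symm))
  refine ⟨u, p3.of_eq ?_ rfl, p1, p2⟩
  rw [← R.sum]
  exact (eo (by abel_nf <;> simp only [ch2, ch3, ch4, ch5, ch6, add_zero, zero_add]))

/-- consequence: the values on `m = z + u1 + u2` -/
theorem m1 {u1 u2 : V} (p1 : C S (hy + hz) (hy + z + u1)) (p2 : C S (hy + hz + y) (hy + u2)) :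
    S.q (hy + hz) (z + u1 + u2) = S.q y u2 := by
  have e1 : S.q (hy + hz) (z + u1 + u2) = S.q (hy + hz) (hy + u2) := qr (p1.of_eq rfl (by
    exact (eo (by abel_nf <;> simp only [ch2, ch3, ch4, ch5, ch6, add_zero, zero_add]))))
  have e2 : S.q (hy + hz) (hy + u2) = S.q y (hy + u2) := ql p2
  have e3 : S.q y (hy + u2) = S.q y u2 := qr (R.cy.of_eq rfl (by
    exact (eo (by abel_nf <;> simp only [ch2, ch3, ch4, ch5, ch6, add_zero, zero_add]))))
  rw [e1, e2, e3]

theorem m2 {u1 u2 : V} (p1 : C S (hy + hz) (hy + z + u1)) (p2 : C S (hy + hz + y) (hy + u2)) :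
    S.q (hy + hz + y) (z + u1 + u2) = S.q y (z + u1) := by
  have e1 : S.q (hy + hz + y) (z + u1 + u2) = S.q (hy + hz + y) (hy + z + u1) :=
    qr (p2.of_eq rfl (by
      exact (eo (by abel_nf <;> simp only [ch2, ch3, ch4, ch5, ch6, add_zero, zero_add]))))
  have e2 : S.q (hy + hz + y) (hy + z + u1) = S.q y (hy + z + u1) := ql (p1.of_eq (by
      exact (eo (by abel_nf <;> simp only [ch2, ch3, ch4, ch5, ch6, add_zero, zero_add]))) rfl)
  have e3 : S.q y (hy + z + u1) = S.q y (z + u1) := qr (R.cy.of_eq rfl (by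
    exact (eo (by abel_nf <;> simp only [ch2, ch3, ch4, ch5, ch6, add_zero, zero_add]))))
  rw [e1, e2, e3]

/-- `y u` for `u = c s + k` -/
theorem yu0 {c : ZMod 2} {k : V} (h1 : C S y k) :
    InQ S s y (c • s + k) ∧ vl S s y (c • s + k) = c • ta S s y := by
  have i1 : InQ S s y s := (inq_x y).symm
  have i2 : InQ S s y k := inq_of_zero h1
  refine ⟨(i1.smul c).add i2, ?_⟩
  rw [vl_add (i1.smul c) i2, vl_smul, vl_of_zero h1, vl_symm i1, vl_x, add_zero]

theorem yz0 : InQ S s y z ∧ vl S s y z = ta S s y := ⟨⟨y, R.qyz⟩, vl_eq R.qyz⟩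

/-- `y u` for `u = c s + hs + k` is not in `Q_s` -/
theorem yu1 {c : ZMod 2} {k : V} (h1 : C S y k) : ¬ InQ S s y (c • s + hs + k) := by
  intro h
  obtain ⟨i1, -⟩ := R.yu0 (c := c) h1
  apply R.es
  refine InQ.of_add (h.congr (congrArg _ ?_)) i1
  exact (eo (by abel_nf <;> simp only [ch2, ch3, ch4, ch5, ch6, add_zero, zero_add]))

end R3

end Pool.Agent.ETGP
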