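import Pool.Agent.ETGP.Rank3b

/-!
# Structures with at most eight values `q (x, ·)` for every `x`: step one, end, helper24
-/

set_option autoImplicit false
set_option linter.unusedSectionVars false
set_option linter.unusedSimpArgs false
set_option linter.unusedVariables false
set_option linter.unnecessarySeqFocus false

namespace Pool.Agent.ETGP

open QS
open Pool.Agent.Helper58.PLine (QData)
open Pool.Agent.ETCP
open Pool.Agent.ETPR
open Pool.Agent.ETAL
open Pool.Agent.REG10 (InQ SRg RegE vl ta BX vl_eq vl_x vl_symm vl_add vl_add_left vl_smul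
  vl_smul_left vl_congr vl_of_zero inq_x inq_of_zero ta_eq_iff ta_eq_zero vl_inj vl_zero
  vl_zero_left inq_zero inq_zero_left)

variable {V Q : Type} [AddCommGroup V] [Module (ZMod 2) V] {S : QData V Q}

namespace R3

variable {y z s hy hz hs : V} (R : R3 S y z s hy hz hs)
include R

theorem e00 : hy + hz + (0 : ZMod 2) • y + (0 : ZMod 2) • z = hy + hz := by
  rw [zero_smul, zero_smul, add_zero, add_zero]
theorem e10 : hy + hz + (1 : ZMod 2) • y + (0 : ZMod 2) • z = hy + hz + y := by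
  rw [one_smul, zero_smul, add_zero]
theorem e01 : hy + hz + (0 : ZMod 2) • y + (1 : ZMod 2) • z = hy + hz + z := by
  rw [one_smul, zero_smul, add_zero]
theorem e11 : hy + hz + (1 : ZMod 2) • y + (1 : ZMod 2) • z = hy + hz + s := by
  rw [one_smul, one_smul, ← R.sum, add_assoc (hy + hz)]

/-- case A -/
theorem caseA {c1 c2 : ZMod 2} {k1 k2 : V} (a1 : C S y k1) (b1 : C S z k1) (a2 : C S y k2)
    (b2 : C S z k2)
    (q1 : S.q (hy + hz) (z + (c1 • s + k1) + (c2 • s + k2)) = S.q y (c2 • s + k2)) : False := by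
  obtain ⟨i1, v1⟩ := R.yu0 (c := c2) a2
  have em : z + (c1 • s + k1) + (c2 • s + k2) = z + (c1 + c2) • s + (k1 + k2) := by module
  rw [em] at q1
  have i2 : InQ S s (hy + hz) (z + (c1 + c2) • s + (k1 + k2)) := i1.congr q1.symm
  have v2 := vl_congr i2 q1
  rw [v1] at v2
  rw [← R.e00] at i2 v2
  obtain ⟨i3, τ, v3⟩ := R.oddv i2 v2
  obtain ⟨τ', β, v4⟩ := R.phik (a1.add a2) (b1.add b2) i3
  rw [v3] at v4
  obtain ⟨-, f1, f2⟩ := R.indt' v4
  rw [← f2] at f1
  revert f1
  clear * -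
  generalize c1 + c2 = κ
  revert κ
  decide

/-- case C -/
theorem caseC {c1 c2 : ZMod 2} {k1 k2 : V} (a1 : C S y k1) (b1 : C S z k1) (a2 : C S y k2)
    (b2 : C S z k2)
    (q1 : S.q (hy + hz) (z + (c1 • s + hs + k1) + (c2 • s + k2)) = S.q y (c2 • s + k2)) :
    Od S s y hy hz (hy + hz) hs := by
  obtain ⟨i1, v1⟩ := R.yu0 (c := c2) a2
  have em : z + (c1 • s + hs + k1) + (c2 • s + k2) = z + (c1 + c2) • s + (hs + (k1 + k2)) := by
    module
  rw [em] at q1
  have i2 : InQ S s (hy + hz) (z + (c1 + c2) • s + (hs + (k1 + k2))) := i1.congr q1.symm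
  have v2 := vl_congr i2 q1
  rw [v1] at v2
  rw [← R.e00] at i2 v2
  obtain ⟨i3, τ, v3⟩ := R.oddv i2 v2
  have := R.fin1 (a1.add a2) (b1.add b2) i3 v3
  rwa [R.e00] at this

/-- case D -/
theorem caseD {c1 c2 : ZMod 2} {k1 k2 : V} (a1 : C S y k1) (b1 : C S z k1) (a2 : C S y k2)
    (b2 : C S z k2)
    (q2 : S.q (hy + hz + y) (z + (c1 • s + k1) + (c2 • s + hs + k2)) =
      S.q y (z + (c1 • s + k1))) :
    Od S s y hy hz (hy + hz + y) hs := by
  obtain ⟨i1, v1⟩ := R.yu0 (c := c1) a1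
  obtain ⟨i0, v0⟩ := R.yz0
  have em : z + (c1 • s + k1) + (c2 • s + hs + k2) = z + (c1 + c2) • s + (hs + (k1 + k2)) := by
    module
  rw [em] at q2
  have i2 : InQ S s (hy + hz + y) (z + (c1 + c2) • s + (hs + (k1 + k2))) :=
    (i0.add i1).congr q2.symm
  have v2 := vl_congr i2 q2
  rw [vl_add i0 i1, v0, v1, show ta S s y + c1 • ta S s y = (1 + c1) • ta S s y by module] at v2
  rw [← R.e10] at i2 v2
  obtain ⟨i3, τ, v3⟩ := R.oddv i2 v2
  have := R.fin1 (a1.add a2) (b1.add b2) i3 v3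
  rwa [R.e10] at this

/-- case B -/
theorem caseB {c1 c2 : ZMod 2} {k1 k2 : V} (a1 : C S y k1) (b1 : C S z k1) (a2 : C S y k2)
    (b2 : C S z k2)
    (q1 : S.q (hy + hz) (z + (c1 • s + hs + k1) + (c2 • s + hs + k2)) =
      S.q y (c2 • s + hs + k2))
    (q2 : S.q (hy + hz + y) (z + (c1 • s + hs + k1) + (c2 • s + hs + k2)) =
      S.q y (z + (c1 • s + hs + k1))) : False := by
  have em : z + (c1 • s + hs + k1) + (c2 • s + hs + k2) =
      z + (c1 + c2) • s + (k1 + k2) := by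
    match_scalars <;> (try ring_nf) <;> (try reduce_mod_char)
  rw [em] at q1 q2
  set k := k1 + k2 with hk
  have ka : C S y k := a1.add a2
  have kb : C S z k := b1.add b2
  have kc : C S s k := R.ks ka kb
  set κ := c1 + c2 with hκ
  set m := z + κ • s + k with hm
  -- none of the four values `q(w, m)` is in `Q_s`
  have n00 : ¬ InQ S s (hy + hz) m := fun h => R.yu1 a2 (h.congr q1)
  have n10 : ¬ InQ S s (hy + hz + y) m := fun h =>
    R.yu1 a1 ((h.congr q2).of_add R.yz0.1)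
  have n11 : ¬ InQ S s (hy + hz + s) m := fun h => n00 (by
    have h1 : InQ S s s m := inq_x m
    have := h.add_left h1
    rwa [show hy + hz + s + s = hy + hz from
      (eo (by abel_nf <;> simp only [ch2, ch3, ch4, ch5, ch6, add_zero, zero_add]))] at this)
  have n01 : ¬ InQ S s (hy + hz + z) m := fun h => n00 (by
    have h1 : InQ S s z m := ((inq_of_zero R.zz).add ((inq_x z).symm.smul κ)).add (inq_of_zero kb)
    have := h.add_left h1
    rwa [show hy + hz + z + z = hy + hz from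
      (eo (by abel_nf <;> simp only [ch2, ch3, ch4, ch5, ch6, add_zero, zero_add]))] at this)
  have nk : ¬ InQ S s (hy + hz) k := fun h => n00 (by
    have h1 := (R.wz 0 0).1
    have h2 := (R.ws 0 0).1
    rw [R.e00] at h1 h2
    exact (h1.add (h2.smul κ)).add h)
  -- `x (hs + α y + β z + γ k) = 0`
  obtain ⟨α, β, γ, h0⟩ := R.dich' (a := 0) (b := 0) (k := k) (by rw [R.e00]; exact nk) hs
  have hs' : C S s (γ • k + hs) := (C.smul γ kc).add R.cs
  obtain ⟨iu, vu⟩ := R.wu 0 0 α β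
  have e1 : S.q (hy + hz + (0 : ZMod 2) • y + (0 : ZMod 2) • z) (γ • k + hs) =
      S.q (hy + hz + (0 : ZMod 2) • y + (0 : ZMod 2) • z) (α • y + β • z) :=
    (qr (h0.of_eq rfl (by rw [add_assoc]))).symm
  have i1 : InQ S s (hy + hz + (0 : ZMod 2) • y + (0 : ZMod 2) • z) (γ • k + hs) :=
    iu.congr e1.symm
  have v1 := vl_congr i1 e1
  rw [vu] at v1
  have e2 := R.wh (a := 0) (b := 0) hs'
  rw [zero_add] at e2
  have i2 := i1.congr e2
  obtain ⟨α', β', v2⟩ := R.dich (a := 1) (b := 1) (by rw [R.e11]; exact n11) i2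
  rw [← vl_congr i1 e2, v1] at v2
  obtain ⟨f1, f2, f3⟩ := R.indt' v2
  subst f2 f3
  have hαβ : α = β := by
    revert f1
    clear * -
    revert α β
    decide
  subst hαβ
  -- `h' = hs + γ k + α s`
  have h1 : C S (hy + hz) (γ • k + hs + α • s) := by
    rw [R.e00] at h0
    refine h0.of_eq rfl ?_
    rw [← R.sum]
    module
  have hs1 : C S s (γ • k + hs + α • s) := hs'.add (C.smul α R.ss)
  set h' := γ • k + hs + α • s with hh'
  -- first contradiction term: `(x + y) (m + h')`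
  have g1 : S.q (hy + hz + y) h' = S.q y h' := ql (h1.of_eq (by
    exact (eo (by abel_nf <;> simp only [ch2, ch3, ch4, ch5, ch6, add_zero, zero_add]))) rfl)
  have g2 := ETC.add_common q2 g1
  have g3 : S.q y (z + (c1 • s + hs + k1) + h') = S.q y (z + (c1 + α) • s) := by
    refine qr ((a1.add (C.smul γ ka)).of_eq rfl ?_)
    rw [hh']
    match_scalars <;> (try ring_nf) <;> (try reduce_mod_char)
  rw [g3] at g2
  obtain ⟨i3, v3⟩ := R.yu0 (c := c1 + α) (C.zero y)
  rw [add_zero] at i3 v3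
  have i4 := (R.yz0.1.add i3).congr g2.symm
  have v4 := vl_congr i4 g2
  rw [vl_add R.yz0.1 i3, R.yz0.2, v3] at v4
  rw [← R.e10] at i4 v4
  obtain ⟨α1, β1, v5⟩ := R.dich (a := 1) (b := 0) (by rw [R.e10]; exact n10) i4
  rw [v4] at v5
  have w1 : (1 + (c1 + α)) • ta S s y + (0 : ZMod 2) • ta S s hy + (0 : ZMod 2) • ta S s hz =
      (α1 * 0 + β1 * 1) • ta S s y + β1 • ta S s hy + α1 • ta S s hz := by
    rw [← v5]; module
  obtain ⟨t1, t2, t3⟩ := R.indt' w1
  rw [← t2, ← t3] at t1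
  -- second contradiction term: `(x + z) (m + h')`
  have r1 : S.q (hy + hz + z) h' = S.q y h' := by
    have r2 : S.q (hy + hz + z) h' = S.q z h' := ql (h1.of_eq (by
      exact (eo (by abel_nf <;> simp only [ch2, ch3, ch4, ch5, ch6, add_zero, zero_add]))) rfl)
    rw [r2]
    exact ql (hs1.of_eq (by rw [← R.sum, add_comm]) rfl)
  have r3 : S.q (hy + hz + z) m = S.q y (c2 • s + hs + k2 + κ • s) := by
    have r4 : S.q m (hy + hz) = S.q y (c2 • s + hs + k2) := by rw [S.symm, q1]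
    have r5 : S.q m z = S.q y (κ • s) := by
      rw [S.symm m z]
      have r6 : S.q z m = S.q z (κ • s) := qr ((R.zz.add kb).of_eq rfl (by
        rw [hm]; match_scalars <;> (try ring_nf) <;> (try reduce_mod_char)))
      rw [r6]
      exact ql ((C.smul κ R.ss).of_eq (by rw [← R.sum, add_comm]) rfl)
    rw [S.symm (hy + hz + z) m]
    exact ETC.add_common r4 r5
  have r7 := ETC.add_common r3 r1
  have r8 : S.q y (c2 • s + hs + k2 + κ • s + h') = S.q y ((c2 + κ + α) • s) := by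
    refine qr ((a2.add (C.smul γ ka)).of_eq rfl ?_)
    rw [hh']
    match_scalars <;> (try ring_nf) <;> (try reduce_mod_char)
  rw [r8] at r7
  obtain ⟨i6, v6⟩ := R.yu0 (c := c2 + κ + α) (C.zero y)
  rw [add_zero] at i6 v6
  have i7 := i6.congr r7.symm
  have v7 := vl_congr i7 r7
  rw [v6] at v7
  rw [← R.e01] at i7 v7
  obtain ⟨α2, β2, v8⟩ := R.dich (a := 0) (b := 1) (by rw [R.e01]; exact n01) i7
  rw [v7] at v8
  have w2 : (c2 + κ + α) • ta S s y + (0 : ZMod 2) • ta S s hy + (0 : ZMod 2) • ta S s hz =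
      (α2 * 1 + β2 * 0) • ta S s y + β2 • ta S s hy + α2 • ta S s hz := by
    rw [← v8]; module
  obtain ⟨t4, t5, t6⟩ := R.indt' w2
  rw [← t5, ← t6] at t4
  rw [hκ] at t4
  revert t1 t4
  clear * -
  revert c1 c2 α
  decide

/-- **step one** -/
theorem step1 : Od S s y hy hz (hy + hz) hs ∨ Od S s y hy hz (hy + hz + y) hs := by
  obtain ⟨u1, s1, p1, -⟩ := R.L1
  obtain ⟨u2, s2, p2, -⟩ := R.L2
  have q1 := R.m1 p1 p2
  have q2 := R.m2 p1 p2
  obtain ⟨c1, d1, k1, a1, b1, e1⟩ := R.ds u1 s1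
  obtain ⟨c2, d2, k2, a2, b2, e2⟩ := R.ds u2 s2
  subst e1 e2
  rcases Pool.Agent.Helper58.PLine.zm d1 with rfl | rfl <;>
    rcases Pool.Agent.Helper58.PLine.zm d2 with rfl | rfl <;>
    simp only [zero_smul, one_smul, add_zero] at q1 q2
  · exact (R.caseA a1 b1 a2 b2 q1).elim
  · exact Or.inr (R.caseD a1 b1 a2 b2 q2)
  · exact Or.inl (R.caseC a1 b1 a2 b2 q1)
  · exact (R.caseB a1 b1 a2 b2 q1 q2).elim

end R3

end Pool.Agent.ETGP
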