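import Pool.Agent.ETGP.Rank3c

/-!
# Structures with at most eight values `q (x, ·)` for every `x`: step two, helper24
-/

set_option autoImplicit false
set_option linter.unusedSectionVars false
set_option linter.unusedSimpArgs false
set_option linter.unusedVariables false
set_option linter.unnecessarySeqFocus false

namespace Pool.Agent.ETGP

open QS
open Pool.Agent.Helper58.PLine (QData)
open Pool.Agent.ETCP
open Pool.Agent.ETPR
open Pool.Agent.ETAL
open Pool.Agent.REG10 (InQ SRg RegE vl ta BX vl_eq vl_x vl_symm vl_add vl_add_left vl_smul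
  vl_smul_left vl_congr vl_of_zero inq_x inq_of_zero ta_eq_iff ta_eq_zero vl_inj vl_zero
  vl_zero_left inq_zero inq_zero_left)

variable {V Q : Type} [AddCommGroup V] [Module (ZMod 2) V] {S : QData V Q}

theorem InQ.cg {w a b a' b' : V} (h : InQ S w a b) (e : S.q a b = S.q a' b') :
    InQ S w a' b' := h.congr e

/-- subtraction of two values of `Q_a` in `Q_w` -/
theorem inq_sub {w a b b' : V} (h : InQ S w a b) (h' : InQ S w a b') : InQ S w a (b + b') :=
  h.add h'

theorem inq_rw {w a b b' : V} (h : InQ S w a b) (e : b = b') : InQ S w a b' := e ▸ h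

namespace R3

variable {y z s hy hz hs : V} (R : R3 S y z s hy hz hs)
include R

/-- `b + c t`, in `Q_s` and in `Q_y` -/
theorem bsy (c : ZMod 2) : S.q s (hz + c • y) = S.q y (hz + c • z) :=
  ETC.add_common R.qyhz.symm (by
    rcases Pool.Agent.Helper58.PLine.zm c with rfl | rfl
    · rw [zero_smul, zero_smul, S.q_zero, S.q_zero]
    · rw [one_smul, one_smul, R.qyz])

theorem qzs : S.q z s = S.q y z := by
  rw [S.symm y z]
  exact qr (R.zz.of_eq rfl R.sum3.symm)

/-- `a + c t`, in `Q_z` and in `Q_y` -/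
theorem azy (c : ZMod 2) : S.q z (hs + c • s) = S.q y (hs + c • z) :=
  ETC.add_common R.qyhs.symm (by
    rcases Pool.Agent.Helper58.PLine.zm c with rfl | rfl
    · rw [zero_smul, zero_smul, S.q_zero, S.q_zero]
    · rw [one_smul, one_smul, R.qzs])

/-- `e + c t`, in `Q_z` and in `Q_s` -/
theorem ezs (c : ZMod 2) : S.q z (hy + c • s) = S.q s (hy + c • y) :=
  ETC.add_common R.qzhy (by
    rcases Pool.Agent.Helper58.PLine.zm c with rfl | rfl
    · rw [zero_smul, zero_smul, S.q_zero, S.q_zero]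
    · rw [one_smul, one_smul, R.qzs, R.qyz])

/-- `w y` -/
theorem vy (a b : ZMod 2) :
    S.q (hy + hz + hs + a • y + b • z) y = S.q y (hz + hs + b • z) := by
  rw [S.symm]
  exact qr ((R.cy.add (C.smul a R.yy)).of_eq rfl (by
    match_scalars <;> (try ring_nf) <;> (try reduce_mod_char)))

/-- `w s` -/
theorem vs (a b : ZMod 2) :
    S.q (hy + hz + hs + a • y + b • z) s = S.q s (hy + hz + (a + b) • y) := by
  rw [S.symm]
  exact qr ((R.cs.add (C.smul b R.ss)).of_eq rfl (by
    rw [← R.sum]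
    match_scalars <;> (try ring_nf) <;> (try reduce_mod_char)))

/-- `w z` is in `Q_z` -/
theorem vz (a b : ZMod 2) : InQ S z (hy + hz + hs + a • y + b • z) z := (inq_x _).symm

/-- from `e + c t` to `b + c' t` -/
theorem ptE {a b c : ZMod 2}
    (h : InQ S (hy + hz + hs + a • y + b • z) s (hy + c • y)) :
    InQ S (hy + hz + hs + a • y + b • z) s (hz + (c + a + b) • y) := by
  have h1 : InQ S (hy + hz + hs + a • y + b • z) s (hy + hz + (a + b) • y) :=
    ⟨s, (R.vs a b).symm⟩
  refine inq_rw (h.add h1) ?_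
  match_scalars <;> (try ring_nf) <;> (try reduce_mod_char)

/-- from `b + c t` to `e + c' t` -/
theorem ptE' {a b c : ZMod 2}
    (h : InQ S (hy + hz + hs + a • y + b • z) s (hz + c • y)) :
    InQ S (hy + hz + hs + a • y + b • z) s (hy + (c + a + b) • y) := by
  have h1 : InQ S (hy + hz + hs + a • y + b • z) s (hy + hz + (a + b) • y) :=
    ⟨s, (R.vs a b).symm⟩
  refine inq_rw (h.add h1) ?_
  match_scalars <;> (try ring_nf) <;> (try reduce_mod_char)

/-- from `a + c t` to `b + c' t` -/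
theorem ptA {a b c : ZMod 2}
    (h : InQ S (hy + hz + hs + a • y + b • z) y (hs + c • z)) :
    InQ S (hy + hz + hs + a • y + b • z) s (hz + (c + b) • y) := by
  have h1 : InQ S (hy + hz + hs + a • y + b • z) y (hz + hs + b • z) :=
    ⟨y, (R.vy a b).symm⟩
  refine InQ.congr (inq_rw (h.add h1) (b' := hz + (c + b) • z) ?_) (R.bsy _).symm
  match_scalars <;> (try ring_nf) <;> (try reduce_mod_char)

/-- from `b + c t` to `a + c' t` -/
theorem ptA' {a b c : ZMod 2}
    (h : InQ S (hy + hz + hs + a • y + b • z) s (hz + c • y)) :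
    InQ S (hy + hz + hs + a • y + b • z) y (hs + (c + b) • z) := by
  have h1 : InQ S (hy + hz + hs + a • y + b • z) y (hz + hs + b • z) :=
    ⟨y, (R.vy a b).symm⟩
  refine inq_rw ((h.congr (R.bsy _)).add h1) ?_
  match_scalars <;> (try ring_nf) <;> (try reduce_mod_char)

/-- four independent values in one `Q_w` -/
theorem four {w gt gb ga ge : V} (h1 : S.q y z = S.q w gt) (h2 : S.q y hz = S.q w gb)
    (h3 : S.q y hs = S.q w ga) (h4 : S.q s hy = S.q w ge) : False := by
  obtain ⟨c, hc, h⟩ := R.rk w ![gt, gb, ga, ge]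
  rw [Fin.sum_univ_four] at h
  simp only [Matrix.cons_val_zero, Matrix.cons_val_one, Matrix.cons_val] at h
  have sm : ∀ (c : ZMod 2) {a b a' b' : V}, S.q a b = S.q a' b' →
      S.q a (c • b) = S.q a' (c • b') := by
    intro c a b a' b' h
    rcases Pool.Agent.Helper58.PLine.zm c with rfl | rfl
    · rw [zero_smul, zero_smul, S.q_zero, S.q_zero]
    · rwa [one_smul, one_smul]
  have h5 : S.q y (c 0 • z + c 1 • hz + c 2 • hs) = S.q w (c 0 • gt + c 1 • gb + c 2 • ga) :=
    ETC.add_common (ETC.add_common (sm _ h1) (sm _ h2)) (sm _ h3)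
  rcases Pool.Agent.Helper58.PLine.zm (c 3) with h0 | h0
  · rw [h0, zero_smul, add_zero] at h
    have h6 : C S y (c 0 • z + c 1 • hz + c 2 • hs) := by
      show S.q y _ = S.z
      rw [h5]; exact h
    obtain ⟨i0, i1, i2⟩ := R.rot.ind h6
    apply hc
    funext i
    fin_cases i
    · exact i0
    · exact i1
    · exact i2
    · exact h0
  · rw [h0, one_smul] at h
    have h6 : S.q w ge = S.q w (c 0 • gt + c 1 • gb + c 2 • ga) :=
      (qr h).symm
    exact R.ey ⟨_, (R.qzhy.trans h4).trans (h6.trans h5.symm)⟩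

/-- **no `t`** -/
theorem nt {a b c c' : ZMod 2}
    (h : InQ S (hy + hz + hs + a • y + b • z) s (hz + c • y))
    (h' : InQ S (hy + hz + hs + a • y + b • z) s (hz + c' • y)) : c = c' := by
  by_contra hne
  have hcc : c + c' = 1 := by
    revert hne
    clear * -
    revert c c'
    decide
  have it : InQ S (hy + hz + hs + a • y + b • z) s y := by
    refine inq_rw (h.add h') ?_
    rw [show hz + c • y + (hz + c' • y) = (c + c') • y by
      match_scalars <;> (try ring_nf) <;> (try reduce_mod_char), hcc, one_smul]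
  have ib : InQ S (hy + hz + hs + a • y + b • z) s hz := by
    refine inq_rw (h.add (it.smul c)) ?_
    match_scalars <;> (try ring_nf) <;> (try reduce_mod_char)
  have ie : InQ S (hy + hz + hs + a • y + b • z) s hy := by
    refine inq_rw ((R.ptE' h).add (it.smul (c + a + b))) ?_
    match_scalars <;> (try ring_nf) <;> (try reduce_mod_char)
  have it' : InQ S (hy + hz + hs + a • y + b • z) y z := it.congr R.qyz.symm
  have ia : InQ S (hy + hz + hs + a • y + b • z) y hs := by
    refine inq_rw ((R.ptA' h).add (it'.smul (c + b))) ?_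
    match_scalars <;> (try ring_nf) <;> (try reduce_mod_char)
  obtain ⟨gt, h1⟩ := it'
  obtain ⟨gb, h2⟩ := ib.congr R.qyhz.symm
  obtain ⟨ga, h3⟩ := ia
  obtain ⟨ge, h4⟩ := ie
  exact R.four h1 h2 h3 h4

/-! ### Edges -/

theorem v1 {a b a' b' : ZMod 2} {k : V} (h : C S ((a + a') • y + (b + b') • z) k) :
    S.q (hy + hz + hs + a • y + b • z) k = S.q (hy + hz + hs + a' • y + b' • z) k :=
  ql (h.of_eq (by match_scalars <;> (try ring_nf) <;> (try reduce_mod_char)) rfl)

theorem vhs (a b : ZMod 2) : S.q (hy + hz + hs + a • y + b • z) hs =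
    S.q (hy + hz + hs + (a + 1) • y + (b + 1) • z) hs :=
  R.v1 (R.cs.of_eq (by
    rw [← R.sum]; match_scalars <;> (try ring_nf) <;> (try reduce_mod_char)) rfl)

theorem vhy (a b : ZMod 2) : S.q (hy + hz + hs + a • y + b • z) hy =
    S.q (hy + hz + hs + (a + 1) • y + b • z) hy :=
  R.v1 (R.cy.of_eq (by match_scalars <;> (try ring_nf) <;> (try reduce_mod_char)) rfl)

theorem vhz (a b : ZMod 2) : S.q (hy + hz + hs + a • y + b • z) hz =
    S.q (hy + hz + hs + a • y + (b + 1) • z) hz :=
  R.v1 (R.cz.of_eq (by match_scalars <;> (try ring_nf) <;> (try reduce_mod_char)) rfl)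

/-- the `s`-edge -/
theorem edgeS {a b : ZMod 2} (h : Od S s y hy hz (hy + hz + hs + a • y + b • z) hs) :
    ∃ c : ZMod 2, InQ S (hy + hz + hs + a • y + b • z) s (hz + c • y) ∧
      InQ S (hy + hz + hs + (a + 1) • y + (b + 1) • z) s (hz + c • y) := by
  obtain ⟨g, c, hg, e⟩ := h
  have e' := (R.vhs a b).symm.trans e
  rcases hg with rfl | rfl
  · refine ⟨c + a + b, R.ptE ⟨_, e.symm⟩, ?_⟩
    refine inq_rw (R.ptE (⟨_, e'.symm⟩)) ?_
    match_scalars <;> (try ring_nf) <;> (try reduce_mod_char)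
  · exact ⟨c, ⟨_, e.symm⟩, ⟨_, e'.symm⟩⟩

/-- the `y`-edge -/
theorem edgeY {a b : ZMod 2} (h : Od S y z hz hs (hy + hz + hs + a • y + b • z) hy) :
    ∃ c : ZMod 2, InQ S (hy + hz + hs + a • y + b • z) s (hz + c • y) ∧
      InQ S (hy + hz + hs + (a + 1) • y + b • z) s (hz + c • y) := by
  obtain ⟨g, c, hg, e⟩ := h
  have e' := (R.vhy a b).symm.trans e
  rcases hg with rfl | rfl
  · exact ⟨c, ⟨_, (R.bsy c).trans e.symm⟩, ⟨_, (R.bsy c).trans e'.symm⟩⟩
  · exact ⟨c + b, R.ptA ⟨_, e.symm⟩, R.ptA ⟨_, e'.symm⟩⟩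

/-- the `z`-edge -/
theorem edgeZ {a b : ZMod 2} (h : Od S z s hs hy (hy + hz + hs + a • y + b • z) hz) :
    ∃ c : ZMod 2, InQ S (hy + hz + hs + a • y + b • z) s (hz + c • y) ∧
      InQ S (hy + hz + hs + a • y + (b + 1) • z) s (hz + (c + 1) • y) := by
  obtain ⟨g, c, hg, e⟩ := h
  have e' := (R.vhz a b).symm.trans e
  rcases hg with rfl | rfl
  · refine ⟨c + b, R.ptA ⟨_, (R.azy c).symm.trans e.symm⟩, ?_⟩
    refine inq_rw (R.ptA ⟨_, (R.azy c).symm.trans e'.symm⟩) ?_
    match_scalars <;> (try ring_nf) <;> (try reduce_mod_char)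
  · refine ⟨c + a + b, R.ptE ⟨_, (R.ezs c).symm.trans e.symm⟩, ?_⟩
    refine inq_rw (R.ptE ⟨_, (R.ezs c).symm.trans e'.symm⟩) ?_
    match_scalars <;> (try ring_nf) <;> (try reduce_mod_char)

/-- **no star** -/
theorem star {a b : ZMod 2} (h1 : Od S s y hy hz (hy + hz + hs + a • y + b • z) hs)
    (h2 : Od S y z hz hs (hy + hz + hs + a • y + b • z) hy)
    (h3 : Od S z s hs hy (hy + hz + hs + a • y + b • z) hz) : False := by
  obtain ⟨c, pc, -⟩ := R.edgeS h1
  set w := hy + hz + hs + a • y + b • z with hw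
  obtain ⟨gb, hgb⟩ := id pc
  -- the values of `gb + y`, `gb + s`
  have ha : S.q y (hs + (c + b) • z) = S.q w (gb + y) := by
    have e1 : S.q y (hz + c • z) = S.q w gb := (R.bsy c).symm.trans hgb
    have e2 := ETC.add_common e1 (R.vy a b).symm
    rw [← e2]
    congr 1
    match_scalars <;> (try ring_nf) <;> (try reduce_mod_char)
  have hee : S.q s (hy + (c + a + b) • y) = S.q w (gb + s) := by
    have e2 := ETC.add_common hgb (R.vs a b).symm
    rw [← e2]
    congr 1
    match_scalars <;> (try ring_nf) <;> (try reduce_mod_char)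
  -- `hs`
  have r1 : ∃ k : ZMod 2, C S w (hs + gb + k • s) := by
    obtain ⟨g, d, hg, e⟩ := h1
    rcases hg with rfl | rfl
    · have := R.nt pc (R.ptE ⟨_, e.symm⟩)
      have hd : d = c + a + b := by
        rw [this]; ring_nf; reduce_mod_char
      rw [hd, hee] at e
      exact ⟨1, (q_eq_iff.1 e).of_eq rfl (by rw [one_smul, add_assoc])⟩
    · have hd := R.nt pc ⟨_, e.symm⟩
      rw [← hd, hgb] at e
      exact ⟨0, (q_eq_iff.1 e).of_eq rfl (by rw [zero_smul, add_zero])⟩
  have r2 : ∃ k : ZMod 2, C S w (hy + gb + k • y) := by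
    obtain ⟨g, d, hg, e⟩ := h2
    rcases hg with rfl | rfl
    · have hd := R.nt pc ⟨_, (R.bsy d).trans e.symm⟩
      rw [← hd, ← R.bsy, hgb] at e
      exact ⟨0, (q_eq_iff.1 e).of_eq rfl (by rw [zero_smul, add_zero])⟩
    · have := R.nt pc (R.ptA ⟨_, e.symm⟩)
      have hd : d = c + b := by
        rw [this]; ring_nf; reduce_mod_char
      rw [hd, ha] at e
      exact ⟨1, (q_eq_iff.1 e).of_eq rfl (by rw [one_smul, add_assoc])⟩
  have r3 : ∃ k : ZMod 2, C S w (hz + gb + y + k • z) := by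
    obtain ⟨g, d, hg, e⟩ := h3
    rcases hg with rfl | rfl
    · have := R.nt pc (R.ptA ⟨_, (R.azy d).symm.trans e.symm⟩)
      have hd : d = c + b := by
        rw [this]; ring_nf; reduce_mod_char
      rw [hd, R.azy, ha] at e
      exact ⟨0, (q_eq_iff.1 e).of_eq rfl (by rw [zero_smul, add_zero, add_assoc])⟩
    · have := R.nt pc (R.ptE ⟨_, (R.ezs d).symm.trans e.symm⟩)
      have hd : d = c + a + b := by
        rw [this]; ring_nf; reduce_mod_char
      rw [hd, R.ezs, hee] at e
      exact ⟨1, (q_eq_iff.1 e).of_eq rfl (by rw [← R.sum, one_smul, add_assoc, add_assoc])⟩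
  obtain ⟨k1, r1⟩ := r1
  obtain ⟨k2, r2⟩ := r2
  obtain ⟨k3, r3⟩ := r3
  have r4 : C S w w := C.self R.he w
  -- `w (gb + α y + β z) = 0`
  have r5 : ∃ α β : ZMod 2, C S w (gb + (α • y + β • z)) := by
    refine ⟨a + k1 + k2 + 1, b + k1 + k3, (((r1.add r2).add r3).add r4).of_eq rfl ?_⟩
    rw [hw, ← R.sum]
    match_scalars <;> (try ring_nf) <;> (try reduce_mod_char)
  obtain ⟨α, β, r5⟩ := r5
  have r6 : S.q s (hz + c • y) = S.q w (α • y + β • z) := hgb.trans (qr r5)
  rcases Pool.Agent.Helper58.PLine.zm α with h0 | h0 <;>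
    rcases Pool.Agent.Helper58.PLine.zm β with h0' | h0' <;>
    rw [h0, h0'] at r6
  · -- `0`
    rw [zero_smul, zero_smul, add_zero, S.q_zero] at r6
    have : C S s (c • y + (0 : ZMod 2) • hy + (1 : ZMod 2) • hz) :=
      C.of_eq (S := S) r6 rfl (by module)
    exact absurd (R.ind this).2.2 (by decide)
  · -- `z`
    rw [zero_smul, one_smul, zero_add] at r6
    have i1 : InQ S z s (hz + c • y) := ⟨_, r6.trans (S.symm w z)⟩
    have i2 : InQ S z s y := ⟨y, by rw [← R.qyz, S.symm]⟩
    exact R.ez (inq_rw (i1.add (i2.smul c)) (by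
      match_scalars <;> (try ring_nf) <;> (try reduce_mod_char)))
  · -- `y`
    rw [zero_smul, one_smul, add_zero, R.vy, R.bsy] at r6
    have : C S y ((c + b) • z + (0 : ZMod 2) • hz + (1 : ZMod 2) • hs) :=
      C.of_eq (S := S) (q_eq_iff.1 r6) rfl (by
        match_scalars <;> (try ring_nf) <;> (try reduce_mod_char))
    exact absurd (R.rot.ind this).2.2 (by decide)
  · -- `s`
    rw [one_smul, one_smul, R.sum, R.vs] at r6
    have : C S s ((c + (a + b)) • y + (1 : ZMod 2) • hy + (0 : ZMod 2) • hz) :=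
      C.of_eq (S := S) (q_eq_iff.1 r6) rfl (by
        match_scalars <;> (try ring_nf) <;> (try reduce_mod_char))
    exact absurd (R.ind this).2.1 (by decide)

end R3

end Pool.Agent.ETGP
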