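import Pool.Agent.ETGP.Rank3d

/-!
# Structures with at most eight values `q (x, ·)` for every `x` are of elementary type, helper24
-/

set_option autoImplicit false
set_option linter.unusedSectionVars false
set_option linter.unusedSimpArgs false
set_option linter.unusedVariables false
set_option linter.unnecessarySeqFocus false

namespace Pool.Agent.ETGP

open QS
open Pool.Agent.Helper58.PLine (QData)
open Pool.Agent.ETCP
open Pool.Agent.ETPR
open Pool.Agent.ETAL
open Pool.Agent.REG10 (InQ SRg RegE vl ta BX vl_eq vl_x vl_symm vl_add vl_add_left vl_smul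
  vl_smul_left vl_congr vl_of_zero inq_x inq_of_zero ta_eq_iff ta_eq_zero vl_inj vl_zero
  vl_zero_left inq_zero inq_zero_left)

variable {V Q : Type} [AddCommGroup V] [Module (ZMod 2) V] {S : QData V Q}

theorem Od.tr {s y hy hz w w' h h' : V} (o : Od S s y hy hz w h) (e : S.q w h = S.q w' h') :
    Od S s y hy hz w' h' := by
  obtain ⟨g, c, hg, e'⟩ := o
  exact ⟨g, c, hg, e.symm.trans e'⟩

namespace R3

variable {y z s hy hz hs : V} (R : R3 S y z s hy hz hs)
include R

theorem ths {a b : ZMod 2} (o : Od S s y hy hz (hy + hz + hs + a • y + b • z) hs) :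
    Od S s y hy hz (hy + hz + hs + (a + 1) • y + (b + 1) • z) hs := o.tr (R.vhs a b)

theorem thy {a b : ZMod 2} (o : Od S y z hz hs (hy + hz + hs + a • y + b • z) hy) :
    Od S y z hz hs (hy + hz + hs + (a + 1) • y + b • z) hy := o.tr (R.vhy a b)

theorem thz {a b : ZMod 2} (o : Od S z s hs hy (hy + hz + hs + a • y + b • z) hz) :
    Od S z s hs hy (hy + hz + hs + a • y + (b + 1) • z) hz := o.tr (R.vhz a b)

theorem oS : Od S s y hy hz (hy + hz + hs + (0 : ZMod 2) • y + (0 : ZMod 2) • z) hs ∨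
    Od S s y hy hz (hy + hz + hs + (1 : ZMod 2) • y + (0 : ZMod 2) • z) hs := by
  rcases R.step1 with o | o
  · refine Or.inl (o.tr (ql ((C.self R.he hs).of_eq ?_ rfl)))
    match_scalars <;> (try ring_nf) <;> (try reduce_mod_char)
  · refine Or.inr (o.tr (ql ((C.self R.he hs).of_eq ?_ rfl)))
    match_scalars <;> (try ring_nf) <;> (try reduce_mod_char)

theorem oY : Od S y z hz hs (hy + hz + hs + (0 : ZMod 2) • y + (0 : ZMod 2) • z) hy ∨
    Od S y z hz hs (hy + hz + hs + (0 : ZMod 2) • y + (1 : ZMod 2) • z) hy := by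
  rcases R.rot.step1 with o | o
  · refine Or.inl (o.tr (ql ((C.self R.he hy).of_eq ?_ rfl)))
    match_scalars <;> (try ring_nf) <;> (try reduce_mod_char)
  · refine Or.inr (o.tr (ql ((C.self R.he hy).of_eq ?_ rfl)))
    match_scalars <;> (try ring_nf) <;> (try reduce_mod_char)

theorem oZ : Od S z s hs hy (hy + hz + hs + (0 : ZMod 2) • y + (0 : ZMod 2) • z) hz ∨
    Od S z s hs hy (hy + hz + hs + (1 : ZMod 2) • y + (1 : ZMod 2) • z) hz := by
  rcases R.rot.rot.step1 with o | o
  · refine Or.inl (o.tr (ql ((C.self R.he hz).of_eq ?_ rfl)))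
    match_scalars <;> (try ring_nf) <;> (try reduce_mod_char)
  · refine Or.inr (o.tr (ql ((C.self R.he hz).of_eq ?_ rfl)))
    rw [← R.sum]
    match_scalars <;> (try ring_nf) <;> (try reduce_mod_char)

theorem contra : False := by
  have h11 : (1 : ZMod 2) + 1 = 0 := rfl
  rcases R.oS with o1 | o1 <;> rcases R.oY with o2 | o2 <;> rcases R.oZ with o3 | o3
  · exact R.star o1 o2 o3
  · -- s 00-11, y 00-10, z 11-10
    obtain ⟨c1, p1, p1'⟩ := R.edgeS o1
    obtain ⟨c2, p2, p2'⟩ := R.edgeY o2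
    obtain ⟨c3, p3, p3'⟩ := R.edgeZ o3
    simp only [zero_add, h11] at p1' p2' p3'
    have t1 := R.nt p1 p2
    have t2 := R.nt p1' p3
    have t3 := R.nt p2' p3'
    rw [← t1, ← t2] at t3
    revert t3; clear * -; revert c1; decide
  · -- s 00-11, y 01-11, z 00-01
    obtain ⟨c1, p1, p1'⟩ := R.edgeS o1
    obtain ⟨c2, p2, p2'⟩ := R.edgeY o2
    obtain ⟨c3, p3, p3'⟩ := R.edgeZ o3
    simp only [zero_add, h11] at p1' p2' p3'
    have t1 := R.nt p1 p3
    have t2 := R.nt p1' p2'
    have t3 := R.nt p2 p3'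
    rw [← t1, ← t2] at t3
    revert t3; clear * -; revert c1; decide
  · -- star at 11
    have o1' := R.ths o1
    have o2' := R.thy o2
    simp only [zero_add] at o1' o2'
    exact R.star o1' o2' o3
  · -- s 10-01, y 00-10, z 00-01
    obtain ⟨c1, p1, p1'⟩ := R.edgeS o1
    obtain ⟨c2, p2, p2'⟩ := R.edgeY o2
    obtain ⟨c3, p3, p3'⟩ := R.edgeZ o3
    simp only [zero_add, h11] at p1' p2' p3'
    have t1 := R.nt p2 p3
    have t2 := R.nt p1 p2'
    have t3 := R.nt p1' p3'
    rw [← t1, t2] at t3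
    revert t3; clear * -; revert c2; decide
  · -- star at 10
    have o2' := R.thy o2
    have o3' := R.thz o3
    simp only [zero_add, h11] at o2' o3'
    exact R.star o1 o2' o3'
  · -- star at 01
    have o1' := R.ths o1
    have o3' := R.thz o3
    simp only [zero_add, h11] at o1' o3'
    exact R.star o1' o2 o3'
  · -- s 10-01, y 01-11, z 11-10
    obtain ⟨c1, p1, p1'⟩ := R.edgeS o1
    obtain ⟨c2, p2, p2'⟩ := R.edgeY o2
    obtain ⟨c3, p3, p3'⟩ := R.edgeZ o3
    simp only [zero_add, h11] at p1' p2' p3'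
    have t1 := R.nt p1' p2
    have t2 := R.nt p2' p3
    have t3 := R.nt p1 p3'
    rw [t1, t2] at t3
    revert t3; clear * -; revert c3; decide

end R3

end Pool.Agent.ETGP
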