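import Pool.Agent.ETGP.Rank3e

/-!
# Structures with at most eight values `q (x, ·)` for every `x` are of elementary type, helper24
-/

set_option autoImplicit false
set_option linter.unusedSectionVars false
set_option linter.unusedSimpArgs false
set_option linter.unusedVariables false
set_option linter.unnecessarySeqFocus false

namespace Pool.Agent.ETGP

open QS
open Pool.Agent.Helper58.PLine (QData)
open Pool.Agent.ETCP
open Pool.Agent.ETPR
open Pool.Agent.ETAL
open Pool.Agent.REG10 (InQ SRg RegE vl ta BX)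

variable {V Q : Type} [AddCommGroup V] [Module (ZMod 2) V] {S : QData V Q}

theorem idx2 [Finite V] {A B : Submodule (ZMod 2) V} (hle : A ≤ B)
    (hc : Nat.card B ≤ 2 * Nat.card A) {x u : V} (hx : x ∈ B) (hxA : x ∉ A) (hu : u ∈ B) :
    ∃ c : ZMod 2, u + c • x ∈ A := by
  by_contra hn
  push Not at hn
  have h1 : 2 * Nat.card A ≤ Nat.card (A ⊔ Submodule.span (ZMod 2) {x} : Submodule (ZMod 2) V) :=
    half le_sup_left (w := x) (Submodule.mem_sup_right (Submodule.mem_span_singleton_self x)) hxA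
  have h2 : (A ⊔ Submodule.span (ZMod 2) {x} : Submodule (ZMod 2) V) ≤ B :=
    sup_le hle (by rw [Submodule.span_singleton_le_iff_mem]; exact hx)
  have h3 : u ∉ (A ⊔ Submodule.span (ZMod 2) {x} : Submodule (ZMod 2) V) := by
    intro h
    rw [Submodule.mem_sup] at h
    obtain ⟨a, ha, b, hb, e⟩ := h
    obtain ⟨c, rfl⟩ := Submodule.mem_span_singleton.1 hb
    apply hn c
    rw [← e, Pool.Agent.Helper58.PLine.add_self_add]
    exact ha
  have h4 := half h2 hu h3
  have h5 : 0 < Nat.card A := Nat.card_pos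
  omega

theorem dep4 [Finite V] {w : V} (h : Nat.card V ≤ 8 * Nat.card (S.ann w)) (g : Fin 4 → V) :
    ∃ c : Fin 4 → ZMod 2, c ≠ 0 ∧ C S w (∑ i, c i • g i) := by
  by_contra hn
  push Not at hn
  let F : (Fin 4 → ZMod 2) →ₗ[ZMod 2] BX S w :=
    (ta S w).comp (Fintype.linearCombination (ZMod 2) g)
  have hF : Function.Injective F := by
    rw [← LinearMap.ker_eq_bot, Submodule.eq_bot_iff]
    intro c hc
    by_contra h0
    apply hn c h0
    have h1 : ta S w (∑ i, c i • g i) = 0 := hc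
    exact REG10.ta_eq_zero.1 h1
  have h1 := Nat.card_le_card_of_injective F hF
  have h2 : Nat.card (Fin 4 → ZMod 2) = 16 := by
    rw [Nat.card_eq_fintype_card, Fintype.card_fun, ZMod.card, Fintype.card_fin]; norm_num
  have h3 := Submodule.card_eq_card_quotient_mul_card (S.ann w)
  have h4 : 0 < Nat.card (S.ann w) := Nat.card_pos
  rw [h2] at h1
  have h5 : 16 * Nat.card (S.ann w) ≤ Nat.card (V ⧸ S.ann w) * Nat.card (S.ann w) :=
    Nat.mul_le_mul_right _ h1
  rw [mul_comm (Nat.card (V ⧸ S.ann w))] at h5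
  omega

/-- the data of one point -/
theorem pt [Finite V] (he : S.e = 0) {y z s : V} (hs : y + z = s) (hyz : ¬ C S y z) {k : ℕ}
    (hk : Nat.card (S.ann y ⊓ S.ann z : Submodule (ZMod 2) V) = k)
    (hy : Nat.card (S.ann y) = 4 * k) (hz : Nat.card (S.ann z) = 4 * k)
    (hs4 : Nat.card (S.ann s) = 4 * k)
    (hV : Nat.card V = 32 * k)
    (htop : S.ann y ⊔ (S.ann z ⊔ S.ann s) = ⊤) :
    (∃ h, C S y h ∧ ¬ InQ S y z h) ∧
    ∀ h, C S y h → ¬ InQ S y z h → ∀ u, C S y u → ∃ (c d : ZMod 2) (k : V),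
      C S y k ∧ C S z k ∧ u = c • y + d • h + k := by
  have hk0 : 0 < k := by rw [← hk]; exact Nat.card_pos
  have hs' : z + y = s := by rw [add_comm]; exact hs
  have hM : MZ S y z = S.ann z ⊔ S.ann s := by
    unfold MZ; rw [hs']
  -- `|M| = 16 k`
  have e1 := card_MZ (S := S) y z
  rw [hk, hs', hz, hs4] at e1
  have e2 : Nat.card (MZ S y z) = 16 * k := by
    have : Nat.card (MZ S y z) * k = (16 * k) * k := by rw [e1]; ring
    exact Nat.eq_of_mul_eq_mul_right hk0 this
  -- `|V_y ∩ M| = 2 k`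
  have e3 := card_sup_inf (S.ann y) (MZ S y z)
  rw [hy, e2, hM, htop, Nat.card_congr Submodule.topEquiv.toEquiv, hV, ← hM] at e3
  have e4 : Nat.card (S.ann y ⊓ MZ S y z : Submodule (ZMod 2) V) = 2 * k := by
    have : (32 * k) * Nat.card (S.ann y ⊓ MZ S y z : Submodule (ZMod 2) V) =
      (32 * k) * (2 * k) := by rw [← e3]; ring
    exact Nat.eq_of_mul_eq_mul_left (by omega) this
  refine ⟨?_, ?_⟩
  · by_contra hn
    push Not at hn
    have : S.ann y ≤ (S.ann y ⊓ MZ S y z : Submodule (ZMod 2) V) := by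
      intro h hh
      exact ⟨hh, mem_MZ.2 (InQ.symm (x := y) (hn h hh)).symm⟩
    have h2 := Nat.card_mono (Set.toFinite _) this
    have h3 : Nat.card (S.ann y) ≤ Nat.card (S.ann y ⊓ MZ S y z : Submodule (ZMod 2) V) := h2
    omega
  · intro h hh hn u hu
    have hhM : h ∉ (S.ann y ⊓ MZ S y z : Submodule (ZMod 2) V) := fun hx => hn (mem_MZ.1 hx.2)
    obtain ⟨d, hd⟩ := idx2 (A := (S.ann y ⊓ MZ S y z : Submodule (ZMod 2) V)) (B := S.ann y)
      inf_le_left (by omega) (x := h) hh hhM (u := u) hu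
    have hle : (S.ann y ⊓ S.ann z : Submodule (ZMod 2) V) ≤ S.ann y ⊓ MZ S y z :=
      fun v hv => ⟨hv.1, Submodule.mem_sup_left hv.2⟩
    have hyM : y ∈ (S.ann y ⊓ MZ S y z : Submodule (ZMod 2) V) :=
      ⟨C.self he y, mem_MZ.2 ⟨z, S.symm z y⟩⟩
    obtain ⟨c, hc⟩ := idx2 hle (by omega) hyM (fun h => hyz (C.symm (S := S) h.2)) hd
    refine ⟨c, d, u + d • h + c • y, hc.1, hc.2, ?_⟩
    match_scalars <;> (try ring_nf) <;> (try reduce_mod_char)

theorem mul_tight {a b d : ℕ} (ha : d ≤ a) (hb : d ≤ b) (hd : 0 < d) (h : a * b ≤ d * d) :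
    a = d ∧ b = d := by
  constructor
  · by_contra hne
    have h1 : d + 1 ≤ a := by omega
    have h2 : (d + 1) * d ≤ a * b := Nat.mul_le_mul h1 hb
    have h3 : (d + 1) * d = d * d + d := by ring
    omega
  · by_contra hne
    have h1 : d + 1 ≤ b := by omega
    have h2 : d * (d + 1) ≤ a * b := Nat.mul_le_mul ha h1
    have h3 : d * (d + 1) = d * d + d := by ring
    omega

/-- all indices at most eight: the element `y` of maximal rank and a bad `z` give the
configuration -/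
theorem r3_of [Finite V] (he : S.e = 0) (h8 : ∀ x, Nat.card V ≤ 8 * Nat.card (S.ann x))
    {y w z : V} (hy : ∀ x, Nat.card (S.ann y) ≤ Nat.card (S.ann x)) (hw : C S y w)
    (hzw : ¬ InQ S y z w) (hyz : ¬ C S y z) : False := by
  have hw' : w ∈ S.ann y := hw
  obtain ⟨s, hs⟩ : ∃ s, y + z = s := ⟨_, rfl⟩
  have hs' : z + y = s := by rw [add_comm]; exact hs
  have hs2 : z + s = y := by
    rw [← hs]; exact (eo (by abel_nf <;> simp only [ch2, ch3, ch4, ch5, ch6, add_zero, zero_add]))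
  have hs3 : s + y = z := by
    rw [← hs]; exact (eo (by abel_nf <;> simp only [ch2, ch3, ch4, ch5, ch6, add_zero, zero_add]))
  have hM : MZ S y z = S.ann z ⊔ S.ann s := by
    unfold MZ; rw [hs']
  have hwM : w ∉ MZ S y z := fun h => hzw (mem_MZ.1 h)
  have hyM : y ∈ (S.ann y ⊓ MZ S y z : Submodule (ZMod 2) V) :=
    ⟨C.self he y, mem_MZ.2 ⟨z, S.symm z y⟩⟩
  have hyK : y ∉ (S.ann y ⊓ S.ann z : Submodule (ZMod 2) V) :=
    fun h => hyz (C.symm (S := S) h.2)
  have hle : (S.ann y ⊓ S.ann z : Submodule (ZMod 2) V) ≤ S.ann y ⊓ MZ S y z :=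
    fun v hv => ⟨hv.1, Submodule.mem_sup_left hv.2⟩
  have g1 : 2 * Nat.card (S.ann y ⊓ S.ann z : Submodule (ZMod 2) V) ≤
      Nat.card (S.ann y ⊓ MZ S y z : Submodule (ZMod 2) V) := half hle hyM hyK
  have g2 : 2 * Nat.card (S.ann y ⊓ MZ S y z : Submodule (ZMod 2) V) ≤ Nat.card (S.ann y) :=
    half inf_le_left hw' fun h => hwM h.2
  have g3 : 2 * Nat.card (MZ S y z) ≤ Nat.card (⊤ : Submodule (ZMod 2) V) :=
    half le_top (w := w) Submodule.mem_top hwM
  rw [Nat.card_congr Submodule.topEquiv.toEquiv] at g3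
  have g4 := card_MZ (S := S) y z
  rw [hs'] at g4
  have g5 := h8 y
  have g6 := hy z
  have g7 := hy s
  have k0 : 0 < Nat.card (S.ann y ⊓ S.ann z : Submodule (ZMod 2) V) := Nat.card_pos
  have d0 : 0 < Nat.card (S.ann y) := Nat.card_pos
  obtain ⟨k, hk⟩ : ∃ k, Nat.card (S.ann y ⊓ S.ann z : Submodule (ZMod 2) V) = k := ⟨_, rfl⟩
  obtain ⟨d, hd⟩ : ∃ d, Nat.card (S.ann y) = d := ⟨_, rfl⟩
  obtain ⟨n, hn⟩ : ∃ n, Nat.card V = n := ⟨_, rfl⟩
  obtain ⟨m, hm⟩ : ∃ m, Nat.card (MZ S y z) = m := ⟨_, rfl⟩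
  obtain ⟨t, ht⟩ : ∃ t, Nat.card (S.ann y ⊓ MZ S y z : Submodule (ZMod 2) V) = t := ⟨_, rfl⟩
  rw [hk] at g1 g4 k0
  rw [hd] at g2 g5 g6 g7 d0
  rw [hn] at g3 g5
  rw [hm] at g3 g4
  rw [ht] at g1 g2
  have g8 : 4 * k ≤ d := by omega
  -- `a b = m k`, `8 m k ≤ n d ≤ 8 d d`
  have g9 : m * k * 8 ≤ d * d * 8 := by
    calc m * k * 8 = (2 * m) * (4 * k) := by ring
      _ ≤ n * d := Nat.mul_le_mul g3 g8
      _ ≤ (8 * d) * d := Nat.mul_le_mul_right _ g5
      _ = d * d * 8 := by ring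
  have g10 : Nat.card (S.ann z) * Nat.card (S.ann s) ≤ d * d := by
    rw [← g4]; omega
  obtain ⟨hz4, hs4⟩ := mul_tight g6 g7 d0 g10
  rw [hz4, hs4] at g4
  -- equality everywhere
  have g11 : 4 * k = d := by
    by_contra hne
    have h1 : 4 * k + 1 ≤ d := by omega
    have h2 : (2 * m) * (4 * k + 1) ≤ (8 * d) * d :=
      Nat.mul_le_mul (g3.trans g5) h1
    have h3 : (2 * m) * (4 * k + 1) = 8 * (m * k) + 2 * m := by ring
    have h4 : (8 * d) * d = 8 * (d * d) := by ring
    have h5 : 0 < m := by rw [← hm]; exact Nat.card_pos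
    rw [h3, h4, g4] at h2
    omega
  have g12 : m = 16 * k := by
    have : m * k = (16 * k) * k := by rw [g4, ← g11]; ring
    exact Nat.eq_of_mul_eq_mul_right k0 this
  have g13 : n = 32 * k := by omega
  have hyk : Nat.card (S.ann y) = 4 * k := by rw [hd, g11]
  have hzk : Nat.card (S.ann z) = 4 * k := by rw [hz4, g11]
  have hsk : Nat.card (S.ann s) = 4 * k := by rw [hs4, g11]
  have hVk : Nat.card V = 32 * k := by rw [hn, g13]
  -- the sum of the three subspaces
  have htop : S.ann y ⊔ (S.ann z ⊔ S.ann s) = ⊤ := by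
    by_contra hne
    have hlt : (S.ann z ⊔ S.ann s : Submodule (ZMod 2) V) ≤ S.ann y ⊔ (S.ann z ⊔ S.ann s) :=
      le_sup_right
    have h1 := half hlt (w := w) (Submodule.mem_sup_left hw') (by rw [← hM]; exact hwM)
    have h2 : Nat.card (⊤ : Submodule (ZMod 2) V) ≤
        Nat.card (S.ann y ⊔ (S.ann z ⊔ S.ann s) : Submodule (ZMod 2) V) := by
      rw [Nat.card_congr Submodule.topEquiv.toEquiv, hn, g13]
      rw [← hM, hm, g12, hM] at h1
      omega
    exact hne (eq_of_card_le le_top h2)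
  have htop2 : S.ann z ⊔ (S.ann s ⊔ S.ann y) = ⊤ := by
    rw [← htop]; ac_rfl
  have htop3 : S.ann s ⊔ (S.ann y ⊔ S.ann z) = ⊤ := by
    rw [← htop]; ac_rfl
  have kzs : Nat.card (S.ann z ⊓ S.ann s : Submodule (ZMod 2) V) = k := by
    rw [← hk]
    congr 2
    ext v
    simp only [Submodule.mem_inf]
    constructor
    · rintro ⟨h1, h2⟩
      exact ⟨(C.add' (S := S) h1 h2).of_eq hs2 rfl, h1⟩
    · rintro ⟨h1, h2⟩
      exact ⟨h2, (C.add' (S := S) h1 h2).of_eq hs rfl⟩
  have ksy : Nat.card (S.ann s ⊓ S.ann y : Submodule (ZMod 2) V) = k := by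
    rw [← hk]
    congr 2
    ext v
    simp only [Submodule.mem_inf]
    constructor
    · rintro ⟨h1, h2⟩
      exact ⟨h2, (C.add' (S := S) h1 h2).of_eq hs3 rfl⟩
    · rintro ⟨h1, h2⟩
      exact ⟨(C.add' (S := S) h1 h2).of_eq hs rfl, h1⟩
  have hzs : ¬ C S z s := fun h => hyz (C.symm (S := S)
    (((C.self he z).add h).of_eq rfl hs2))
  have hsy : ¬ C S s y := fun h => hyz
    (((C.self he y).add (C.symm (S := S) h)).of_eq rfl (by rw [add_comm]; exact hs3))
  obtain ⟨-, py⟩ := pt he hs hyz hk hyk hzk hsk hVk htop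
  obtain ⟨⟨hz, cz, ez⟩, pz⟩ := pt he hs2 hzs kzs hzk hsk hyk hVk htop2
  obtain ⟨⟨hs0, cs, es⟩, ps⟩ := pt he hs3 hsy ksy hsk hyk hzk hVk htop3
  have R : R3 S y z s w hz hs0 :=
    { he := he
      sum := hs
      cy := hw
      cz := cz
      cs := cs
      ey := hzw
      ez := ez
      es := es
      yz := hyz
      dy := py w hw hzw
      dz := fun u hu => by
        obtain ⟨c, d, k, h1, h2, h3⟩ := pz hz cz ez u hu
        exact ⟨c, d, k, (C.add' (S := S) h1 h2).of_eq hs2 rfl, h1, h3⟩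
      ds := fun u hu => by
        obtain ⟨c, d, k, h1, h2, h3⟩ := ps hs0 cs es u hu
        exact ⟨c, d, k, h2, (C.add' (S := S) h1 h2).of_eq hs3 rfl, h3⟩
      rk := fun w g => dep4 (h8 w) g }
  exact R.contra

/-- all indices at most eight: an element of maximal rank is regular -/
theorem reg_of_rank3 [Finite V] (he : S.e = 0)
    (h8 : ∀ x, Nat.card V ≤ 8 * Nat.card (S.ann x)) {y : V}
    (hy : ∀ x, Nat.card (S.ann y) ≤ Nat.card (S.ann x)) : SRg S y := by
  intro w z hw
  by_contra hzw0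
  have key : ∀ z', S.q w z' = S.q w z → C S y z' := by
    intro z' hz'
    by_contra hc
    exact r3_of he h8 hy hw (fun h => hzw0 (h.symm.congr hz')) hc
  have hyz : C S y z := key z rfl
  have hle : S.ann w ≤ S.ann y := by
    intro h hh
    have h1 : C S y (z + h) := key (z + h) (q_eq (C.of_eq (S := S) hh rfl (by
      rw [add_right_comm, ZModModule.add_self, zero_add])))
    have h2 := h1.add hyz
    exact h2.of_eq rfl (by rw [add_right_comm, ZModModule.add_self, zero_add])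
  have heq := eq_of_card_le hle (hy w)
  have hwz : C S w z := by
    have : z ∈ S.ann w := by rw [heq]; exact hyz
    exact this
  exact hzw0 ⟨0, by rw [S.q_zero]; exact hwz⟩

/-- a finite structure (`-1 = 1`) with at most eight values `q (x, ·)` for every `x` has a regular
element -/
theorem regE_of_rank3 (S : QStruct) [Finite S.G] (hneg : S.neg = 1)
    (h8 : ∀ x, Nat.card (Set.range (S.q x)) ≤ 8) : ∃ x, RegE S x := by
  have hfin : Finite (Additive S.G) := (inferInstance : Finite S.G)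
  have he : (ETC.toData S).e = 0 := by
    show Additive.ofMul S.neg = 0
    rw [hneg]; rfl
  obtain ⟨y, hy⟩ := exists_max_rank (ETC.toData S)
  have hx := reg_of_rank3 (S := ETC.toData S) he (fun x => (card_range x).trans
    (Nat.mul_le_mul_right _ (h8 (Additive.toMul x)))) hy
  refine ⟨Additive.toMul y, fun w v hw => ?_⟩
  obtain ⟨z, hz⟩ := hx (Additive.ofMul w) (Additive.ofMul v) hw
  exact ⟨Additive.toMul z, hz.symm⟩

/-- **rank at most three** -/
theorem elem_of_rank3 (S : QStruct) (hf : Finite S.G) (hneg : S.neg = 1)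
    (h8 : ∀ x, Nat.card (Set.range (S.q x)) ≤ 8) : ElemType S := by
  refine REG10.elem_of_hreg REG10.srgx _ S hf rfl hneg fun U hU => ?_
  let T := ESL.PRODRECX.sub S hneg U hU
  have hT := REG10.emb_sub S hneg U hU
  have hfT : Finite T.G := by
    show Finite U
    infer_instance
  obtain ⟨x, hx⟩ := regE_of_rank3 T rfl (fun x => by
    refine le_trans ?_ (h8 (U.subtype x))
    have hf2 : Finite (Set.range (S.q (U.subtype x))) := Set.finite_range _
    have hcc : ∀ c : Set.range (T.q x), ∃ v : T.G, T.q x v = c := fun c => c.2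
    choose g hg using hcc
    apply Nat.card_le_card_of_injective
      (fun c : Set.range (T.q x) => (⟨S.q (U.subtype x) (U.subtype (g c)), ⟨_, rfl⟩⟩ :
        Set.range (S.q (U.subtype x))))
    intro c c' h
    have h3 : S.q (U.subtype x) (U.subtype (g c)) = S.q (U.subtype x) (U.subtype (g c')) :=
      congrArg Subtype.val h
    have h5 := (hT.q _ _ _ _).2 h3
    rw [hg, hg] at h5
    exact Subtype.ext h5)
  refine ⟨x.1, x.2, fun w hw hxw v hv => ?_⟩
  obtain ⟨z, hz⟩ := hx ⟨w, hw⟩ ⟨v, hv⟩ ((hT.zero x ⟨w, hw⟩).2 hxw)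
  exact ⟨z.1, z.2, (hT.q _ _ _ _).1 hz⟩

/-- `|q (x, G)|` is a power of two -/
theorem card_range_pow (S : QStruct) (hf : Finite S.G) (x : S.G) :
    ∃ k, Nat.card (Set.range (S.q x)) = 2 ^ k := by
  have hfin : Finite (Additive S.G) := (inferInstance : Finite S.G)
  let D := ETC.toData S
  have e : Nat.card (Set.range (S.q x)) = Nat.card (BX D (Additive.ofMul x)) := by
    refine (Nat.card_congr (Equiv.ofBijective
      (fun c : BX D (Additive.ofMul x) => (⟨S.q x (Additive.toMul (Quotient.out c)), ⟨_, rfl⟩⟩ :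
        Set.range (S.q x))) ⟨?_, ?_⟩)).symm
    · intro c c' h
      have h3 : D.q (Additive.ofMul x) (Quotient.out c) =
        D.q (Additive.ofMul x) (Quotient.out c') := congrArg Subtype.val h
      rw [← REG10.ta_eq_iff] at h3
      have e : ∀ c : BX D (Additive.ofMul x), ta D (Additive.ofMul x) (Quotient.out c) = c :=
        fun c => Quotient.out_eq c
      rwa [e, e] at h3
    · rintro ⟨c, g, rfl⟩
      refine ⟨ta D (Additive.ofMul x) (Additive.ofMul g), Subtype.ext ?_⟩
      show D.q (Additive.ofMul x) (Quotient.out (ta D (Additive.ofMul x) (Additive.ofMul g))) =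
        D.q (Additive.ofMul x) (Additive.ofMul g)
      rw [← REG10.ta_eq_iff]
      exact Quotient.out_eq _
  rw [e, Module.natCard_eq_pow_finrank (K := ZMod 2)]
  exact ⟨_, by rw [Nat.card_zmod]⟩

theorem rk_le8 (S : QStruct) (hf : Finite S.G) (hneg : S.neg = 1) (h15 : Nat.card S.Q ≤ 15)
    (x : S.G) : Nat.card (Set.range (S.q x)) ≤ 8 := by
  have hQ : Finite S.Q := by
    have hs : Function.Surjective fun p : S.G × S.G => S.q p.1 p.2 := fun c => by
      obtain ⟨a, b, h⟩ := S.surj c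
      exact ⟨(a, b), h⟩
    exact Finite.of_surjective _ hs
  obtain ⟨k, hk⟩ := card_range_pow S hf x
  have h1 : Nat.card (Set.range (S.q x)) ≤ Nat.card S.Q :=
    Nat.card_le_card_of_injective (fun c => c.1) Subtype.val_injective
  have h2 : k < 4 := by
    by_contra hc
    have h3 : 2 ^ 4 ≤ 2 ^ k := Nat.pow_le_pow_right (by norm_num) (by omega)
    omega
  rw [hk]
  calc 2 ^ k ≤ 2 ^ 3 := Nat.pow_le_pow_right (by norm_num) (by omega)
    _ = 8 := by norm_num

end Pool.Agent.ETGP
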