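import Pool.Agent.Lib_MP_d26ff6_al.Defs
import Pool.Agent.REG10.SAll
import Pool.Agent.REG10.ER
import Pool.Agent.REG10.FN.RTC

/-!
The elementary type conjecture for finite quaternionic structures with `-1 = 1`: regular elements.

Stronger form of `Pool.Agent.REG10.Final` (retracts instead of linked subgroups; part (3) is an
equivalence).
-/

namespace Pool.Agent.ETGP.RegularTheoremOld

open QS

/-- `U` is a linked subgroup: (QS4) holds inside `U`. -/
def Linked (S : QStruct) (U : Subgroup S.G) : Prop :=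
  ∀ a ∈ U, ∀ b ∈ U, ∀ c ∈ U, ∀ d ∈ U, S.q a b = S.q c d →
    ∃ x ∈ U, S.q a b = S.q a x ∧ S.q c d = S.q c x

/-- `x` is a regular element of the subgroup `U`: `x ∈ U`, and for all `v, w ∈ U` with
`q (x, w) = 0` the quaternion `q (w, v)` is of the form `q (x, z)`, `z ∈ U`. -/
def Regular (S : QStruct) (U : Subgroup S.G) (x : S.G) : Prop :=
  x ∈ U ∧ ∀ w ∈ U, S.q x w = S.zero → ∀ v ∈ U, ∃ z ∈ U, S.q x z = S.q w v

/-- `U` is a retract of `S` (with `-1 = 1`): there is an endomorphism `ρ` of the group with values in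
`U`, the identity on `U`, such that `q (a, b) = 0` implies `q (ρ a, ρ b) = 0`. -/
def Retract (S : QStruct) (U : Subgroup S.G) : Prop :=
  ∃ ρ : S.G →* S.G, (∀ a, ρ a ∈ U) ∧ (∀ u ∈ U, ρ u = u) ∧
    ∀ a b, S.q a b = S.zero → S.q (ρ a) (ρ b) = S.zero

/-- retracts are linked subgroups -/
theorem Retract.linked {S : QStruct} {U : Subgroup S.G} (h : Retract S U) : Linked S U := by
  have h' : REG10.Retr S U := h
  exact h'.lsub

/-- The structure induced by `S` (with `-1 = 1`) on a linked subgroup `U`: the group is `U`, the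
quaternions are the `q (a, b)` with `a, b ∈ U`. -/
def sub (S : QStruct) (hneg : S.neg = 1) (U : Subgroup S.G) (h : Linked S U) : QStruct where
  G := U
  Q := {β : S.Q // ∃ a b : U, S.q a b = β}
  neg := 1
  zero := ⟨S.zero, 1, 1, S.q_one 1⟩
  q := fun a b => ⟨S.q a b, a, b, rfl⟩
  exp_two := fun a => Subtype.ext (S.exp_two a)
  surj := fun ⟨β, a, b, h⟩ => ⟨a, b, Subtype.ext h⟩
  qs1 := fun a => Subtype.ext (by
    have := S.qs1 (a : S.G)
    rw [hneg] at this
    simpa using this)
  qs2 := fun a b => Subtype.ext (S.qs2 a b)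
  qs3 := by
    intro a b c
    rw [Subtype.mk.injEq, Subtype.mk.injEq]
    exact S.qs3 _ _ _
  qs4 := by
    intro a b c d e
    obtain ⟨x, hx, h1, h2⟩ := h a a.2 b b.2 c c.2 d d.2 (congrArg Subtype.val e)
    exact ⟨⟨x, hx⟩, Subtype.ext h1, Subtype.ext h2⟩

/-- `S` is isomorphic to a group extension `T[x]`. -/
def IsExt (S : QStruct) : Prop := ∃ T : QStruct, Iso S (ext T)

/-- `S` is isomorphic to a direct product of two nontrivial structures. -/
def IsProd (S : QStruct) : Prop :=
  ∃ A B : QStruct, A.neg = 1 ∧ B.neg = 1 ∧ 2 ≤ Nat.card A.G ∧ 2 ≤ Nat.card B.G ∧ Iso (prod A B) S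

/-- For some `x` there is exactly one nonzero quaternion of the form `q (x, y)`. -/
def HasRankOne (S : QStruct) : Prop :=
  ∃ (x : S.G) (c : S.Q), c ≠ S.zero ∧ (∀ y, S.q x y = S.zero ∨ S.q x y = c) ∧ ∃ y, S.q x y = c

/-- Regular elements (`-1 = 1`).  (1) A finite structure with a regular element is trivial, a group
extension, a product of two nontrivial structures, or some `q (x, ·)` has exactly one nonzero
value.  (2) It is of elementary type if its proper retracts are of elementary type.
(3) A finite structure is of elementary type if and only if every retract has a regular element.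
(4) The elementary type conjecture for `-1 = 1` holds if and only if every finite structure with
`-1 = 1` has a regular element. -/
theorem result :
    (∀ S : QStruct, Finite S.G → S.neg = 1 → (∃ x, Regular S ⊤ x) →
      Nat.card S.G = 1 ∨ IsExt S ∨ IsProd S ∨ HasRankOne S) ∧
    (∀ (S : QStruct) (hneg : S.neg = 1), Finite S.G → (∃ x, Regular S ⊤ x) →
      (∀ (U : Subgroup S.G) (h : Retract S U), U ≠ ⊤ → ElemType (sub S hneg U h.linked)) →
      ElemType S) ∧
    (∀ S : QStruct, Finite S.G → S.neg = 1 →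
      (ElemType S ↔ ∀ U : Subgroup S.G, Retract S U → ∃ x, Regular S U x)) ∧
    ((∀ S : QStruct, Finite S.G → S.neg = 1 → ElemType S) ↔
      ∀ S : QStruct, Finite S.G → S.neg = 1 → ∃ x, Regular S ⊤ x) := by
  have hreg : ∀ S : QStruct, (∃ x, Regular S ⊤ x) ↔ REG10.HasReg S ⊤ := fun S => Iff.rfl
  refine ⟨?_, ?_, ?_, ?_⟩
  · intro S hf hneg hx
    obtain ⟨x, hx⟩ := (REG10.regE_iff S).2 ((hreg S).1 hx)
    rcases REG10.struct_thm REG10.srgx S hneg x hx with h | h
    · left
      have hs : Subsingleton S.G := ⟨fun a b => by rw [h a, h b]⟩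
      exact Nat.card_unique
    · exact Or.inr h
  · intro S hneg hf hx hU
    exact REG10.elem_of_regular' REG10.srgx S hneg ((hreg S).1 hx)
      (fun U _ hR hUt => hU U hR hUt)
  · intro S hf hneg
    exact REG10.elem_iff_hregR S hf hneg
  · rw [REG10.etc_iff REG10.srgx]
    constructor
    · intro h S hf hneg
      exact (hreg S).2 ((REG10.regE_iff S).1 (h S hf hneg))
    · intro h S hf hneg
      exact (REG10.regE_iff S).2 ((hreg S).1 (h S hf hneg))

end Pool.Agent.ETGP.RegularTheoremOld

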