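import Pool.Agent.ETGP.ThmE

/-!
# SPADE and LZ (helper73, helper52), set-level, helper24
-/

set_option autoImplicit false
set_option linter.unusedSectionVars false
set_option linter.unusedSimpArgs false
set_option linter.unnecessarySeqFocus false

namespace Pool.Agent.ETGP

open QS
open Pool.Agent.Helper58.PLine (QData)
open Pool.Agent.ETCP
open Pool.Agent.ETPR
open Pool.Agent.ETAL
open Pool.Agent.REG10 (InQ SRg RegE)

variable {V Q : Type} [AddCommGroup V] [Module (ZMod 2) V] {S : QData V Q}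

/-- **SPADE**: `z ∈ V_a`, `z' ∈ V_(a+y)` ==> `(z+p)(z'+p+y) = 0` for some `p ∈ V_y` -/
theorem spade (he : S.e = 0) {y a z z' : V} (hz : C S a z) (hz' : C S (a + y) z') :
    ∃ p, C S y p ∧ C S (z + p) (z' + p + y) := by
  have e1 : S.q y z = S.q (a + y) z := by
    apply q_eq'
    exact hz.of_eq (eo (by abel_nf <;> simp only [ch2, ch3, ch4, ch5, ch6, add_zero, zero_add])) rfl
  have e2 : S.q (a + y) z = S.q (a + y) (z + z') := by
    apply q_eq
    exact hz'.of_eq rfl (eo (by abel_nf <;> simp only [ch2, ch3, ch4, ch5, ch6, add_zero, zero_add]))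
  have e3 : S.q y z = S.q (z + z') (a + y) := by rw [e1, e2, S.symm]
  obtain ⟨t, h1, h2, h3⟩ := link e3
  refine ⟨z + t, h1, ?_⟩
  have h4 : C S t (y + z + z') := h3.symm.of_eq rfl (by abel)
  have h5 := h4.add (C.self he t)
  exact h5.of_eq (eo (by abel_nf <;> simp only [ch2, ch3, ch4, ch5, ch6, add_zero, zero_add])) (eo (by abel_nf <;> simp only [ch2, ch3, ch4, ch5, ch6, add_zero, zero_add]))

/-- **LZ**: if `a g ∈ Q_y` then `(a + r) g ∈ a V_y` for some `r ∈ V_y` -/
theorem lz (he : S.e = 0) {y a g : V} (hg : g ∈ MZ S y a) :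
    ∃ r ∈ S.ann y, ZE S a (S.ann y) (a + r) g := by
  obtain ⟨z, hz, z', hz', rfl⟩ := Submodule.mem_sup.1 hg
  have hz1 : C S a z := hz
  have hz1' : C S (a + y) z' := hz'
  obtain ⟨p, hp, h1⟩ := spade he hz1 hz1'
  have hz2 : C S a (z + a) := hz1.add (C.self he a)
  obtain ⟨q, hq, h2⟩ := spade he hz2 hz1'
  -- first relation: `(z+p+a+y) g = 0`
  have e1 : C S (z + p) (z + z' + y) :=
    (h1.add (C.self he (z + p))).of_eq rfl
      (eo (by abel_nf <;> simp only [ch2, ch3, ch4, ch5, ch6, add_zero, zero_add]))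
  have e2 : S.q (z + z') (z + p) = S.q y z := by
    rw [S.symm]
    have h3 : S.q (z + p) (z + z') = S.q (z + p) y := q_eq e1
    rw [h3, S.symm]
    exact q_eq (hp.of_eq rfl (eo (by abel_nf <;> simp only [ch2, ch3, ch4, ch5, ch6, add_zero, zero_add])))
  have e3 : S.q (z + z') a = S.q y z' := by
    rw [S.symm]
    have h3 : S.q a (z + z') = S.q a z' :=
      q_eq (hz1.of_eq rfl (eo (by abel_nf <;> simp only [ch2, ch3, ch4, ch5, ch6, add_zero, zero_add])))
    rw [h3]
    exact q_eq' (hz1'.of_eq (eo (by abel_nf <;> simp only [ch2, ch3, ch4, ch5, ch6, add_zero, zero_add])) rfl)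
  have e4 : S.q (z + z') (z + p + a) = S.q y (z + z') := ETC.add_common e2 e3
  have e5 : C S (z + z') (z + p + a + y) := by
    rw [S.symm y] at e4
    exact q_eq_iff.1 e4
  refine ⟨p + q, add_mem hp hq, q + y, add_mem hq (C.self he y), ?_⟩
  -- `(a+p+q) g = (z+q+y) g = (z+q+y)(z'+q+y) = (a+y)(z'+q+y) = (a+y)(q+y) = a (q+y)`
  have s1 : S.q (a + (p + q)) (z + z') = S.q (z + q + y) (z + z') := by
    apply q_eq'
    exact e5.symm.of_eq (eo (by abel_nf <;> simp only [ch2, ch3, ch4, ch5, ch6, add_zero, zero_add])) rfl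
  have s2 : S.q (z + q + y) (z + z') = S.q (z + q + y) (z' + q + y) := by
    apply q_eq
    exact (C.self he (z + q + y)).of_eq rfl (eo (by abel_nf <;> simp only [ch2, ch3, ch4, ch5, ch6, add_zero, zero_add]))
  have s3 : S.q (z + q + y) (z' + q + y) = S.q (a + y) (z' + q + y) := by
    apply q_eq'
    exact h2.of_eq (eo (by abel_nf <;> simp only [ch2, ch3, ch4, ch5, ch6, add_zero, zero_add])) rfl
  have s4 : S.q (a + y) (z' + q + y) = S.q (a + y) (q + y) := by
    apply q_eq
    exact hz1'.of_eq rfl (eo (by abel_nf <;> simp only [ch2, ch3, ch4, ch5, ch6, add_zero, zero_add]))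
  have s5 : S.q (a + y) (q + y) = S.q a (q + y) := by
    apply q_eq'
    exact (hq.add (C.self he y)).of_eq (eo (by abel_nf <;> simp only [ch2, ch3, ch4, ch5, ch6, add_zero, zero_add])) rfl
  rw [s1, s2, s3, s4, s5]

end Pool.Agent.ETGP
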