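import Pool.Agent.ETGP.End

/-!
# helper23's Theorem E: the end of the argument modulo `zD`, helper24
-/

set_option autoImplicit false
set_option linter.unusedSectionVars false
set_option linter.unusedSimpArgs false

namespace Pool.Agent.ETGP

open QS
open Pool.Agent.Helper58.PLine (QData)
open Pool.Agent.ETCP
open Pool.Agent.ETPR
open Pool.Agent.ETAL
open Pool.Agent.REG10 (InQ SRg RegE)

variable {V Q : Type} [AddCommGroup V] [Module (ZMod 2) V] {S : QData V Q}

theorem eq_of_card_le [Finite V] {A B : Submodule (ZMod 2) V} (h : A ≤ B)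
    (hc : Nat.card B ≤ Nat.card A) : A = B := by
  have h3 : (A : Set V) = B :=
    Set.eq_of_subset_of_ncard_le h (by
      rw [← Nat.card_coe_set_eq, ← Nat.card_coe_set_eq]
      exact hc) (Set.toFinite _)
  exact SetLike.coe_injective h3

variable (S) in
/-- `{e ∈ E : z e ∈ s N}` -/
def E' (s z : V) (N E : Submodule (ZMod 2) V) : Submodule (ZMod 2) V where
  carrier := {e | e ∈ E ∧ ∃ g ∈ N, S.q s g = S.q z e}
  add_mem' := by
    rintro e e' ⟨h1, g, h2, h3⟩ ⟨h1', g', h2', h3'⟩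
    exact ⟨E.add_mem h1 h1', g + g', N.add_mem h2 h2', ETC.add_common h3 h3'⟩
  zero_mem' := ⟨E.zero_mem, 0, N.zero_mem, by rw [S.q_zero, S.q_zero]⟩
  smul_mem' := by
    rintro r e h
    refine smul_cases (p := fun e => e ∈ E ∧ ∃ g ∈ N, S.q s g = S.q z e) r e ?_ h
    exact ⟨E.zero_mem, 0, N.zero_mem, by rw [S.q_zero, S.q_zero]⟩

/-- the estimate, with equality -/
theorem count_eq [Finite V] {s z : V} {N E : Submodule (ZMod 2) V}
    (h : ∀ g ∈ N, ∃ e ∈ E, S.q s g = S.q z e) :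
    Nat.card N * Nat.card (E ⊓ S.ann z : Submodule (ZMod 2) V) ≤
      Nat.card (N ⊓ S.ann s : Submodule (ZMod 2) V) * Nat.card (E' S s z N E) := by
  set F := Pr S s z N E with hF
  let f : F →ₗ[ZMod 2] V := (LinearMap.fst (ZMod 2) V V).comp F.subtype
  let f' : F →ₗ[ZMod 2] V := (LinearMap.snd (ZMod 2) V V).comp F.subtype
  have hr : N ≤ LinearMap.range f := by
    intro g hg
    obtain ⟨e, he, h1⟩ := h g hg
    exact ⟨⟨(g, e), hg, he, h1⟩, rfl⟩
  have hr' : LinearMap.range f' ≤ E' S s z N E := by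
    rintro _ ⟨⟨⟨g, e⟩, h1, h2, h3⟩, rfl⟩
    exact ⟨h2, g, h1, h3⟩
  have hk : Nat.card (E ⊓ S.ann z : Submodule (ZMod 2) V) ≤ Nat.card (LinearMap.ker f) := by
    refine Nat.card_le_card_of_injective
      (fun e => ⟨⟨(0, (e : V)), N.zero_mem, e.2.1, ?_⟩, rfl⟩) ?_
    · show S.q s 0 = S.q z e
      rw [S.q_zero]
      exact (S.mem_ann.1 e.2.2).symm
    · intro e e' hee
      have := congrArg (fun x : LinearMap.ker f => (((x : F) : V × V)).2) hee
      exact Subtype.ext this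
  have hk' : Nat.card (LinearMap.ker f') ≤ Nat.card (N ⊓ S.ann s : Submodule (ZMod 2) V) := by
    refine Nat.card_le_card_of_injective
      (fun p => ⟨(((p : F) : V × V)).1, ?_⟩) ?_
    · have h3 := (p : F).2.2.2
      have h4 : (((p : F) : V × V)).2 = 0 := p.2
      rw [h4, S.q_zero] at h3
      exact ⟨(p : F).2.1, h3⟩
    · intro p p' hpp
      have h1 : (((p : F) : V × V)).1 = (((p' : F) : V × V)).1 := congrArg Subtype.val hpp
      have h2 : (((p : F) : V × V)).2 = 0 := p.2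
      have h3 : (((p' : F) : V × V)).2 = 0 := p'.2
      apply Subtype.ext
      apply Subtype.ext
      exact Prod.ext h1 (h2.trans h3.symm)
  have c1 := card_ker_range f
  have c2 := card_ker_range f'
  have c3 : Nat.card N ≤ Nat.card (LinearMap.range f) := Nat.card_mono (Set.toFinite _) hr
  have c4 : Nat.card (LinearMap.range f') ≤ Nat.card (E' S s z N E) :=
    Nat.card_mono (Set.toFinite _) hr'
  calc _ = Nat.card (E ⊓ S.ann z : Submodule (ZMod 2) V) * Nat.card N := mul_comm _ _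
    _ ≤ Nat.card (LinearMap.ker f) * Nat.card (LinearMap.range f) := Nat.mul_le_mul hk c3
    _ = Nat.card (LinearMap.ker f') * Nat.card (LinearMap.range f') := by rw [← c1, ← c2]
    _ ≤ _ := Nat.mul_le_mul hk' c4

/-- **Theorem E** (helper23): `|V_y| ≤ |V_(z+y)|`, `d ∈ V_y`, `(z+d) M_z ≤ z V_y`,
`|V_(z+d)| ≤ |V_z|` give `z V_y ≤ Q_y`. -/
theorem thmE [Finite V] {y z d : V} (hy : Nat.card (S.ann y) ≤ Nat.card (S.ann (z + y)))
    (hd : Nat.card (S.ann (z + d)) ≤ Nat.card (S.ann z))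
    (h : ∀ g ∈ MZ S y z, ZE S z (S.ann y) (z + d) g) :
    ∀ w ∈ S.ann y, InQ S y z w := by
  set s := z + d with hs
  have h1 := count_eq (S := S) h
  have h2 := card_MZ (S := S) y z
  rw [h2] at h1
  set A := Nat.card (S.ann z) with hA
  set B := Nat.card (S.ann (z + y)) with hB
  set A' := Nat.card (MZ S y z ⊓ S.ann s : Submodule (ZMod 2) V) with hA'
  set D' := Nat.card (E' S s z (MZ S y z) (S.ann y)) with hD'
  have a1 : A' ≤ Nat.card (S.ann s) := Nat.card_mono (Set.toFinite _) inf_le_right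
  have a2 : D' ≤ Nat.card (S.ann y) := Nat.card_mono (Set.toFinite _) fun e he => he.1
  have p1 : 0 < A := Nat.card_pos
  have p2 : 0 < B := Nat.card_pos
  have p3 : 0 < A' := Nat.card_pos
  have p4 : 0 < D' := Nat.card_pos
  have a3 : A' ≤ A := a1.trans hd
  have a4 : D' ≤ B := a2.trans hy
  have a5 : A' = A := by
    by_contra hne
    have : A' < A := lt_of_le_of_ne a3 hne
    have : A' * D' < A * B := Nat.mul_lt_mul_of_lt_of_le this a4 p2
    omega
  have a6 : D' = B := by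
    by_contra hne
    have : D' < B := lt_of_le_of_ne a4 hne
    have : A' * D' < A * B := Nat.mul_lt_mul_of_le_of_lt a3 this p1
    omega
  have e1 : (MZ S y z ⊓ S.ann s : Submodule (ZMod 2) V) = S.ann s :=
    eq_of_card_le inf_le_right (by
      show Nat.card (S.ann s) ≤ A'
      rw [a5]; exact hd)
  have e2 : E' S s z (MZ S y z) (S.ann y) = S.ann y :=
    eq_of_card_le (fun e he => he.1) (by
      show Nat.card (S.ann y) ≤ D'
      rw [a6]; exact hy)
  have hsM : ∀ v ∈ S.ann s, InQ S y z v := by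
    intro v hv
    rw [← e1] at hv
    exact mem_MZ.1 hv.1
  -- elements of the two parts
  have hlinkz : ∀ a, S.q z a = S.z → a ∈ MZ S y z → InQ S y s a := by
    intro a ha haM
    obtain ⟨e, he, h3⟩ := h a haM
    -- `s a = d a = z e`
    have h4 : S.q s a = S.q d a := by
      rw [hs]
      exact q_eq' (C.of_eq (S := S) ha (by
        rw [add_assoc, ZModModule.add_self, add_zero]) rfl)
    obtain ⟨t, h5, h6⟩ := S.link _ _ _ _ (h4.symm.trans h3)
    -- `d a = d t`, `z e = z t`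
    have h7 : C S s t := by
      have : S.q z t = S.q d t := by rw [← h6, ← h5, ← h4, h3]
      exact q_eq'_iff.1 this
    obtain ⟨u, hu⟩ := hsM t h7
    exact ⟨u, by rw [h3, h6, hu]⟩
  have hlinky : ∀ b, S.q (z + y) b = S.z → b ∈ MZ S y z → InQ S y s b := by
    intro b hb hbM
    obtain ⟨e, he, h3⟩ := h b hbM
    -- `s b = (d+y) b`, `z e = (z+y) e`
    have h4 : S.q s b = S.q (d + y) b := by
      rw [hs]
      exact q_eq' (C.of_eq (S := S) hb (by
        have : z + d + (d + y) = z + (d + d) + y := by abel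
        rw [this, ZModModule.add_self, add_zero]) rfl)
    have h4' : S.q z e = S.q (z + y) e := by
      refine q_eq' (C.of_eq (S := S) he ?_ rfl)
      rw [← add_assoc, ZModModule.add_self, zero_add]
    obtain ⟨t, h5, h6⟩ := S.link _ _ _ _ (h4.symm.trans (h3.trans h4'))
    have h7 : C S s t := by
      have : S.q (z + y) t = S.q (d + y) t := by rw [← h6, ← h5, ← h4, h3, h4']
      have h8 := q_eq'_iff.1 this
      refine C.of_eq h8 ?_ rfl
      have : z + y + (d + y) = z + d + (y + y) := by abel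
      rw [this, ZModModule.add_self, add_zero]
    obtain ⟨u, hu⟩ := hsM t h7
    -- `(z+y) t = z t + y t` is in `Q_y`
    have h9 : InQ S y (z + y) t := InQ.add_left ⟨u, hu⟩ ⟨t, rfl⟩
    exact h9.congr (by rw [h3, h4', h6])
  intro w hw
  have hw' := hw
  rw [← e2] at hw'
  obtain ⟨-, g, hg, h3⟩ := hw'
  obtain ⟨a, ha, b, hb, rfl⟩ := Submodule.mem_sup.1 hg
  have h4 := hlinkz a ha (Submodule.mem_sup_left ha)
  have h5 := hlinky b hb (Submodule.mem_sup_right hb)
  exact (h4.add h5).congr h3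

/-- the join law modulo `z V_y` suffices -/
theorem inq_of_joinL [Finite V] {y z w : V} (hy : ∀ x, Nat.card (S.ann y) ≤ Nat.card (S.ann x))
    (hw : w ∈ S.ann y) {T : Submodule (ZMod 2) V} (hTw : ∀ t ∈ T, InQ S y t w)
    (h : ∀ t ∈ T, ∃ d ∈ T, ∀ g ∈ MZ S y (z + t), ZE S (z + t) (S.ann y) (z + t + d) g) :
    InQ S y z w := by
  classical
  obtain ⟨t, ht⟩ := Finite.exists_max (fun t : T => Nat.card (S.ann (z + t)))
  obtain ⟨d, hd, hJ⟩ := h t t.2
  have h3 := ht ⟨t + d, T.add_mem t.2 hd⟩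
  have h5 : Nat.card (S.ann (z + t + d)) ≤ Nat.card (S.ann (z + (t : V))) := by
    rw [add_assoc]; exact h3
  have h2 := thmE (S := S) (y := y) (z := z + t) (d := d) (hy _) h5 hJ w hw
  exact (h2.add_left (hTw t t.2)).congr (by rw [add_assoc, ZModModule.add_self, add_zero])

/-- **from the join law modulo `z V_y` to the conjecture** -/
theorem etc_of_joinL
    (h : ∀ (V Q : Type) [AddCommGroup V] [Module (ZMod 2) V] [Finite V] (S : QData V Q),
      S.e = 0 → ∀ y, (∀ x, Nat.card (S.ann y) ≤ Nat.card (S.ann x)) →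
      ∀ w ∈ S.ann y, ∀ z, ¬ InQ S y z w → ∃ T : Submodule (ZMod 2) V,
        (∀ t ∈ T, InQ S y t w) ∧
        ∀ t ∈ T, ∃ d ∈ T, ∀ g ∈ MZ S y (z + t), ZE S (z + t) (S.ann y) (z + t + d) g) :
    ∀ S : QStruct, Finite S.G → S.neg = 1 → ElemType S := by
  refine etc_of_reg fun V Q _ _ _ S he => ?_
  obtain ⟨y, hy⟩ := exists_max_rank S
  refine ⟨y, fun w z hw => ?_⟩
  by_contra hzw
  have hzw' : ¬ InQ S y z w := fun h' => hzw h'.symm
  obtain ⟨T, h2, h3⟩ := h V Q S he y hy w hw z hzw'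
  exact hzw' (inq_of_joinL hy hw h2 h3)

/-- **from the two halves of GP modulo `z V_y` (`LZ` with the second summand in `g T`, and `(a)`)
to the conjecture** -/
theorem etc_of_gpL
    (h : ∀ (V Q : Type) [AddCommGroup V] [Module (ZMod 2) V] [Finite V] (S : QData V Q),
      S.e = 0 → ∀ y, (∀ x, Nat.card (S.ann y) ≤ Nat.card (S.ann x)) →
      ∀ w ∈ S.ann y, ∀ z, ¬ InQ S y z w → ∃ T : Submodule (ZMod 2) V,
        (∀ t ∈ T, InQ S y t w) ∧
        ∀ z', ¬ InQ S y z' w →
          (∀ g ∈ MZ S y z', ∃ d ∈ T, ZE S z' (S.ann y) (z' + d) g) ∧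
          ∃ P : V → V → Submodule (ZMod 2) V,
            (∀ t ∈ T, ∀ m ∈ MZ S y z', ∀ x, (x ∈ T ∨ z' + x ∈ T) → ∀ a ∈ MZ S y z',
              ZE S z' (S.ann y) x a → ZE S z' (S.ann y) (x + t) (m + a) → x ∈ P t m) ∧
            (∀ t ∈ T, ∀ m ∈ MZ S y z', ∀ x ∈ T, x ∈ P t m → ∃ a ∈ MZ S y z',
              ZE S z' (S.ann y) x a ∧ ZE S z' (S.ann y) (x + t) (m + a))) :
    ∀ S : QStruct, Finite S.G → S.neg = 1 → ElemType S := by
  refine etc_of_joinL fun V Q _ _ _ S he y hy w hw z hzw => ?_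
  obtain ⟨T, h2, h3⟩ := h V Q S he y hy w hw z hzw
  refine ⟨T, h2, fun t ht => ?_⟩
  have h4 : ¬ InQ S y (z + t) w := fun h' =>
    hzw ((h'.add_left (h2 t ht)).congr (by
      rw [add_assoc, ZModModule.add_self, add_zero]))
  obtain ⟨hb, P, hP, ha⟩ := h3 (z + t) h4
  exact join_gen (S := S) (fun hzT => h4 (h2 _ hzT)) P hP ha hb

end Pool.Agent.ETGP
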